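import Mathlib

/-!
# MP_3c6722_mp: basic definitions (jets, local functions, total derivatives, symmetries, conservation laws)

A jet is a sequence `z` with `z 0 = x` and `z (k + 1) = u_k`.
-/

open scoped ContDiff

namespace Pool.Agent.Lib.MP_3c6722_mp

/-- A jet: `z 0 = x` and `z (k + 1) = u_k`, with `u_0 = u`. -/
abbrev Jet := ℕ → ℝ

/-- `f` is on `U` a function of class `r` of finitely many jet variables (`r = ∞`: smooth,
`r = ω`: analytic). -/
def IsLocal (r : WithTop ℕ∞) (U : Set Jet) (f : Jet → ℝ) : Prop :=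
  ∃ (N : ℕ) (f₀ : (Fin N → ℝ) → ℝ), ∀ z ∈ U,
    f z = f₀ (fun i => z i) ∧ ContDiffAt ℝ r f₀ (fun i => z i)

/-- The derivative of `f` at `z` along the vector field `W`. -/
noncomputable def along (W : Jet → Jet) (f : Jet → ℝ) (z : Jet) : ℝ :=
  deriv (fun t : ℝ => f (z + t • W z)) 0

/-- The vector field `∂_x + u_1 ∂_u + u_2 ∂_{u_1} + ...`. -/
def totalField (z : Jet) : Jet := fun i => if i = 0 then 1 else z (i + 1)

/-- The total `x`-derivative `D`. -/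
noncomputable def totalD (f : Jet → ℝ) : Jet → ℝ := along totalField f

/-- The evolutionary vector field `G ∂_u + D(G) ∂_{u_1} + D²(G) ∂_{u_2} + ...`. -/
noncomputable def evField (G : Jet → ℝ) (z : Jet) : Jet
  | 0 => 0
  | k + 1 => (totalD^[k] G) z

/-- The total `t`-derivative `D_t` along the equation `u_t = F`. -/
noncomputable def totalDt (F : Jet → ℝ) (f : Jet → ℝ) : Jet → ℝ := along (evField F) f

/-- The linearisation `F_*(G) = ∑ (∂F/∂u_i) D^i(G)`. -/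
noncomputable def linearisation (F : Jet → ℝ) (G : Jet → ℝ) : Jet → ℝ := along (evField G) F

/-- The partial derivative `∂f/∂u_m`. -/
noncomputable def partialU (m : ℕ) (f : Jet → ℝ) : Jet → ℝ :=
  along (fun _ => Pi.single (m + 1) 1) f

/-- `ρ` is the density of a local conservation law of `u_t = F` on `U`: `D_t ρ = D σ`. -/
def IsConserved (r : WithTop ℕ∞) (F : Jet → ℝ) (U : Set Jet) (ρ : Jet → ℝ) : Prop :=
  IsLocal r U ρ ∧ ∃ σ : Jet → ℝ, IsLocal r U σ ∧ ∀ z ∈ U, totalDt F ρ z = totalD σ z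

/-- `G` is a smooth local symmetry of `u_t = F` on `U`: `D_t G = F_*(G)`. -/
def IsSymmetry (F : Jet → ℝ) (U : Set Jet) (G : Jet → ℝ) : Prop :=
  IsLocal ∞ U G ∧ ∀ z ∈ U, totalDt F G z = linearisation F G z

/-- The right-hand side `6 u u_x + u_x² / 2 - (9/2) u_xx⁴ / u_xxx²`. -/
noncomputable def rhs (z : Jet) : ℝ :=
  6 * z 1 * z 2 + z 2 ^ 2 / 2 - 9 / 2 * z 3 ^ 4 / z 4 ^ 2

/-- The domain `u_xx < 0`, `u_xxx ≠ 0`. -/
def dom : Set Jet := {z | z 3 < 0 ∧ z 4 ≠ 0}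

/-- The statement proved. -/
def MainStatement : Prop :=
  (IsOpen dom ∧ dom.Nonempty ∧ IsLocal ω dom rhs ∧
    (∀ z ∈ dom, partialU 3 rhs z ≠ 0) ∧ ∀ z ∈ dom, ∀ m, 3 < m → partialU m rhs z = 0) ∧
  (∃ ρ : ℕ → Jet → ℝ, (∀ n, IsConserved ω rhs dom (ρ n)) ∧
    ∀ U : Set Jet, IsOpen U → U.Nonempty → U ⊆ dom → ∀ c : ℕ →₀ ℝ,
      (∃ σ : Jet → ℝ, IsLocal ∞ U σ ∧
        ∀ z ∈ U, (c.sum fun n a => a * ρ n z) = totalD σ z) → c = 0) ∧
  (∀ U : Set Jet, IsOpen U → U ⊆ dom → ∀ G : Jet → ℝ, IsSymmetry rhs U G →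
    ∀ z ∈ U, ∀ m, 3 < m → partialU m G z = 0)

end Pool.Agent.Lib.MP_3c6722_mp
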