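import Mathlib

/-!
# MP_3c6722_mp, module Gardner: the conservation laws of KdV in a differential ring

`w_0 = v`, `w_{n+1} = - D w_n + ∑_{a+b = n-1} w_a w_b` (empty sum for `n = 0`), i.e. the power series
`W = ∑ w_n ε^n` satisfies `v = W + ε D W - ε² W²` (coefficientwise `D`).
Claim: `T w_n = D (D² w_n + 3 ∑_{a+b=n} w_a w_b - 2 ∑_{a+b+c=n-2} w_a w_b w_c)`, i.e.
`T W = D (D² W + 3 W² - 2 ε² W³)`.
Proof. In `PowerSeries A` let `D^`, `T^` be the coefficientwise derivations (commuting, both kill `ε`),
`R := T^ W - D^³ W - 6 W D^ W + 6 ε² W² D^ W`. From `v = W + ε D^W - ε² W²` and `T v = D³ v + 6 v D v` one gets the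
Gardner identity `0 = T v - D³ v - 6 v D v = R + ε D^ R - 2 ε² W R` (expand both sides: `ring` after rewriting the derivations),
so all coefficients of `R` vanish by strong induction: `R_n = - D R_{n-1} + 2 ∑_{a+b=n-2} w_a R_b`.
(It may be simpler to avoid `PowerSeries` and to prove the identity coefficientwise; any proof is fine.)
-/

namespace Pool.Agent.Lib.MP_3c6722_mp

variable {A : Type*} [CommRing A] [Algebra ℝ A]

open PowerSeries in
/-- The coefficientwise derivation on power series. -/
private noncomputable def pd (D : Derivation ℝ A A) (F : PowerSeries A) : PowerSeries A :=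
  PowerSeries.mk fun n => D (PowerSeries.coeff n F)

private theorem coeff_pd (D : Derivation ℝ A A) (F : PowerSeries A) (n : ℕ) :
    PowerSeries.coeff n (pd D F) = D (PowerSeries.coeff n F) := by
  simp [pd]

private theorem pd_add (D : Derivation ℝ A A) (F G : PowerSeries A) :
    pd D (F + G) = pd D F + pd D G := by
  ext n; simp [coeff_pd]

private theorem pd_sub (D : Derivation ℝ A A) (F G : PowerSeries A) :
    pd D (F - G) = pd D F - pd D G := by
  ext n; simp [coeff_pd]

private theorem pd_mul (D : Derivation ℝ A A) (F G : PowerSeries A) :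
    pd D (F * G) = F * pd D G + G * pd D F := by
  ext n
  rw [coeff_pd, map_add, PowerSeries.coeff_mul, map_sum, PowerSeries.coeff_mul,
    mul_comm G (pd D F), PowerSeries.coeff_mul, ← Finset.sum_add_distrib]
  refine Finset.sum_congr rfl fun a _ => ?_
  rw [coeff_pd, coeff_pd, Derivation.leibniz, smul_eq_mul, smul_eq_mul]
  ring

private theorem pd_C (D : Derivation ℝ A A) (a : A) :
    pd D (PowerSeries.C a) = PowerSeries.C (D a) := by
  ext n
  rw [coeff_pd, PowerSeries.coeff_C, PowerSeries.coeff_C]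
  split_ifs <;> simp

private theorem pd_X (D : Derivation ℝ A A) : pd D (PowerSeries.X : PowerSeries A) = 0 := by
  ext n
  rw [coeff_pd, PowerSeries.coeff_X]
  split_ifs <;> simp

private theorem pd_ofNat (D : Derivation ℝ A A) (k : ℕ) :
    pd D ((k : ℕ) : PowerSeries A) = 0 := by
  have : ((k : ℕ) : PowerSeries A) = PowerSeries.C ((k : ℕ) : A) := by simp
  rw [this, pd_C]
  simp

private theorem pd_Xmul (D : Derivation ℝ A A) (F : PowerSeries A) :
    pd D (PowerSeries.X * F) = PowerSeries.X * pd D F := by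
  rw [pd_mul, pd_X]; ring

private theorem pd_two (D : Derivation ℝ A A) (F : PowerSeries A) :
    pd D (2 * F) = 2 * pd D F := by
  have h : (2 : PowerSeries A) = ((2 : ℕ) : PowerSeries A) := by simp
  rw [h, pd_mul, pd_ofNat]; ring

private theorem pd_three (D : Derivation ℝ A A) (F : PowerSeries A) :
    pd D (3 * F) = 3 * pd D F := by
  have h : (3 : PowerSeries A) = ((3 : ℕ) : PowerSeries A) := by simp
  rw [h, pd_mul, pd_ofNat]; ring

private theorem pd_six (D : Derivation ℝ A A) (F : PowerSeries A) :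
    pd D (6 * F) = 6 * pd D F := by
  have h : (6 : PowerSeries A) = ((6 : ℕ) : PowerSeries A) := by simp
  rw [h, pd_mul, pd_ofNat]; ring

private theorem pd_comm (D T : Derivation ℝ A A) (hDT : ∀ f, D (T f) = T (D f))
    (F : PowerSeries A) : pd D (pd T F) = pd T (pd D F) := by
  ext n
  simp only [coeff_pd, hDT]

theorem gardner (D T : Derivation ℝ A A) (hDT : ∀ f, D (T f) = T (D f)) (v : A)
    (hv : T v = D (D (D v)) + 6 * v * D v)
    (w : ℕ → A) (w_zero : w 0 = v) (w_one : w 1 = - D v)
    (w_succ : ∀ n, w (n + 2) = - D (w (n + 1)) +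
      ∑ a ∈ Finset.HasAntidiagonal.antidiagonal n, w a.1 * w a.2) :
    ∃ flux : ℕ → A, ∀ n, T (w n) = D (flux n) := by
  classical
  set W : PowerSeries A := PowerSeries.mk w with hW
  have hcW : ∀ n, PowerSeries.coeff n W = w n := fun n => by simp [hW]
  set X : PowerSeries A := PowerSeries.X with hX
  set W1 := pd D W with hW1
  set W2 := pd D W1 with hW2
  set W3 := pd D W2 with hW3
  set W4 := pd D W3 with hW4
  set TW := pd T W with hTW
  set TW1 := pd D TW with hTW1
  have hV : PowerSeries.C v = W + X * W1 - X * (X * (W * W)) := by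
    ext n
    rcases n with _ | _ | n
    · have h0 : PowerSeries.constantCoeff W = w 0 := by
        rw [← PowerSeries.coeff_zero_eq_constantCoeff_apply, hcW]
      simp [h0, w_zero, hX]
    · have h0 : PowerSeries.constantCoeff W = w 0 := by
        rw [← PowerSeries.coeff_zero_eq_constantCoeff_apply, hcW]
      have h1 : PowerSeries.constantCoeff W1 = D (w 0) := by
        rw [← PowerSeries.coeff_zero_eq_constantCoeff_apply, hW1, coeff_pd, hcW]
      simp [hcW, w_one, hX, PowerSeries.coeff_succ_X_mul, h1, w_zero]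
    · rw [map_sub, map_add, hX, PowerSeries.coeff_succ_X_mul, PowerSeries.coeff_succ_X_mul,
        PowerSeries.coeff_succ_X_mul, hcW, w_succ, hW1, coeff_pd, hcW, PowerSeries.coeff_mul,
        PowerSeries.coeff_C]
      simp [hcW]
  have hV1 : PowerSeries.C (D v) = W1 + X * W2 - X * (X * (2 * (W * W1))) := by
    rw [← pd_C, hV, pd_sub, pd_add, pd_Xmul, pd_Xmul, pd_Xmul, pd_mul, ← hW1, ← hW2]
    ring
  have hV2 : PowerSeries.C (D (D v)) = W2 + X * W3 - X * (X * (2 * (W1 * W1 + W * W2))) := by
    rw [← pd_C, hV1, pd_sub, pd_add, pd_Xmul, pd_Xmul, pd_Xmul, pd_two, pd_mul, ← hW1, ← hW2,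
      ← hW3]
    ring
  have hV3 : PowerSeries.C (D (D (D v))) =
      W3 + X * W4 - X * (X * (2 * (3 * (W1 * W2) + W * W3))) := by
    rw [← pd_C, hV2, pd_sub, pd_add, pd_Xmul, pd_Xmul, pd_Xmul, pd_two, pd_add, pd_mul, pd_mul,
      ← hW1, ← hW2, ← hW3, ← hW4]
    ring
  have hVT : PowerSeries.C (T v) = TW + X * TW1 - X * (X * (2 * (W * TW))) := by
    rw [← pd_C, hV, pd_sub, pd_add, pd_Xmul, pd_Xmul, pd_Xmul, pd_mul, hW1, ← pd_comm D T hDT,
      ← hTW, ← hTW1]
    ring
  have hG0 : PowerSeries.C (T v) - PowerSeries.C (D (D (D v)))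
      - 6 * PowerSeries.C v * PowerSeries.C (D v) = 0 := by
    rw [hv]
    have h6 : (6 : PowerSeries A) = PowerSeries.C (6 : A) := by
      exact (map_ofNat (PowerSeries.C (R := A)) 6).symm
    rw [h6]
    simp only [map_add, map_mul]
    ring
  set R : PowerSeries A := TW - W3 - 6 * (W * W1) + X * (X * (6 * (W * (W * W1)))) with hR
  have hDR : pd D R = TW1 - W4 - 6 * (W1 * W1 + W * W2) +
      X * (X * (6 * (2 * (W * (W1 * W1)) + W * (W * W2)))) := by
    rw [hR, pd_add, pd_sub, pd_sub, pd_Xmul, pd_Xmul, pd_six, pd_six, pd_mul, pd_mul, pd_mul,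
      ← hTW1, ← hW4, ← hW2, ← hW1]
    ring
  have hGar : R = X * (- pd D R + 2 * (X * (W * R))) := by
    have : R + X * pd D R - X * (X * (2 * (W * R))) = 0 := by
      rw [← hG0, hVT, hV3, hV1, hV, hDR, hR]
      ring
    linear_combination this
  have hdiv : ∀ n : ℕ, ∃ Q : PowerSeries A, R = X ^ n * Q := by
    intro n
    induction n with
    | zero => exact ⟨R, by simp⟩
    | succ n ih =>
      obtain ⟨Q, hQ⟩ := ih
      have hDQ : pd D R = X ^ n * pd D Q := by
        rw [hQ]
        clear hQ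
        induction n with
        | zero => simp
        | succ n ih2 =>
          rw [pow_succ', mul_assoc, pd_Xmul, ih2]
          ring
      refine ⟨- pd D Q + 2 * (X * (W * Q)), ?_⟩
      rw [hGar, hDQ]
      nth_rewrite 1 [hQ]
      ring
  have hR0 : R = 0 := by
    ext n
    obtain ⟨Q, hQ⟩ := hdiv (n + 1)
    rw [hQ, hX, PowerSeries.coeff_X_pow_mul']
    simp
  refine ⟨fun n => PowerSeries.coeff n (W2 + 3 * (W * W) - 2 * (X * (X * (W * (W * W))))), fun n => ?_⟩
  have hfin : TW = pd D (W2 + 3 * (W * W) - 2 * (X * (X * (W * (W * W))))) := by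
    rw [pd_sub, pd_add, pd_three, pd_two, pd_Xmul, pd_Xmul, pd_mul, pd_mul, pd_mul, ← hW3, ← hW1]
    linear_combination hR0
  have := congrArg (PowerSeries.coeff n) hfin
  rw [hTW, coeff_pd, coeff_pd, hcW] at this
  exact this

end Pool.Agent.Lib.MP_3c6722_mp
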