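import Pool.Agent.Lib.MP_3c6722_mp.KdVRing

/-!
# MP_3c6722_mp, module Indep: independence of the KdV densities modulo the image of `D`

`w_n` as in module Gardner. `hE0`: on the elements `w_n`, `e j (w n)` and `e i (e j (w n))` the derivation `e 0` commutes with `D`.
(1) `e i (w n) = 0` for `i > n`; `e n (w n) = (-1)^n`; `e (n-1) (w n) = 0` for `n ≥ 1`.
(2) `e i (e j (w n)) = 0` if `i + j + 2 > n`, and `= 2 (-1)^n (C(n,i+1) - 1)` if `i + j + 2 = n`.
Induction on `n` with `w (n+2) = - D (w (n+1)) + ∑ w a w b`; by `e_D`, `hE0`: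
`e i (e j (D f)) = D (e i (e j f)) + [i ≥ 1] e (i-1) (e j f) + [j ≥ 1] e i (e (j-1) f)`, and for `i + j + 2 = n` (so the
values are constants) `B_n(i,j) = - [i ≥ 1] B_{n-1}(i-1,j) - [j ≥ 1] B_{n-1}(i,j-1) + 2 (-1)^n`, because in
`∑_{a+b=n-2} e i (e j (w a w b))` only the first order terms `e i (w a) * e j (w b)`, `(a,b) = (i,j)` or `(j,i)`, survive by (1).
(3) Let `f = ∑ c_k w_{2k+4}` (`c : ℕ →₀ ℝ`), `c ≠ 0`, `m` the largest index with `c_m ≠ 0`, `n = 2m + 4`, `D σ = f`.
`σ_j := e j σ = f_{j+1} - D σ_{j+1}` (`j ≥ 0`), `σ_j = 0` for `j ≥ n`, `σ_{n-1} = f_n = c_m`,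
`σ_{n-2} = f_{n-1} - D c_m = 0`, `e i σ_j = 0` for `i + j > n - 3`; for `i + j = n - 3` let `z_i = e i σ_{n-3-i}`:
`z_0 = c_m b_0`, `z_i = c_m b_i - z_{i-1}` (`i ≥ 1`), `b_i = 2 (C(n,i+1) - 1)`; so
`z_i = 2 c_m (C(n-1,i+1) + γ_i)`, `γ_i = 0` for even `i` and `-1` for odd `i`.
By `e_comm` `z_0 = z_{n-3}`: `n - 1 = (n - 1) - 1` times `2 c_m`, so `c_m = 0`, contradiction.
-/

namespace Pool.Agent.Lib.MP_3c6722_mp

variable {A : Type*} [CommRing A] [Algebra ℝ A]

private theorem der_alg (d : Derivation ℝ A A) (c : ℝ) : d (algebraMap ℝ A c) = 0 :=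
  d.map_algebraMap c

private theorem der_alg_mul (d : Derivation ℝ A A) (c : ℝ) (x : A) :
    d (algebraMap ℝ A c * x) = algebraMap ℝ A c * d x := by
  rw [Derivation.leibniz, der_alg]
  simp

private theorem der_mul (d : Derivation ℝ A A) (x y : A) : d (x * y) = x * d y + y * d x := by
  rw [Derivation.leibniz, smul_eq_mul, smul_eq_mul]

private theorem eD_gen (K : KdVRing A) (i : ℕ) (g : A)
    (h0 : K.e 0 (K.D g) = K.D (K.e 0 g)) :
    K.e i (K.D g) = K.D (K.e i g) + (if i = 0 then 0 else K.e (i - 1) g) := by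
  rcases i with _ | i
  · simp [h0]
  · rw [K.e_D]; simp

private theorem first (K : KdVRing A)
    (w : ℕ → A) (w_zero : w 0 = K.v) (w_one : w 1 = - K.D K.v)
    (w_succ : ∀ n, w (n + 2) = - K.D (w (n + 1)) +
      ∑ a ∈ Finset.HasAntidiagonal.antidiagonal n, w a.1 * w a.2)
    (hE0 : ∀ n, K.e 0 (K.D (w n)) = K.D (K.e 0 (w n))) (n : ℕ) :
    (∀ i, n < i → K.e i (w n) = 0) ∧ K.e n (w n) = algebraMap ℝ A ((-1) ^ n) ∧
      (∀ i, i + 1 = n → K.e i (w n) = 0) := by
  induction n using Nat.strong_induction_on with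
  | _ n ih =>
  have hev0 : ∀ i, K.e i K.v = if i = 0 then 1 else 0 := fun i => by
    have := K.e_v i 0
    simpa using this
  have hev1 : ∀ i, K.e i (K.D K.v) = if i = 1 then 1 else 0 := fun i => by
    have := K.e_v i 1
    simpa using this
  rcases n with _ | _ | n
  · refine ⟨fun i hi => ?_, ?_, fun i hi => ?_⟩
    · rw [w_zero, hev0, if_neg (by omega)]
    · rw [w_zero, hev0]; simp
    · omega
  · refine ⟨fun i hi => ?_, ?_, fun i hi => ?_⟩
    · rw [w_one, map_neg, hev1, if_neg (by omega), neg_zero]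
    · rw [w_one, map_neg, hev1]; simp
    · rw [w_one, map_neg, hev1, if_neg (by omega), neg_zero]
  · have key : ∀ i, K.e i (w (n + 2)) = - (K.D (K.e i (w (n + 1))) +
        (if i = 0 then 0 else K.e (i - 1) (w (n + 1)))) +
        ∑ a ∈ Finset.HasAntidiagonal.antidiagonal n,
          (w a.1 * K.e i (w a.2) + w a.2 * K.e i (w a.1)) := by
      intro i
      rw [w_succ, map_add, map_neg, eD_gen K i _ (hE0 _), map_sum]
      congr 1
      exact Finset.sum_congr rfl fun a _ => der_mul _ _ _
    obtain ⟨h1, h2, h3⟩ := ih (n + 1) (by omega)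
    have hsum : ∀ i, n < i → ∑ a ∈ Finset.HasAntidiagonal.antidiagonal n,
          (w a.1 * K.e i (w a.2) + w a.2 * K.e i (w a.1)) = 0 := by
      intro i hi
      refine Finset.sum_eq_zero fun a ha => ?_
      have hab : a.1 + a.2 = n := by simpa using ha
      rw [(ih a.1 (by omega)).1 i (by omega), (ih a.2 (by omega)).1 i (by omega)]
      simp
    refine ⟨fun i hi => ?_, ?_, fun i hi => ?_⟩
    · rw [key, hsum i (by omega), h1 i (by omega), if_neg (by omega), h1 (i - 1) (by omega)]
      simp
    · rw [key, hsum _ (by omega), h1 (n + 2) (by omega), if_neg (by omega),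
        show n + 1 + 1 - 1 = n + 1 by omega, h2]
      rw [map_zero, zero_add, add_zero, ← map_neg]
      congr 1
      ring
    · have hi' : i = n + 1 := by omega
      subst hi'
      rw [key, hsum _ (by omega), h2, der_alg, if_neg (by omega),
        h3 (n + 1 - 1) (by omega)]
      simp

private theorem crossSum (K : KdVRing A) (w : ℕ → A)
    (h1 : ∀ n i, n < i → K.e i (w n) = 0)
    (h2 : ∀ n, K.e n (w n) = algebraMap ℝ A ((-1) ^ n))
    (n i j : ℕ) (hij : n ≤ i + j) :
    ∑ a ∈ Finset.HasAntidiagonal.antidiagonal n, K.e i (w a.1) * K.e j (w a.2) =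
      if i + j = n then algebraMap ℝ A ((-1) ^ n) else 0 := by
  split_ifs with h
  · rw [Finset.sum_eq_single (i, j)]
    · simp only
      rw [h2, h2, ← map_mul, ← pow_add, h]
    · intro b hb hne
      have hab : b.1 + b.2 = n := by simpa using hb
      by_cases hi : b.1 < i
      · rw [h1 _ _ hi, zero_mul]
      · by_cases hj : b.2 < j
        · rw [h1 _ _ hj, mul_zero]
        · exact absurd (Prod.ext (by simp; omega) (by simp; omega)) hne
    · intro hn
      exact absurd (by simpa using h) hn
  · refine Finset.sum_eq_zero fun b hb => ?_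
    have hab : b.1 + b.2 = n := by simpa using hb
    by_cases hi : b.1 < i
    · rw [h1 _ _ hi, zero_mul]
    · have hj : b.2 < j := by omega
      rw [h1 _ _ hj, mul_zero]

private theorem second (K : KdVRing A)
    (w : ℕ → A) (w_zero : w 0 = K.v) (w_one : w 1 = - K.D K.v)
    (w_succ : ∀ n, w (n + 2) = - K.D (w (n + 1)) +
      ∑ a ∈ Finset.HasAntidiagonal.antidiagonal n, w a.1 * w a.2)
    (hE0 : ∀ n, K.e 0 (K.D (w n)) = K.D (K.e 0 (w n)) ∧
      ∀ j, K.e 0 (K.D (K.e j (w n))) = K.D (K.e 0 (K.e j (w n)))) (n : ℕ) :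
    ∀ i j, (n < i + j + 2 → K.e i (K.e j (w n)) = 0) ∧
      (i + j + 2 = n → K.e i (K.e j (w n)) =
        algebraMap ℝ A (2 * (-1) ^ n * ((n.choose (i + 1) : ℕ) - 1))) := by
  have hfirst := first K w w_zero w_one w_succ (fun n => (hE0 n).1)
  have h1 : ∀ n i, n < i → K.e i (w n) = 0 := fun n => (hfirst n).1
  have h2 : ∀ n, K.e n (w n) = algebraMap ℝ A ((-1) ^ n) := fun n => (hfirst n).2.1
  have h3 : ∀ n i, i + 1 = n → K.e i (w n) = 0 := fun n => (hfirst n).2.2
  induction n using Nat.strong_induction_on with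
  | _ n ih =>
  rcases n with _ | _ | n
  · intro i j
    refine ⟨fun _ => ?_, fun h => by omega⟩
    rcases j with _ | j
    · rw [h2, der_alg]
    · rw [h1 _ _ (by omega), map_zero]
  · intro i j
    refine ⟨fun _ => ?_, fun h => by omega⟩
    rcases j with _ | _ | j
    · rw [h3 _ _ (by omega), map_zero]
    · rw [h2, der_alg]
    · rw [h1 _ _ (by omega), map_zero]
  · have key : ∀ i j, n ≤ i + j → K.e i (K.e j (w (n + 2))) =
        - ((if i = 0 then 0 else K.e (i - 1) (K.e j (w (n + 1)))) +
          (if j = 0 then 0 else K.e i (K.e (j - 1) (w (n + 1))))) +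
        (if i + j = n then algebraMap ℝ A (2 * (-1) ^ n) else 0) := by
      intro i j hij
      have hj : K.e j (w (n + 2)) = - (K.D (K.e j (w (n + 1))) +
          (if j = 0 then 0 else K.e (j - 1) (w (n + 1)))) +
          ∑ a ∈ Finset.HasAntidiagonal.antidiagonal n,
            (w a.1 * K.e j (w a.2) + w a.2 * K.e j (w a.1)) := by
        rw [w_succ, map_add, map_neg, eD_gen K j _ (hE0 _).1, map_sum]
        congr 1
        exact Finset.sum_congr rfl fun a _ => der_mul _ _ _
      have hzero : K.D (K.e i (K.e j (w (n + 1)))) = 0 := by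
        rw [((ih (n + 1) (by omega)) i j).1 (by omega), map_zero]
      have hS : K.e i (∑ a ∈ Finset.HasAntidiagonal.antidiagonal n,
            (w a.1 * K.e j (w a.2) + w a.2 * K.e j (w a.1))) =
          if i + j = n then algebraMap ℝ A (2 * (-1) ^ n) else 0 := by
        have e1 : K.e i (∑ a ∈ Finset.HasAntidiagonal.antidiagonal n,
            (w a.1 * K.e j (w a.2) + w a.2 * K.e j (w a.1))) =
            ∑ a ∈ Finset.HasAntidiagonal.antidiagonal n, K.e i (w a.1) * K.e j (w a.2) +
            ∑ a ∈ Finset.HasAntidiagonal.antidiagonal n, K.e j (w a.1) * K.e i (w a.2) := by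
          rw [map_sum, ← Finset.sum_add_distrib]
          refine Finset.sum_congr rfl fun a ha => ?_
          have hab : a.1 + a.2 = n := by simpa using ha
          rw [map_add, der_mul, der_mul, ((ih a.1 (by omega)) i j).1 (by omega),
            ((ih a.2 (by omega)) i j).1 (by omega)]
          ring
        rw [e1, crossSum K w h1 h2 n i j hij, crossSum K w h1 h2 n j i (by omega)]
        by_cases h : i + j = n
        · rw [if_pos h, if_pos (by omega), if_pos h, ← map_add]
          congr 1
          ring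
        · rw [if_neg h, if_neg (by omega), if_neg h, add_zero]
      rw [hj, map_add, map_neg, map_add, eD_gen K i _ ((hE0 _).2 j), hzero, hS, zero_add]
      congr 2
      split_ifs <;> simp
    intro i j
    constructor
    · intro hlt
      rw [key i j (by omega), if_neg (show ¬ i + j = n by omega)]
      have c1 : (if i = 0 then 0 else K.e (i - 1) (K.e j (w (n + 1)))) = 0 := by
        split_ifs with hi
        · rfl
        · exact ((ih (n + 1) (by omega)) (i - 1) j).1 (by omega)
      have c2 : (if j = 0 then 0 else K.e i (K.e (j - 1) (w (n + 1)))) = 0 := by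
        split_ifs with hj
        · rfl
        · exact ((ih (n + 1) (by omega)) i (j - 1)).1 (by omega)
      rw [c1, c2]; simp
    · intro heq
      have hijn : i + j = n := by omega
      rw [key i j (by omega), if_pos hijn]
      have c1 : (if i = 0 then 0 else K.e (i - 1) (K.e j (w (n + 1)))) =
          algebraMap ℝ A (2 * (-1) ^ (n + 1) * (((n + 1).choose i : ℕ) - 1)) := by
        rcases i with _ | i
        · simp
        · rw [if_neg (by omega), show i + 1 - 1 = i by omega]
          exact ((ih (n + 1) (by omega)) i j).2 (by omega)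
      have c2 : (if j = 0 then 0 else K.e i (K.e (j - 1) (w (n + 1)))) =
          algebraMap ℝ A (2 * (-1) ^ (n + 1) * (((n + 1).choose (i + 1) : ℕ) - 1)) := by
        rcases j with _ | j
        · have : i = n := by omega
          subst this
          simp
        · rw [if_neg (by omega), show j + 1 - 1 = j by omega]
          exact ((ih (n + 1) (by omega)) i j).2 (by omega)
      rw [c1, c2, ← map_add, ← map_neg, ← map_add]
      congr 1
      have hp : ((n + 1 + 1).choose (i + 1) : ℝ) = ((n + 1).choose i : ℝ) +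
          ((n + 1).choose (i + 1) : ℝ) := by
        rw [Nat.choose_succ_succ (n + 1) i]; push_cast; ring
      rw [hp]
      ring

theorem KdVRing.indep [Nontrivial A] (K : KdVRing A)
    (w : ℕ → A) (w_zero : w 0 = K.v) (w_one : w 1 = - K.D K.v)
    (w_succ : ∀ n, w (n + 2) = - K.D (w (n + 1)) +
      ∑ a ∈ Finset.HasAntidiagonal.antidiagonal n, w a.1 * w a.2)
    (hE0 : ∀ n, K.e 0 (K.D (w n)) = K.D (K.e 0 (w n)) ∧
      ∀ j, K.e 0 (K.D (K.e j (w n))) = K.D (K.e 0 (K.e j (w n))))
    (c : ℕ →₀ ℝ) (σ : A) (hσ : K.D σ = c.sum fun k a => algebraMap ℝ A a * w (2 * k + 4)) :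
    c = 0 := by
  classical
  by_contra hc
  have hfirst := first K w w_zero w_one w_succ (fun n => (hE0 n).1)
  have h1 : ∀ n i, n < i → K.e i (w n) = 0 := fun n => (hfirst n).1
  have h2 : ∀ n, K.e n (w n) = algebraMap ℝ A ((-1) ^ n) := fun n => (hfirst n).2.1
  have h3 : ∀ n i, i + 1 = n → K.e i (w n) = 0 := fun n => (hfirst n).2.2
  have hsec := second K w w_zero w_one w_succ hE0
  obtain ⟨m, hm, hmax⟩ := c.support.exists_max_image id (Finsupp.support_nonempty_iff.2 hc)
  have hcm : c m ≠ 0 := Finsupp.mem_support_iff.1 hm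
  set f : A := c.sum fun k a => algebraMap ℝ A a * w (2 * k + 4) with hf
  have hfs : f = ∑ k ∈ c.support, algebraMap ℝ A (c k) * w (2 * k + 4) := rfl
  have ef : ∀ j, K.e j f = ∑ k ∈ c.support, algebraMap ℝ A (c k) * K.e j (w (2 * k + 4)) := by
    intro j
    rw [hfs, map_sum]
    exact Finset.sum_congr rfl fun k _ => der_alg_mul _ _ _
  have eef : ∀ i j, K.e i (K.e j f) =
      ∑ k ∈ c.support, algebraMap ℝ A (c k) * K.e i (K.e j (w (2 * k + 4))) := by
    intro i j
    rw [ef, map_sum]
    exact Finset.sum_congr rfl fun k _ => der_alg_mul _ _ _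
  have hle : ∀ k ∈ c.support, k ≤ m := fun k hk => hmax k hk
  have F1 : ∀ j, 2 * m + 4 < j → K.e j f = 0 := by
    intro j hj
    rw [ef]
    refine Finset.sum_eq_zero fun k hk => ?_
    have := hle k hk
    rw [h1 _ _ (by omega), mul_zero]
  have F2 : K.e (2 * m + 4) f = algebraMap ℝ A (c m) := by
    rw [ef, Finset.sum_eq_single m]
    · rw [h2]
      have : ((-1 : ℝ)) ^ (2 * m + 4) = 1 := by
        rw [show 2 * m + 4 = 2 * (m + 2) by ring, pow_mul]; simp
      rw [this, map_one, mul_one]
    · intro k hk hne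
      have := hle k hk
      rw [h1 _ _ (by omega), mul_zero]
    · intro h; exact absurd hm h
  have F3 : K.e (2 * m + 3) f = 0 := by
    rw [ef]
    refine Finset.sum_eq_zero fun k hk => ?_
    have := hle k hk
    by_cases hk' : k = m
    · subst hk'
      rw [h3 _ _ (by omega), mul_zero]
    · rw [h1 _ _ (by omega), mul_zero]
  have F4 : ∀ i j, 2 * m + 4 < i + j + 2 → K.e i (K.e j f) = 0 := by
    intro i j hij
    rw [eef]
    refine Finset.sum_eq_zero fun k hk => ?_
    have := hle k hk
    rw [((hsec _) i j).1 (by omega), mul_zero]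
  have F5 : ∀ i j, i + j + 2 = 2 * m + 4 → K.e i (K.e j f) =
      algebraMap ℝ A (2 * c m * (((2 * m + 4).choose (i + 1) : ℕ) - 1)) := by
    intro i j hij
    rw [eef, Finset.sum_eq_single m]
    · rw [((hsec _) i j).2 hij, ← map_mul]
      have : ((-1 : ℝ)) ^ (2 * m + 4) = 1 := by
        rw [show 2 * m + 4 = 2 * (m + 2) by ring, pow_mul]; simp
      rw [this]
      congr 1
      ring
    · intro k hk hne
      have := hle k hk
      rw [((hsec _) i j).1 (by omega), mul_zero]
    · intro h; exact absurd hm h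
  have S0 : ∀ j, K.e j σ = K.e (j + 1) f - K.D (K.e (j + 1) σ) := by
    intro j
    have := K.e_D j σ
    rw [hσ] at this
    rw [this]; ring
  obtain ⟨N, hN⟩ := K.e_fin σ
  have S1' : ∀ d j, 2 * m + 4 ≤ j → N ≤ j + d → K.e j σ = 0 := by
    intro d
    induction d with
    | zero => intro j _ hj; exact hN j (by omega)
    | succ d ih =>
      intro j hj hj'
      rw [S0, ih (j + 1) (by omega) (by omega), F1 _ (by omega)]
      simp
  have S1 : ∀ j, 2 * m + 4 ≤ j → K.e j σ = 0 := fun j hj => S1' N j hj (by omega)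
  have S2 : K.e (2 * m + 3) σ = algebraMap ℝ A (c m) := by
    rw [S0, F2, S1 _ (by omega)]; simp
  have S3 : K.e (2 * m + 2) σ = 0 := by
    rw [S0, F3, S2, der_alg]; simp
  have V : ∀ d i j, 2 * m + 4 ≤ j + d → 2 * m + 4 < i + j + 3 → K.e i (K.e j σ) = 0 := by
    intro d
    induction d with
    | zero => intro i j hj _; rw [S1 j (by omega), map_zero]
    | succ d ih =>
      intro i j hj hij
      rcases Nat.lt_or_ge j (2 * m + 2) with hlt | hge
      · obtain ⟨i', rfl⟩ : ∃ i', i = i' + 1 := ⟨i - 1, by omega⟩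
        rw [S0 j, map_sub, F4 _ _ (by omega), K.e_D, ih (i' + 1) (j + 1) (by omega) (by omega),
          ih i' (j + 1) (by omega) (by omega)]
        simp
      · have hcases : j = 2 * m + 2 ∨ j = 2 * m + 3 ∨ 2 * m + 4 ≤ j := by omega
        rcases hcases with h | h | h
        · rw [h, S3, map_zero]
        · rw [h, S2, der_alg]
        · rw [S1 j h, map_zero]
  have Z : ∀ i j, i + j + 3 = 2 * m + 4 → K.e i (K.e j σ) =
      algebraMap ℝ A (2 * c m * (((2 * m + 3).choose (i + 1) : ℕ) +
        (if Even i then 0 else -1))) := by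
    intro i
    induction i with
    | zero =>
      intro j hj
      have hj' : j + 1 = 2 * m + 2 := by omega
      rw [S0 j, map_sub, F5 0 (j + 1) (by omega), hj', S3]
      simp only [map_zero, sub_zero]
      congr 1
      simp only [zero_add, Nat.choose_one_right, Even.zero, if_true]
      push_cast
      ring
    | succ i ih =>
      intro j hj
      rw [S0 j, map_sub, F5 (i + 1) (j + 1) (by omega), K.e_D, V (2 * m + 4) (i + 1) (j + 1)
        (by omega) (by omega), ih (j + 1) (by omega), map_zero, zero_add, ← map_sub]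
      congr 1
      have hp : ((2 * m + 4).choose (i + 1 + 1) : ℝ) = ((2 * m + 3).choose (i + 1) : ℝ) +
          ((2 * m + 3).choose (i + 1 + 1) : ℝ) := by
        rw [show 2 * m + 4 = (2 * m + 3) + 1 by ring, Nat.choose_succ_succ]; push_cast; ring
      rw [hp]
      by_cases he : Even i
      · have : ¬ Even (i + 1) := by
          rw [Nat.even_add_one]; simpa using he
        rw [if_pos he, if_neg this]; ring
      · have : Even (i + 1) := by
          rw [Nat.even_add_one]; exact he
        rw [if_neg he, if_pos this]; ring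
  have z0 := Z 0 (2 * m + 1) (by omega)
  have z1 := Z (2 * m + 1) 0 (by omega)
  rw [K.e_comm, z1] at z0
  have hinj : Function.Injective (algebraMap ℝ A) := (algebraMap ℝ A).injective
  have hreal := hinj z0
  have hodd : ¬ Even (2 * m + 1) := by
    rw [Nat.even_add_one]; simp
  rw [if_neg hodd, if_pos (by simp : Even 0)] at hreal
  have hch : ((2 * m + 3).choose (2 * m + 1 + 1) : ℝ) = 2 * m + 3 := by
    rw [show 2 * m + 3 = (2 * m + 2) + 1 by ring, show 2 * m + 1 + 1 = 2 * m + 2 by ring,
      Nat.choose_succ_self_right]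
    push_cast; ring
  have hch0 : ((2 * m + 3).choose (0 + 1) : ℝ) = 2 * m + 3 := by
    simp
  rw [hch, hch0] at hreal
  apply hcm
  linarith

end Pool.Agent.Lib.MP_3c6722_mp
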