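import Pool.Agent.Lib.MP_3c6722_mp.Inst
import Pool.Agent.Lib.MP_3c6722_mp.Gardner
import Pool.Agent.Lib.MP_3c6722_mp.Indep

/-!
# MP_3c6722_mp: the conservation laws in a ring with jet coordinates
-/

namespace Pool.Agent.Lib.MP_3c6722_mp

/-- The Gardner recursion `w_0 = v`, `w_1 = - D v`, `w_{n+2} = - D w_{n+1} + ∑_{a+b=n} w_a w_b`. -/
noncomputable def gw {R : Type*} [CommRing R] (D : R → R) (v : R) : ℕ → R
  | 0 => v
  | 1 => - D v
  | n + 2 => - D (gw D v (n + 1)) +
      ∑ a ∈ (Finset.HasAntidiagonal.antidiagonal n).attach, gw D v a.1.1 * gw D v a.1.2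
termination_by n => n
decreasing_by
  · omega
  · have := Finset.HasAntidiagonal.mem_antidiagonal.mp a.2; omega
  · have := Finset.HasAntidiagonal.mem_antidiagonal.mp a.2; omega

theorem gw_zero {R : Type*} [CommRing R] (D : R → R) (v : R) : gw D v 0 = v := by rw [gw]

theorem gw_one {R : Type*} [CommRing R] (D : R → R) (v : R) : gw D v 1 = - D v := by rw [gw]

theorem gw_succ {R : Type*} [CommRing R] (D : R → R) (v : R) (n : ℕ) :
    gw D v (n + 2) = - D (gw D v (n + 1)) +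
      ∑ a ∈ Finset.HasAntidiagonal.antidiagonal n, gw D v a.1 * gw D v a.2 := by
  rw [gw]
  congr 1
  exact Finset.sum_attach _ (fun a : ℕ × ℕ => gw D v a.1 * gw D v a.2)

namespace Coord

variable {A : Type*} [CommRing A] [Algebra ℝ A] {J : JetRing A} (K : Coord J)

/-- the KdV densities -/
noncomputable def wn (n : ℕ) : A := gw (⇑K.CD) K.v n

/-- the densities of the conservation laws -/
noncomputable def rho (n : ℕ) : A := K.wn (2 * n + 4) * K.lam

theorem wn_zero : K.wn 0 = K.v := gw_zero _ _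

theorem wn_one : K.wn 1 = - K.CD K.v := gw_one _ _

theorem wn_succ (n : ℕ) : K.wn (n + 2) = - K.CD (K.wn (n + 1)) +
    ∑ a ∈ Finset.HasAntidiagonal.antidiagonal n, K.wn a.1 * K.wn a.2 := gw_succ _ _ n

theorem exists_flux : ∃ flux : ℕ → A, ∀ n, K.Dt (K.wn n * K.lam) = J.D (flux n) := by
  obtain ⟨flux, hflux⟩ := gardner K.CD K.Tm K.CD_Tm K.v K.Tm_v' K.wn K.wn_zero K.wn_one K.wn_succ
  refine ⟨fun n => flux n + K.wn n * K.Dt K.x, fun n => ?_⟩
  have h1 := hflux n
  have h2 : K.Tm (K.wn n) = K.Dt (K.wn n) - K.Dt K.x * K.CD (K.wn n) := K.atX_apply _ _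
  have h3 : K.Dt K.lam = J.D (K.Dt K.x) := by rw [← K.D_x, K.D_Dt]
  rw [Derivation.leibniz, smul_eq_mul, smul_eq_mul, map_add, Derivation.leibniz, smul_eq_mul,
    smul_eq_mul, h3, K.D_eq (flux n), K.D_eq (K.wn n)]
  linear_combination K.lam * h1 - K.lam * h2

theorem flux_rho : ∃ flux : ℕ → A, ∀ n, K.Dt (K.rho n) = J.D (flux n) := by
  obtain ⟨flux, h⟩ := K.exists_flux
  exact ⟨fun n => flux (2 * n + 4), fun n => h _⟩

/-- the algebra generated by the `v_j` -/
noncomputable def S : Subalgebra ℝ A := Algebra.adjoin ℝ (Set.range fun j => K.CD^[j] K.v)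

theorem v_mem_S (j : ℕ) : K.CD^[j] K.v ∈ K.S := Algebra.subset_adjoin ⟨j, rfl⟩

theorem der_mem_S (d : Derivation ℝ A A) (hd : ∀ j, d (K.CD^[j] K.v) ∈ K.S) :
    ∀ f ∈ K.S, d f ∈ K.S := by
  intro f hf
  unfold S at hf
  induction hf using Algebra.adjoin_induction with
  | mem y hy =>
    obtain ⟨j, rfl⟩ := hy
    exact hd j
  | algebraMap c => rw [Derivation.map_algebraMap]; exact K.S.zero_mem
  | add a b _ _ ha hb => rw [map_add]; exact K.S.add_mem ha hb
  | mul a b ha' hb' ha hb =>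
    rw [Derivation.leibniz, smul_eq_mul, smul_eq_mul]
    exact K.S.add_mem (K.S.mul_mem ha' hb) (K.S.mul_mem hb' ha)

theorem CD_mem_S : ∀ f ∈ K.S, K.CD f ∈ K.S := by
  apply K.der_mem_S
  intro j
  rw [← Function.iterate_succ_apply' (⇑K.CD)]
  exact K.v_mem_S (j + 1)

theorem E_mem_S (k : ℕ) : ∀ f ∈ K.S, K.E (k + 1) f ∈ K.S := by
  apply K.der_mem_S
  intro j
  rw [K.E_v]
  split_ifs
  · exact K.S.one_mem
  · exact K.S.zero_mem

theorem E_zero_S : ∀ f ∈ K.S, K.E 0 f = 0 := by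
  intro f hf
  unfold S at hf
  induction hf using Algebra.adjoin_induction with
  | mem y hy =>
    obtain ⟨j, rfl⟩ := hy
    exact K.E_zero_v j
  | algebraMap c => rw [Derivation.map_algebraMap]
  | add a b _ _ ha hb => rw [map_add, ha, hb, add_zero]
  | mul a b ha' hb' ha hb =>
    rw [Derivation.leibniz, ha, hb, smul_zero, smul_zero, add_zero]

theorem wn_mem_S (n : ℕ) : K.wn n ∈ K.S := by
  induction n using Nat.strong_induction_on with
  | _ n ih =>
    rcases n with _ | _ | n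
    · rw [K.wn_zero]; exact K.v_mem_S 0
    · rw [K.wn_one]; exact K.S.neg_mem (K.v_mem_S 1)
    · rw [K.wn_succ]
      apply K.S.add_mem (K.S.neg_mem (K.CD_mem_S _ (ih _ (by omega))))
      apply K.S.sum_mem
      intro a ha
      have := Finset.HasAntidiagonal.mem_antidiagonal.mp ha
      exact K.S.mul_mem (ih _ (by omega)) (ih _ (by omega))

/-- The densities are independent modulo the image of `D`. -/
theorem rho_indep [Nontrivial A]
    (hconst : ∀ f : A, (∀ i, J.pd i f = 0) → ∃ c : ℝ, f = algebraMap ℝ A c)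
    (c : ℕ →₀ ℝ) (σ : A)
    (hσ : J.D σ = c.sum fun n a => algebraMap ℝ A a * K.rho n) : c = 0 := by
  have h1 : K.CD σ = c.sum fun n a => algebraMap ℝ A a * K.wn (2 * n + 4) := by
    rw [K.CD_apply, hσ, Finsupp.mul_sum]
    apply Finsupp.sum_congr
    intro n _
    unfold rho
    have h2 := K.lam_mu
    linear_combination (algebraMap ℝ A (c n) * K.wn (2 * n + 4)) * h2
  refine (K.kdv hconst).indep K.wn K.wn_zero K.wn_one K.wn_succ ?_ c σ h1
  intro n
  have key : ∀ f ∈ K.S, K.E 1 (K.CD f) = K.CD (K.E 1 f) := by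
    intro f hf
    rw [K.E_CD 0, K.E_zero_S f hf, add_zero]
  exact ⟨key _ (K.wn_mem_S n), fun j => key _ (K.E_mem_S j _ (K.wn_mem_S n))⟩

end Coord

end Pool.Agent.Lib.MP_3c6722_mp
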