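import Pool.Agent.Lib.MP_3c6722_mp.Ring

/-!
# MP_3c6722_mp: the KdV coordinates in a ring with jet coordinates

`z 0 = c`, `z (k+1) = u_k`; `x` with `u_2 = -3/x³`, `xi = 1/x`, `m = 1/u_3`.
-/

namespace Pool.Agent.Lib.MP_3c6722_mp

variable {A : Type*} [CommRing A] [Algebra ℝ A]

/-- `x` with `u_2 = - 3 / x ^ 3`, and `m = 1 / u_3`. -/
structure Coord (J : JetRing A) where
  x : A
  xi : A
  m : A
  hx : x * xi = 1
  h3 : J.z 3 = -3 * xi ^ 3
  h4 : J.z 4 * m = 1

namespace Coord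

variable {J : JetRing A} (K : Coord J)

/-- one third -/
noncomputable def t (_ : Coord J) : A := algebraMap ℝ A (1 / 3)

/-- one half -/
noncomputable def h (_ : Coord J) : A := algebraMap ℝ A (1 / 2)

theorem ht : 3 * K.t = 1 := by
  unfold t
  rw [← map_ofNat (algebraMap ℝ A) 3, ← map_mul]
  norm_num

theorem hh : 2 * K.h = 1 := by
  unfold h
  rw [← map_ofNat (algebraMap ℝ A) 2, ← map_mul]
  norm_num

theorem D_t (d : Derivation ℝ A A) : d K.t = 0 := by
  unfold t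
  exact Derivation.map_algebraMap d _

theorem D_h (d : Derivation ℝ A A) : d K.h = 0 := by
  unfold h
  exact Derivation.map_algebraMap d _

/-- `lam = D x`. -/
noncomputable def lam : A := K.t * K.t * K.x ^ 4 * J.z 4

/-- the inverse of `lam` -/
noncomputable def mu : A := 9 * K.m * K.xi ^ 4

theorem lam_mu : K.lam * K.mu = 1 := by
  unfold lam mu
  have h1 : K.x ^ 4 * K.xi ^ 4 = 1 := by rw [← mul_pow, K.hx, one_pow]
  have h2 : 9 * (K.t * K.t) = 1 := by
    have := K.ht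
    linear_combination (3 * K.t + 1) * this
  calc K.t * K.t * K.x ^ 4 * J.z 4 * (9 * K.m * K.xi ^ 4)
      = (9 * (K.t * K.t)) * (K.x ^ 4 * K.xi ^ 4) * (J.z 4 * K.m) := by ring
    _ = 1 := by rw [h1, h2, K.h4]; ring

/-- For a derivation `d`: `d xi = - (1/9) x² d(u_2)`. -/
theorem d_xi (d : Derivation ℝ A A) : d K.xi = - (K.t * K.t * K.x ^ 2 * d (J.z 3)) := by
  have h1 : d (J.z 3) = -9 * K.xi ^ 2 * d K.xi := by
    rw [K.h3, Derivation.leibniz, Derivation.leibniz_pow]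
    simp only [smul_eq_mul, nsmul_eq_mul]
    rw [show d (-3 : A) = 0 by
      rw [map_neg, ← map_ofNat (algebraMap ℝ A) 3, Derivation.map_algebraMap, neg_zero]]
    push_cast
    ring
  have h2 : 9 * (K.t * K.t) = 1 := by
    have := K.ht
    linear_combination (3 * K.t + 1) * this
  have h3 : K.x ^ 2 * K.xi ^ 2 = 1 := by rw [← mul_pow, K.hx, one_pow]
  rw [h1]
  calc d K.xi = (9 * (K.t * K.t)) * (K.x ^ 2 * K.xi ^ 2) * d K.xi := by rw [h2, h3]; ring
    _ = _ := by ring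

/-- For a derivation `d`: `d x = (1/9) x⁴ d(u_2)`. -/
theorem d_x (d : Derivation ℝ A A) : d K.x = K.t * K.t * K.x ^ 4 * d (J.z 3) := by
  have h1 : d (K.x * K.xi) = 0 := by rw [K.hx]; exact Derivation.map_one_eq_zero d
  rw [Derivation.leibniz, smul_eq_mul, smul_eq_mul, K.d_xi] at h1
  have h2 := K.hx
  linear_combination K.x * h1 + (- d K.x) * h2

theorem D_x : J.D K.x = K.lam := by
  rw [K.d_x, J.D_z_succ 2]
  rfl

theorem D_xi : J.D K.xi = - K.xi ^ 2 * K.lam := by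
  rw [K.d_xi, J.D_z_succ 2]
  unfold lam
  have h2 : K.x * K.xi = 1 := K.hx
  linear_combination (- K.t * K.t * K.x ^ 2 * J.z 4) * (-(K.x * K.xi) - 1) * h2

/-- the derivation `D_x = (1/lam) D` -/
noncomputable def CD : Derivation ℝ A A := K.mu • J.D

theorem CD_apply (f : A) : K.CD f = K.mu * J.D f := by
  unfold CD
  rw [Derivation.smul_apply, smul_eq_mul]

theorem D_eq (f : A) : J.D f = K.lam * K.CD f := by
  rw [K.CD_apply]
  have := K.lam_mu
  linear_combination (- J.D f) * this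

theorem isVF_CD : J.IsVF K.CD := J.isVF_D.smul J K.mu

theorem CD_x : K.CD K.x = 1 := by
  rw [K.CD_apply, K.D_x]
  have := K.lam_mu
  linear_combination this

theorem CD_xi : K.CD K.xi = - K.xi ^ 2 := by
  rw [K.CD_apply, K.D_xi]
  have := K.lam_mu
  linear_combination (- K.xi ^ 2) * this

/-- `v = x u_1` -/
noncomputable def v : A := K.x * J.z 2

theorem z2 : J.z 2 = K.v * K.xi := by
  unfold v
  have := K.hx
  linear_combination (- J.z 2) * this

/-- `v_1` -/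
noncomputable def v1 : A := K.CD K.v

/-- `w = v - x v_1` -/
noncomputable def w : A := K.v - K.x * K.v1

theorem v1_eq : K.v1 = J.z 2 - 3 * K.mu * K.xi ^ 2 := by
  unfold v1 v
  rw [K.CD_apply, Derivation.leibniz, smul_eq_mul, smul_eq_mul, J.D_z_succ 1, K.D_x, K.h3]
  have h1 := K.lam_mu
  have h2 := K.hx
  linear_combination (J.z 2) * h1 + (-3 * K.mu * K.xi ^ 2) * h2

theorem w_eq : K.w = 3 * K.mu * K.xi := by
  unfold w
  rw [K.v1_eq]
  unfold v
  have h2 := K.hx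
  linear_combination (3 * K.mu * K.xi) * h2

/-- the inverse of `w` -/
noncomputable def wi : A := K.t * K.x * K.lam

theorem w_wi : K.w * K.wi = 1 := by
  rw [K.w_eq]
  unfold wi
  have h1 := K.lam_mu
  have h2 := K.hx
  have h3 := K.ht
  linear_combination (3 * K.t * K.x * K.xi) * h1 + (3 * K.t) * h2 + h3

theorem lam_eq : K.lam = 3 * K.xi * K.wi := by
  unfold wi
  have h2 := K.hx
  have h3 := K.ht
  linear_combination (- K.lam) * h3 * 1 + (-3 * K.t * K.lam) * h2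

theorem mu_eq : K.mu = K.t * K.x * K.w := by
  rw [K.w_eq]
  have h2 := K.hx
  have h3 := K.ht
  linear_combination (- K.mu) * h3 + (-3 * K.t * K.mu) * h2

theorem CD_z0 : K.CD (J.z 0) = K.t * K.x * K.w := by
  rw [K.CD_apply, J.D_z_zero, mul_one, K.mu_eq]

theorem CD_z1 : K.CD (J.z 1) = K.t * K.v * K.w := by
  rw [K.CD_apply, J.D_z_succ 0, K.mu_eq, K.z2]
  have h2 := K.hx
  linear_combination (K.t * K.w * K.v) * h2

theorem CD_w : K.CD K.w = - K.x * K.CD K.v1 := by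
  unfold w
  rw [map_sub, Derivation.leibniz, smul_eq_mul, smul_eq_mul, K.CD_x]
  show K.v1 - (K.x * K.CD K.v1 + K.v1 * 1) = _
  ring

/-- The right-hand side of the equation. -/
noncomputable def F : A :=
  6 * J.z 1 * J.z 2 + K.h * J.z 2 ^ 2 - 9 * K.h * J.z 3 ^ 4 * K.m ^ 2

theorem F_eq : K.F = 6 * J.z 1 * K.v * K.xi + K.v * K.xi * K.v1 - K.h * K.v1 ^ 2 := by
  unfold F
  rw [K.h3]
  have hs : K.v1 = J.z 2 - 27 * K.m * K.xi ^ 6 := by
    rw [K.v1_eq]
    unfold mu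
    ring
  have h1 := K.z2
  have h2 := K.hh
  rw [← sub_eq_zero]
  have : 6 * J.z 1 * J.z 2 + K.h * J.z 2 ^ 2 - 9 * K.h * (-3 * K.xi ^ 3) ^ 4 * K.m ^ 2 -
      (6 * J.z 1 * K.v * K.xi + K.v * K.xi * K.v1 - K.h * K.v1 ^ 2) =
      6 * J.z 1 * (J.z 2 - K.v * K.xi) + (J.z 2 - K.v * K.xi) * K.v1 +
      (K.h * J.z 2 ^ 2 - 9 * K.h * (-3 * K.xi ^ 3) ^ 4 * K.m ^ 2 - J.z 2 * K.v1 + K.h * K.v1 ^ 2) := by
    ring
  rw [this, h1, sub_self, mul_zero, zero_mul, zero_add, zero_add, ← h1, hs]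
  linear_combination (J.z 2 ^ 2 - 27 * J.z 2 * K.m * K.xi ^ 6) * h2

end Coord

end Pool.Agent.Lib.MP_3c6722_mp
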