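import Pool.Agent.Lib.MP_3c6722_mp.Ring

/-!
# MP_3c6722_mp, module Local: the ring of local functions on an open set of jets
-/

open scoped ContDiff

namespace Pool.Agent.Lib.MP_3c6722_mp

/-- The restriction of a jet to its first `N` coordinates. -/
def res (N : ℕ) (z : Jet) : Fin N → ℝ := fun i => z i

/-- The projection of the first `M` coordinates to the first `N`, for `N ≤ M`. -/
noncomputable def proj {N M : ℕ} (h : N ≤ M) : (Fin M → ℝ) →L[ℝ] (Fin N → ℝ) :=
  ContinuousLinearMap.pi fun i => ContinuousLinearMap.proj (Fin.castLE h i)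

theorem proj_res {N M : ℕ} (h : N ≤ M) (z : Jet) : proj h (res M z) = res N z := by
  ext i
  simp [proj, res]

/-- The algebra of functions of class `r` of finitely many jet variables on `U`. -/
def LocAlg (r : WithTop ℕ∞) (U : Set Jet) : Subalgebra ℝ (U → ℝ) where
  carrier := {f | ∃ (N : ℕ) (f₀ : (Fin N → ℝ) → ℝ), ∀ z : U,
    f z = f₀ (res N z.1) ∧ ContDiffAt ℝ r f₀ (res N z.1)}
  mul_mem' := by
    rintro f g ⟨N, f₀, hf⟩ ⟨M, g₀, hg⟩
    refine ⟨max N M, fun y => f₀ (proj (le_max_left N M) y) * g₀ (proj (le_max_right N M) y), ?_⟩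
    intro z
    refine ⟨?_, ?_⟩
    · simp only [Pi.mul_apply, proj_res]
      rw [(hf z).1, (hg z).1]
    · apply ContDiffAt.mul
      · apply ContDiffAt.comp
        · rw [proj_res]; exact (hf z).2
        · exact (proj (le_max_left N M)).contDiff.contDiffAt
      · apply ContDiffAt.comp
        · rw [proj_res]; exact (hg z).2
        · exact (proj (le_max_right N M)).contDiff.contDiffAt
  add_mem' := by
    rintro f g ⟨N, f₀, hf⟩ ⟨M, g₀, hg⟩
    refine ⟨max N M, fun y => f₀ (proj (le_max_left N M) y) + g₀ (proj (le_max_right N M) y), ?_⟩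
    intro z
    refine ⟨?_, ?_⟩
    · simp only [Pi.add_apply, proj_res]
      rw [(hf z).1, (hg z).1]
    · apply ContDiffAt.add
      · apply ContDiffAt.comp
        · rw [proj_res]; exact (hf z).2
        · exact (proj (le_max_left N M)).contDiff.contDiffAt
      · apply ContDiffAt.comp
        · rw [proj_res]; exact (hg z).2
        · exact (proj (le_max_right N M)).contDiff.contDiffAt
  algebraMap_mem' := by
    intro c
    exact ⟨0, fun _ => c, fun z => ⟨rfl, contDiffAt_const⟩⟩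

theorem isLocal_iff (r : WithTop ℕ∞) (U : Set Jet) (f : Jet → ℝ) :
    IsLocal r U f ↔ (fun z : U => f z.1) ∈ LocAlg r U := by
  constructor
  · rintro ⟨N, f₀, h⟩
    exact ⟨N, f₀, fun z => h z.1 z.2⟩
  · rintro ⟨N, f₀, h⟩
    exact ⟨N, f₀, fun z hz => h ⟨z, hz⟩⟩

/-- If `f` has no zero on `U` then it is invertible in the algebra of local functions. -/
theorem LocAlg.exists_inv {r : WithTop ℕ∞} {U : Set Jet} (f : LocAlg r U)
    (hf : ∀ z : U, f.1 z ≠ 0) : ∃ g : LocAlg r U, f * g = 1 := by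
  obtain ⟨N, f₀, h⟩ := f.2
  refine ⟨⟨fun z => (f.1 z)⁻¹, N, fun y => (f₀ y)⁻¹, fun z => ⟨?_, ?_⟩⟩, ?_⟩
  · show (f.1 z)⁻¹ = (f₀ (res N z.1))⁻¹
    rw [(h z).1]
  · exact (h z).2.inv (by rw [← (h z).1]; exact hf z)
  · apply Subtype.ext
    funext z
    exact mul_inv_cancel₀ (hf z)

/-- Composition of a local function with a function of one variable. -/
theorem LocAlg.comp_mem {r : WithTop ℕ∞} {U : Set Jet} (f : LocAlg r U) (φ : ℝ → ℝ)
    (hφ : ∀ z : U, ContDiffAt ℝ r φ (f.1 z)) : (fun z : U => φ (f.1 z)) ∈ LocAlg r U := by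
  obtain ⟨N, f₀, h⟩ := f.2
  refine ⟨N, fun y => φ (f₀ y), fun z => ⟨?_, ?_⟩⟩
  · show φ (f.1 z) = _
    rw [(h z).1]
  · apply ContDiffAt.comp (g := φ) (f := f₀)
    · rw [← (h z).1]; exact hφ z
    · exact (h z).2

/-- The extension by zero of a function on `U`. -/
private noncomputable def ext0 (U : Set Jet) (f : U → ℝ) (z : Jet) : ℝ :=
  open Classical in if h : z ∈ U then f ⟨z, h⟩ else 0

private theorem ext0_apply {U : Set Jet} (f : U → ℝ) (z : U) : ext0 U f z.1 = f z := by
  unfold ext0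
  rw [dif_pos z.2]

private theorem curve_mem {U : Set Jet} (hU : IsOpen U) (z W : Jet) (hz : z ∈ U) :
    ∀ᶠ t : ℝ in nhds 0, z + t • W ∈ U := by
  have hc : Continuous (fun t : ℝ => z + t • W) := by fun_prop
  have h0 : (fun t : ℝ => z + t • W) 0 ∈ U := by simpa using hz
  exact hc.continuousAt.eventually_mem (hU.mem_nhds h0)

private theorem hasDerivAt_curve {r : WithTop ℕ∞} (hr : 1 ≤ r) {U : Set Jet} (hU : IsOpen U)
    {f : U → ℝ} {N : ℕ} {f₀ : (Fin N → ℝ) → ℝ}
    (h : ∀ z : U, f z = f₀ (res N z.1) ∧ ContDiffAt ℝ r f₀ (res N z.1))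
    {F : Jet → ℝ} (hF : ∀ z : U, F z.1 = f z) (z : U) (W : Jet) :
    HasDerivAt (fun t : ℝ => F (z.1 + t • W)) (fderiv ℝ f₀ (res N z.1) (res N W)) 0 := by
  have hd : DifferentiableAt ℝ f₀ (res N z.1) :=
    (h z).2.differentiableAt (by
      intro h0
      rw [h0] at hr
      exact absurd hr (by simp))
  have hcur : HasDerivAt (fun t : ℝ => res N z.1 + t • res N W) (res N W) 0 := by
    have := ((hasDerivAt_id (0 : ℝ)).smul_const (res N W)).const_add (res N z.1)
    simpa using this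
  have hcomp : HasDerivAt (fun t : ℝ => f₀ (res N z.1 + t • res N W))
      (fderiv ℝ f₀ (res N z.1) (res N W)) 0 := by
    have h0 : res N z.1 + (0 : ℝ) • res N W = res N z.1 := by simp
    have h1 : HasFDerivAt f₀ (fderiv ℝ f₀ (res N z.1)) (res N z.1 + (0 : ℝ) • res N W) := by
      rw [h0]
      exact hd.hasFDerivAt
    exact h1.comp_hasDerivAt (0 : ℝ) hcur
  refine hcomp.congr_of_eventuallyEq ?_
  filter_upwards [curve_mem hU z.1 W z.2] with t ht
  rw [hF ⟨_, ht⟩, (h ⟨_, ht⟩).1]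
  rfl

private noncomputable def pdFun (U : Set Jet) (i : ℕ) (f : U → ℝ) : U → ℝ := fun z =>
  deriv (fun t : ℝ => ext0 U f (z.1 + t • (Pi.single i 1 : Jet))) 0

private theorem pdFun_eq {r : WithTop ℕ∞} (hr : 1 ≤ r) {U : Set Jet} (hU : IsOpen U)
    {f : U → ℝ} {N : ℕ} {f₀ : (Fin N → ℝ) → ℝ}
    (h : ∀ z : U, f z = f₀ (res N z.1) ∧ ContDiffAt ℝ r f₀ (res N z.1)) (i : ℕ) (z : U) :
    pdFun U i f z = fderiv ℝ f₀ (res N z.1) (res N (Pi.single i 1)) :=
  (hasDerivAt_curve hr hU h (ext0_apply f) z _).deriv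

private theorem pdFun_rep {r : WithTop ℕ∞} (hr : r + 1 ≤ r) {U : Set Jet} (hU : IsOpen U)
    {f : U → ℝ} {N : ℕ} {f₀ : (Fin N → ℝ) → ℝ}
    (h : ∀ z : U, f z = f₀ (res N z.1) ∧ ContDiffAt ℝ r f₀ (res N z.1)) (i : ℕ) :
    ∀ z : U, pdFun U i f z = (fun y => fderiv ℝ f₀ y (res N (Pi.single i 1))) (res N z.1) ∧
      ContDiffAt ℝ r (fun y => fderiv ℝ f₀ y (res N (Pi.single i 1))) (res N z.1) := by
  have hr1 : 1 ≤ r := le_trans (by simp) hr
  intro z
  refine ⟨pdFun_eq hr1 hU h i z, ?_⟩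
  exact ((h z).2.fderiv_right hr).clm_apply contDiffAt_const

private theorem pdFun_mem {r : WithTop ℕ∞} (hr : r + 1 ≤ r) {U : Set Jet} (hU : IsOpen U)
    (i : ℕ) (f : LocAlg r U) : pdFun U i f.1 ∈ LocAlg r U := by
  obtain ⟨N, f₀, h⟩ := f.2
  exact ⟨N, fun y => fderiv ℝ f₀ y (res N (Pi.single i 1)), pdFun_rep hr hU h i⟩

private theorem hasDerivAt_ext0 {r : WithTop ℕ∞} (hr : 1 ≤ r) {U : Set Jet} (hU : IsOpen U)
    (i : ℕ) (f : LocAlg r U) (z : U) :
    HasDerivAt (fun t : ℝ => ext0 U f.1 (z.1 + t • (Pi.single i 1 : Jet))) (pdFun U i f.1 z) 0 := by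
  obtain ⟨N, f₀, h⟩ := f.2
  rw [pdFun_eq hr hU h i z]
  exact hasDerivAt_curve hr hU h (ext0_apply f.1) z _

/-- The partial derivative as a derivation of the algebra of local functions. -/
private noncomputable def pdDer {r : WithTop ℕ∞} (hr : r + 1 ≤ r) {U : Set Jet} (hU : IsOpen U)
    (i : ℕ) : Derivation ℝ (LocAlg r U) (LocAlg r U) where
  toFun f := ⟨pdFun U i f.1, pdFun_mem hr hU i f⟩
  map_add' f g := by
    have hr1 : 1 ≤ r := le_trans (by simp) hr
    apply Subtype.ext
    funext z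
    show pdFun U i (f + g).1 z = pdFun U i f.1 z + pdFun U i g.1 z
    refine HasDerivAt.unique (hasDerivAt_ext0 hr1 hU i (f + g) z) ?_
    refine ((hasDerivAt_ext0 hr1 hU i f z).add (hasDerivAt_ext0 hr1 hU i g z)).congr_of_eventuallyEq ?_
    filter_upwards [curve_mem hU z.1 (Pi.single i 1) z.2] with t ht
    show ext0 U (f + g).1 (⟨_, ht⟩ : U).1 = ext0 U f.1 (⟨_, ht⟩ : U).1 + ext0 U g.1 (⟨_, ht⟩ : U).1
    rw [ext0_apply, ext0_apply, ext0_apply]
    rfl
  map_smul' c f := by
    have hr1 : 1 ≤ r := le_trans (by simp) hr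
    apply Subtype.ext
    funext z
    show pdFun U i (c • f).1 z = c * pdFun U i f.1 z
    refine HasDerivAt.unique (hasDerivAt_ext0 hr1 hU i (c • f) z) ?_
    refine ((hasDerivAt_ext0 hr1 hU i f z).const_mul c).congr_of_eventuallyEq ?_
    filter_upwards [curve_mem hU z.1 (Pi.single i 1) z.2] with t ht
    show ext0 U (c • f).1 (⟨_, ht⟩ : U).1 = c * ext0 U f.1 (⟨_, ht⟩ : U).1
    rw [ext0_apply, ext0_apply]
    rfl
  map_one_eq_zero' := by
    have hr1 : 1 ≤ r := le_trans (by simp) hr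
    apply Subtype.ext
    funext z
    show pdFun U i (1 : LocAlg r U).1 z = 0
    refine HasDerivAt.unique (hasDerivAt_ext0 hr1 hU i 1 z) ?_
    refine (hasDerivAt_const (0 : ℝ) (1 : ℝ)).congr_of_eventuallyEq ?_
    filter_upwards [curve_mem hU z.1 (Pi.single i 1) z.2] with t ht
    show ext0 U (1 : LocAlg r U).1 (⟨_, ht⟩ : U).1 = 1
    rw [ext0_apply]
    rfl
  leibniz' f g := by
    have hr1 : 1 ≤ r := le_trans (by simp) hr
    apply Subtype.ext
    funext z
    show pdFun U i (f * g).1 z = f.1 z * pdFun U i g.1 z + g.1 z * pdFun U i f.1 z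
    refine HasDerivAt.unique (hasDerivAt_ext0 hr1 hU i (f * g) z) ?_
    have hm := (hasDerivAt_ext0 hr1 hU i f z).mul (hasDerivAt_ext0 hr1 hU i g z)
    have e : z.1 + (0 : ℝ) • (Pi.single i 1 : Jet) = z.1 := by simp
    rw [e, ext0_apply, ext0_apply] at hm
    have hm' : HasDerivAt (fun t : ℝ => ext0 U f.1 (z.1 + t • (Pi.single i 1 : Jet)) *
        ext0 U g.1 (z.1 + t • (Pi.single i 1 : Jet)))
        (f.1 z * pdFun U i g.1 z + g.1 z * pdFun U i f.1 z) 0 := by
      have e2 : f.1 z * pdFun U i g.1 z + g.1 z * pdFun U i f.1 z =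
        pdFun U i f.1 z * g.1 z + f.1 z * pdFun U i g.1 z := by ring
      rw [e2]
      exact hm
    refine hm'.congr_of_eventuallyEq ?_
    filter_upwards [curve_mem hU z.1 (Pi.single i 1) z.2] with t ht
    show ext0 U (f * g).1 (⟨_, ht⟩ : U).1 = ext0 U f.1 (⟨_, ht⟩ : U).1 * ext0 U g.1 (⟨_, ht⟩ : U).1
    rw [ext0_apply, ext0_apply, ext0_apply]
    rfl

private theorem res_single_eq_zero {N i : ℕ} (h : N ≤ i) : res N (Pi.single i 1) = 0 := by
  funext j
  have hj := j.2
  show (Pi.single i (1 : ℝ) : ℕ → ℝ) j = 0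
  rw [Pi.single_apply, if_neg (by omega)]

private theorem res_eq_sum {N : ℕ} (W : Jet) :
    res N W = ∑ i ∈ Finset.range N, W i • res N (Pi.single i 1) := by
  funext j
  have hj := j.2
  rw [Finset.sum_apply, Finset.sum_eq_single (j : ℕ)]
  · simp [res]
  · intro b _ hb
    show W b * (Pi.single b (1 : ℝ) : ℕ → ℝ) j = 0
    rw [Pi.single_apply, if_neg (by omega), mul_zero]
  · intro hb
    exact absurd (Finset.mem_range.mpr hj) hb

private theorem fderiv_res {r : WithTop ℕ∞} (hr : 1 ≤ r) {U : Set Jet} (hU : IsOpen U)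
    {f : U → ℝ} {N : ℕ} {f₀ : (Fin N → ℝ) → ℝ}
    (h : ∀ z : U, f z = f₀ (res N z.1) ∧ ContDiffAt ℝ r f₀ (res N z.1)) (z : U) (W : Jet) :
    fderiv ℝ f₀ (res N z.1) (res N W) = ∑ i ∈ Finset.range N, W i * pdFun U i f z := by
  rw [res_eq_sum W, map_sum]
  refine Finset.sum_congr rfl fun i _ => ?_
  rw [map_smul, pdFun_eq hr hU h i z, smul_eq_mul]

/-- The algebra of local functions as a ring with jet coordinates. -/
private noncomputable def locJet {r : WithTop ℕ∞} (hr : r + 1 ≤ r) {U : Set Jet} (hU : IsOpen U) :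
    JetRing (LocAlg r U) where
  z i := ⟨fun z => z.1 i, i + 1, fun y => y (Fin.last i), fun _ => ⟨rfl,
    (ContinuousLinearMap.proj (R := ℝ) (φ := fun _ : Fin (i + 1) => ℝ)
      (Fin.last i)).contDiff.contDiffAt⟩⟩
  pd i := pdDer hr hU i
  pd_comm i j f := by
    have hr1 : 1 ≤ r := le_trans (by simp) hr
    apply Subtype.ext
    funext z
    show pdFun U i (pdFun U j f.1) z = pdFun U j (pdFun U i f.1) z
    obtain ⟨N, f₀, h⟩ := f.2
    rw [pdFun_eq hr1 hU (f := pdFun U j f.1) (N := N)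
        (f₀ := fun y => fderiv ℝ f₀ y (res N (Pi.single j 1))) (pdFun_rep hr hU h j) i z,
      pdFun_eq hr1 hU (f := pdFun U i f.1) (N := N)
        (f₀ := fun y => fderiv ℝ f₀ y (res N (Pi.single i 1))) (pdFun_rep hr hU h i) j z]
    have hr2 : (2 : WithTop ℕ∞) ≤ r := by
      calc (2 : WithTop ℕ∞) = 1 + 1 := by norm_num
        _ ≤ r + 1 := by gcongr
        _ ≤ r := hr
    have hd : DifferentiableAt ℝ (fderiv ℝ f₀) (res N z.1) :=
      ((h z).2.fderiv_right hr).differentiableAt (by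
        intro h0
        rw [h0] at hr1
        exact absurd hr1 (by simp))
    have hsym : IsSymmSndFDerivAt ℝ f₀ (res N z.1) :=
      (h z).2.isSymmSndFDerivAt (by simpa using hr2)
    have hap : ∀ v w : Fin N → ℝ, fderiv ℝ (fun y => fderiv ℝ f₀ y v) (res N z.1) w =
        fderiv ℝ (fderiv ℝ f₀) (res N z.1) w v := by
      intro v w
      have := (hd.hasFDerivAt.clm_apply (hasFDerivAt_const v (res N z.1))).fderiv
      rw [this]
      simp
    rw [hap, hap]
    exact hsym.eq _ _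
  pd_z i j := by
    have hr1 : 1 ≤ r := le_trans (by simp) hr
    apply Subtype.ext
    funext z
    show pdFun U i (fun z : U => z.1 j) z = (if i = j then (1 : LocAlg r U) else 0).1 z
    have h1 : HasDerivAt (fun t : ℝ => z.1 j + t * (Pi.single i (1 : ℝ) : ℕ → ℝ) j)
        ((Pi.single i (1 : ℝ) : ℕ → ℝ) j) 0 := by
      have := ((hasDerivAt_id (0 : ℝ)).mul_const ((Pi.single i (1 : ℝ) : ℕ → ℝ) j)).const_add (z.1 j)
      simpa using this
    have h2 : HasDerivAt (fun t : ℝ => ext0 U (fun z : U => z.1 j)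
        (z.1 + t • (Pi.single i 1 : Jet))) ((Pi.single i (1 : ℝ) : ℕ → ℝ) j) 0 := by
      refine h1.congr_of_eventuallyEq ?_
      filter_upwards [curve_mem hU z.1 (Pi.single i 1) z.2] with t ht
      show ext0 U (fun z : U => z.1 j) (⟨_, ht⟩ : U).1 = _
      rw [ext0_apply]
      rfl
    unfold pdFun
    rw [h2.deriv, Pi.single_apply]
    by_cases hij : i = j
    · subst hij
      simp
    · rw [if_neg hij, if_neg (Ne.symm hij)]
      rfl
  pd_fin f := by
    have hr1 : 1 ≤ r := le_trans (by simp) hr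
    obtain ⟨N, f₀, h⟩ := f.2
    refine ⟨N, fun i hi => ?_⟩
    apply Subtype.ext
    funext z
    show pdFun U i f.1 z = 0
    rw [pdFun_eq hr1 hU h i z, res_single_eq_zero hi, map_zero]

/-- The algebra of local functions on an open set is a ring with jet coordinates; the derivation `J.vf a` is the
derivative along the vector field with components `a`; on a convex set a function with vanishing partial
derivatives is constant.

Proof. For `f` in the algebra choose `N`, `f₀`. Set `∂_i f (z) := fderiv ℝ f₀ (res N z) (Pi.single i 1)` for `i < N` and `0`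
for `i ≥ N`. Independence of the choice: since `U` is open in the product topology and `f₀ ∘ res N = f` on `U`, this equals
`deriv (fun t => F (z + t • Pi.single i 1)) 0` for every `F : Jet → ℝ` which agrees with `f` on `U`
(the curve stays in `U` for small `t`, `Filter.EventuallyEq.deriv_eq`). It belongs to the algebra by
`ContDiffAt.fderiv_right` (`hr : r + 1 ≤ r`) and `ContDiffAt.clm_apply`. Commutation: second derivative of a function of class
at least 2 is symmetric (`ContDiffAt.isSymmSndFDerivAt`). More generally for a curve `t ↦ z + t • W`,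
`F (z + t W) = f₀ (res N z + t res N W)` for small `t`, so
`deriv = fderiv ℝ f₀ (res N z) (res N W) = ∑_{i<N} W_i ∂_i f`. For the last part: `t ↦ f (z + t (z' - z))` on `[0,1]`. -/
theorem exists_locJet (r : WithTop ℕ∞) (hr : r + 1 ≤ r) (U : Set Jet) (hU : IsOpen U) :
    ∃ J : JetRing (LocAlg r U),
      (∀ (i : ℕ) (z : U), (J.z i).1 z = z.1 i) ∧
      (∀ (a : ℕ → LocAlg r U) (f : LocAlg r U) (F : Jet → ℝ) (W : Jet → Jet),
        (∀ z : U, F z.1 = f.1 z) → (∀ (z : U) (i : ℕ), W z.1 i = (a i).1 z) →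
        ∀ z : U, along W F z.1 = (J.vf a f).1 z) ∧
      (∀ (i : ℕ) (f : LocAlg r U) (F : Jet → ℝ), (∀ z : U, F z.1 = f.1 z) →
        ∀ z : U, along (fun _ => Pi.single i 1) F z.1 = (J.pd i f).1 z) ∧
      (Convex ℝ U → ∀ f : LocAlg r U, (∀ i, J.pd i f = 0) →
        ∃ c : ℝ, f = algebraMap ℝ (LocAlg r U) c) := by
  have hr1 : 1 ≤ r := le_trans (by simp) hr
  refine ⟨locJet hr hU, fun i z => rfl, ?_, ?_, ?_⟩
  · intro a f F W hF hW z
    obtain ⟨N, f₀, h⟩ := f.2
    have hN : ∀ i, N ≤ i → (locJet hr hU).pd i f = 0 := by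
      intro i hi
      apply Subtype.ext
      funext z
      show pdFun U i f.1 z = 0
      rw [pdFun_eq hr1 hU h i z, res_single_eq_zero hi, map_zero]
    rw [(locJet hr hU).vf_apply hN]
    unfold along
    rw [(hasDerivAt_curve hr1 hU h hF z (W z.1)).deriv, fderiv_res hr1 hU h z (W z.1)]
    have e : ((∑ i ∈ Finset.range N, a i * (locJet hr hU).pd i f : LocAlg r U) : U → ℝ) z =
        ∑ i ∈ Finset.range N, (a i).1 z * pdFun U i f.1 z := by
      rw [AddSubmonoidClass.coe_finsetSum, Finset.sum_apply]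
      rfl
    rw [e]
    refine Finset.sum_congr rfl fun i _ => ?_
    rw [hW]
  · intro i f F hF z
    obtain ⟨N, f₀, h⟩ := f.2
    unfold along
    rw [(hasDerivAt_curve hr1 hU h hF z (Pi.single i 1)).deriv]
    exact (pdFun_eq hr1 hU h i z).symm
  · intro hc f hf
    obtain ⟨N, f₀, h⟩ := f.2
    by_cases hne : Nonempty U
    · obtain ⟨w⟩ := hne
      refine ⟨f.1 w, ?_⟩
      apply Subtype.ext
      funext z
      show f.1 z = f.1 w
      have hmem : ∀ t ∈ Set.Icc (0 : ℝ) 1, w.1 + t • (z.1 - w.1) ∈ U := by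
        intro t ht
        exact hc.add_smul_sub_mem w.2 z.2 ht
      have hder : ∀ t ∈ Set.Icc (0 : ℝ) 1,
          HasDerivAt (fun s : ℝ => ext0 U f.1 (w.1 + s • (z.1 - w.1))) 0 t := by
        intro t ht
        have h1 := hasDerivAt_curve hr1 hU h (ext0_apply f.1) ⟨_, hmem t ht⟩ (z.1 - w.1)
        rw [fderiv_res hr1 hU h, Finset.sum_eq_zero] at h1
        · have h2 : HasDerivAt (fun s : ℝ => s - t) 1 t := (hasDerivAt_id t).sub_const t
          have h3 : HasDerivAt (fun s : ℝ => ext0 U f.1 ((w.1 + t • (z.1 - w.1)) + s • (z.1 - w.1)))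
              0 (t - t) := by
            rw [sub_self]
            exact h1
          have h4 := HasDerivAt.comp (h := fun s : ℝ => s - t) t h3 h2
          rw [zero_mul] at h4
          refine h4.congr_of_eventuallyEq (Filter.Eventually.of_forall fun s => ?_)
          show ext0 U f.1 (w.1 + s • (z.1 - w.1)) =
            ext0 U f.1 ((w.1 + t • (z.1 - w.1)) + (s - t) • (z.1 - w.1))
          congr 1
          rw [add_assoc, ← add_smul]
          congr 2
          ring
        · intro i _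
          have h5 := congrArg (fun g : LocAlg r U => g.1 ⟨_, hmem t ht⟩) (hf i)
          have h6 : pdFun U i f.1 ⟨_, hmem t ht⟩ = 0 := h5
          rw [h6, mul_zero]
      have hcont : ContinuousOn (fun s : ℝ => ext0 U f.1 (w.1 + s • (z.1 - w.1)))
          (Set.Icc (0 : ℝ) 1) := fun t ht => (hder t ht).continuousAt.continuousWithinAt
      have hk := constant_of_has_deriv_right_zero hcont
        (fun t ht => (hder t ⟨ht.1, ht.2.le⟩).hasDerivWithinAt) 1 ⟨zero_le_one, le_rfl⟩
      have e1 : w.1 + (1 : ℝ) • (z.1 - w.1) = z.1 := by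
        rw [one_smul]; abel
      have e0 : w.1 + (0 : ℝ) • (z.1 - w.1) = w.1 := by
        rw [zero_smul, add_zero]
      simp only [e1, e0] at hk
      rw [ext0_apply, ext0_apply] at hk
      exact hk
    · refine ⟨0, ?_⟩
      apply Subtype.ext
      funext z
      exact absurd ⟨z⟩ hne

end Pool.Agent.Lib.MP_3c6722_mp
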