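import Pool.Agent.Lib.MP_3c6722_mp.Sym
import Pool.Agent.Lib.MP_3c6722_mp.Cons
import Pool.Agent.Lib.MP_3c6722_mp.Local

/-!
# MP_3c6722_mp: functions of jets and elements of the ring of local functions
-/

open scoped ContDiff

namespace Pool.Agent.Lib.MP_3c6722_mp

/-- `1 / x`, where `u_2 = - 3 / x ^ 3`. -/
noncomputable def xiJ (z : Jet) : ℝ := (-(z 3) / 3) ^ ((1 : ℝ) / 3)

/-- `x`, where `u_2 = - 3 / x ^ 3`. -/
noncomputable def xJ (z : Jet) : ℝ := (xiJ z)⁻¹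

/-- the inverse of `D x` -/
noncomputable def muJ (z : Jet) : ℝ := 9 * (z 4)⁻¹ * xiJ z ^ 4

/-- `D x` -/
noncomputable def lamJ (z : Jet) : ℝ := 1 / 3 * (1 / 3) * xJ z ^ 4 * z 4

/-- `v = x u_1` -/
noncomputable def vJ (z : Jet) : ℝ := xJ z * z 2

/-- the derivative with respect to `x` -/
noncomputable def cdJ (f : Jet → ℝ) (z : Jet) : ℝ := muJ z * totalD f z

/-- the densities -/
noncomputable def rhoJ (n : ℕ) (z : Jet) : ℝ := gw cdJ vJ (2 * n + 4) z * lamJ z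

theorem xiJ_pow {z : Jet} (hz : z ∈ dom) : xiJ z ^ 3 = -(z 3) / 3 := by
  have h : 0 < -(z 3) / 3 := by have := hz.1; linarith
  unfold xiJ
  rw [← Real.rpow_natCast, ← Real.rpow_mul h.le]
  norm_num

theorem xiJ_pos {z : Jet} (hz : z ∈ dom) : 0 < xiJ z := by
  have h : 0 < -(z 3) / 3 := by have := hz.1; linarith
  exact Real.rpow_pos_of_pos h _

/-- The ring of local functions on an open subset of the domain, with coordinates. -/
structure Data (r : WithTop ℕ∞) (U : Set Jet) where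
  J : JetRing (LocAlg r U)
  K : Coord J
  x_eq : ∀ z : U, K.x.1 z = xJ z.1
  xi_eq : ∀ z : U, K.xi.1 z = xiJ z.1
  m_eq : ∀ z : U, K.m.1 z = (z.1 4)⁻¹
  z_eq : ∀ (i : ℕ) (z : U), (J.z i).1 z = z.1 i
  vf_eq : ∀ (a : ℕ → LocAlg r U) (f : LocAlg r U) (F : Jet → ℝ) (W : Jet → Jet),
    (∀ z : U, F z.1 = f.1 z) → (∀ (z : U) (i : ℕ), W z.1 i = (a i).1 z) →
    ∀ z : U, along W F z.1 = (J.vf a f).1 z
  pd_eq : ∀ (i : ℕ) (f : LocAlg r U) (F : Jet → ℝ), (∀ z : U, F z.1 = f.1 z) →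
    ∀ z : U, along (fun _ => Pi.single i 1) F z.1 = (J.pd i f).1 z
  const : Convex ℝ U → ∀ f : LocAlg r U, (∀ i, J.pd i f = 0) →
    ∃ c : ℝ, f = algebraMap ℝ (LocAlg r U) c

theorem exists_data (r : WithTop ℕ∞) (hr : r + 1 ≤ r) (U : Set Jet) (hU : IsOpen U)
    (hd : U ⊆ dom) : Nonempty (Data r U) := by
  obtain ⟨J, h1, h2, h3, h4⟩ := exists_locJet r hr U hU
  have hne : ∀ z : U, z.1 4 ≠ 0 := fun z => (hd z.2).2
  have hxi0 : (fun z : U => xiJ z.1) ∈ LocAlg r U := by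
    have h := LocAlg.comp_mem (J.z 3) (fun y : ℝ => (-y / 3) ^ ((1 : ℝ) / 3)) (by
      intro z
      have h0 : -((J.z 3).1 z) / 3 ≠ 0 := by
        rw [h1]
        have := (hd z.2).1
        have : 0 < -(z.1 3) / 3 := by linarith
        exact this.ne'
      have e1 : ContDiffAt ℝ r (fun y : ℝ => -y / 3) ((J.z 3).1 z) :=
        (contDiff_id.neg.div_const 3).contDiffAt
      exact ContDiffAt.comp (g := fun y : ℝ => y ^ ((1 : ℝ) / 3)) (f := fun y : ℝ => -y / 3)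
        ((J.z 3).1 z) (Real.contDiffAt_rpow_const_of_ne h0) e1)
    have e : (fun z : U => (-((J.z 3).1 z) / 3) ^ ((1 : ℝ) / 3)) = fun z : U => xiJ z.1 := by
      funext z
      rw [h1]
      rfl
    rw [← e]
    exact h
  let xi : LocAlg r U := ⟨fun z => xiJ z.1, hxi0⟩
  have hxi : ∀ z : U, xi.1 z ≠ 0 := fun z => (xiJ_pos (hd z.2)).ne'
  obtain ⟨x, hx⟩ := LocAlg.exists_inv xi hxi
  obtain ⟨m, hm⟩ := LocAlg.exists_inv (J.z 4) (fun z => by rw [h1]; exact hne z)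
  have hx' : ∀ z : U, xi.1 z * x.1 z = 1 := fun z =>
    congrArg (fun g : LocAlg r U => g.1 z) hx
  have hm' : ∀ z : U, (J.z 4).1 z * m.1 z = 1 := fun z =>
    congrArg (fun g : LocAlg r U => g.1 z) hm
  have h3' : J.z 3 = -3 * xi ^ 3 := by
    apply Subtype.ext
    funext z
    have e1 : (-3 * xi ^ 3 : LocAlg r U).1 z = -3 * xiJ z.1 ^ 3 := rfl
    rw [h1, e1, xiJ_pow (hd z.2)]
    ring
  refine ⟨⟨J, ⟨x, xi, m, ?_, h3', hm⟩, ?_, fun z => rfl, ?_, h1, h2, h3, h4⟩⟩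
  · rw [mul_comm]; exact hx
  · intro z
    have e := hx' z
    have e2 : xi.1 z = xiJ z.1 := rfl
    show x.1 z = (xiJ z.1)⁻¹
    rw [← e2]
    exact (inv_eq_of_mul_eq_one_right e).symm
  · intro z
    have e := hm' z
    rw [h1] at e
    exact (inv_eq_of_mul_eq_one_right e).symm

namespace Data

variable {r : WithTop ℕ∞} {U : Set Jet} (d : Data r U)

theorem totalD_eq (f : LocAlg r U) (F : Jet → ℝ) (h : ∀ z : U, F z.1 = f.1 z) (z : U) :
    totalD F z.1 = (d.J.D f).1 z := by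
  unfold totalD JetRing.D
  refine d.vf_eq _ f F totalField h ?_ z
  intro z i
  unfold totalField
  split_ifs
  · rfl
  · rw [d.z_eq]

theorem iterate_eq (f : LocAlg r U) (F : Jet → ℝ) (h : ∀ z : U, F z.1 = f.1 z) (k : ℕ) (z : U) :
    (totalD^[k] F) z.1 = ((d.J.D)^[k] f).1 z := by
  induction k generalizing z with
  | zero => exact h z
  | succ k ih =>
    rw [Function.iterate_succ_apply', Function.iterate_succ_apply']
    exact d.totalD_eq _ _ ih z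

theorem ev_eq (g : LocAlg r U) (G : Jet → ℝ) (hg : ∀ z : U, G z.1 = g.1 z)
    (f : LocAlg r U) (F : Jet → ℝ) (h : ∀ z : U, F z.1 = f.1 z) (z : U) :
    along (evField G) F z.1 = (d.J.ev g f).1 z := by
  unfold JetRing.ev
  refine d.vf_eq _ f F (evField G) h ?_ z
  intro z i
  rcases i with _ | k
  · rfl
  · exact d.iterate_eq g G hg k z

theorem rhs_eq (z : U) : rhs z.1 = d.K.F.1 z := by
  have e : d.K.F.1 z = 6 * (d.J.z 1).1 z * (d.J.z 2).1 z + 1 / 2 * (d.J.z 2).1 z ^ 2 -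
      9 * (1 / 2) * (d.J.z 3).1 z ^ 4 * d.K.m.1 z ^ 2 := rfl
  rw [e, d.z_eq, d.z_eq, d.z_eq, d.m_eq]
  unfold rhs
  rw [div_eq_mul_inv _ (z.1 4 ^ 2), inv_pow]
  ring

theorem mu_eq (z : U) : muJ z.1 = d.K.mu.1 z := by
  have e : d.K.mu.1 z = 9 * d.K.m.1 z * d.K.xi.1 z ^ 4 := rfl
  rw [e, d.m_eq, d.xi_eq]
  rfl

theorem lam_eq (z : U) : lamJ z.1 = d.K.lam.1 z := by
  have e : d.K.lam.1 z = 1 / 3 * (1 / 3) * d.K.x.1 z ^ 4 * (d.J.z 4).1 z := rfl
  rw [e, d.x_eq, d.z_eq]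
  rfl

theorem v_eq (z : U) : vJ z.1 = d.K.v.1 z := by
  have e : d.K.v.1 z = d.K.x.1 z * (d.J.z 2).1 z := rfl
  rw [e, d.x_eq, d.z_eq]
  rfl

theorem cd_eq (f : LocAlg r U) (F : Jet → ℝ) (h : ∀ z : U, F z.1 = f.1 z) (z : U) :
    cdJ F z.1 = (d.K.CD f).1 z := by
  unfold cdJ
  rw [d.K.CD_apply, d.mu_eq, d.totalD_eq f F h]
  rfl

theorem w_eq (n : ℕ) (z : U) : gw cdJ vJ n z.1 = (d.K.wn n).1 z := by
  induction n using Nat.strong_induction_on generalizing z with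
  | _ n ih =>
    rcases n with _ | _ | n
    · rw [gw_zero, d.K.wn_zero]
      exact d.v_eq z
    · rw [zero_add, gw_one, d.K.wn_one]
      have h := d.cd_eq d.K.v vJ d.v_eq z
      show - cdJ vJ z.1 = _
      rw [h]
      rfl
    · rw [gw_succ, d.K.wn_succ]
      have h := d.cd_eq (d.K.wn (n + 1)) (gw cdJ vJ (n + 1)) (fun z => ih _ (by omega) z) z
      have e1 : (- d.K.CD (d.K.wn (n + 1)) +
          ∑ a ∈ Finset.HasAntidiagonal.antidiagonal n, d.K.wn a.1 * d.K.wn a.2 : LocAlg r U).1 z =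
          - (d.K.CD (d.K.wn (n + 1))).1 z +
          ∑ a ∈ Finset.HasAntidiagonal.antidiagonal n, (d.K.wn a.1).1 z * (d.K.wn a.2).1 z := by
        show (- (d.K.CD (d.K.wn (n + 1))).1 + ((∑ a ∈ Finset.HasAntidiagonal.antidiagonal n,
          d.K.wn a.1 * d.K.wn a.2 : LocAlg r U) : U → ℝ)) z = _
        rw [AddSubmonoidClass.coe_finsetSum, Pi.add_apply, Finset.sum_apply]
        rfl
      rw [e1, Pi.add_apply, Pi.neg_apply, h, Finset.sum_apply]
      congr 1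
      refine Finset.sum_congr rfl fun a ha => ?_
      have hab := Finset.HasAntidiagonal.mem_antidiagonal.mp ha
      rw [Pi.mul_apply, ih _ (by omega), ih _ (by omega)]

theorem rho_eq (n : ℕ) (z : U) : rhoJ n z.1 = (d.K.rho n).1 z := by
  unfold rhoJ
  rw [d.w_eq, d.lam_eq]
  rfl

theorem isLocal_of (f : LocAlg r U) (F : Jet → ℝ) (h : ∀ z : U, F z.1 = f.1 z) :
    IsLocal r U F := by
  rw [isLocal_iff]
  have e : (fun z : U => F z.1) = f.1 := funext h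
  rw [e]
  exact f.2

end Data

end Pool.Agent.Lib.MP_3c6722_mp
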