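import Pool.Agent.Lib.MP_3c6722_mp.Coord

/-!
# MP_3c6722_mp: the time derivative in KdV coordinates

`Tm` is the derivative along the flow at fixed `x`; `v` satisfies the KdV equation.
-/

namespace Pool.Agent.Lib.MP_3c6722_mp

namespace Coord

variable {A : Type*} [CommRing A] [Algebra ℝ A] {J : JetRing A} (K : Coord J)

/-- the time derivative `D_t` -/
noncomputable def Dt : Derivation ℝ A A := J.ev K.F

/-- the time derivative at fixed `x` of a derivation -/
noncomputable def atX (d : Derivation ℝ A A) : Derivation ℝ A A := d - (d K.x) • K.CD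

theorem atX_apply (d : Derivation ℝ A A) (f : A) : K.atX d f = d f - d K.x * K.CD f := by
  unfold atX
  rw [Derivation.sub_apply, Derivation.smul_apply, smul_eq_mul]

theorem atX_x (d : Derivation ℝ A A) : K.atX d K.x = 0 := by
  rw [K.atX_apply, K.CD_x]
  ring

theorem isVF_atX {d : Derivation ℝ A A} (h : J.IsVF d) : J.IsVF (K.atX d) :=
  h.sub J (K.isVF_CD.smul J _)

/-- If `d` commutes with `D` then `d` at fixed `x` commutes with `D_x`. -/
theorem atX_CD {d : Derivation ℝ A A} (h : ∀ f, J.D (d f) = d (J.D f)) (f : A) :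
    K.CD (K.atX d f) = K.atX d (K.CD f) := by
  have hmu : d K.mu = - K.mu ^ 2 * J.D (d K.x) := by
    have h1 : d (K.lam * K.mu) = 0 := by rw [K.lam_mu]; exact Derivation.map_one_eq_zero d
    rw [Derivation.leibniz, smul_eq_mul, smul_eq_mul, ← K.D_x, ← h, K.D_x] at h1
    have h2 := K.lam_mu
    linear_combination (K.mu) * h1 - (d K.mu) * h2
  have hmuD : J.D K.mu = - K.mu ^ 2 * J.D K.lam := by
    have h1 : J.D (K.lam * K.mu) = 0 := by rw [K.lam_mu]; exact Derivation.map_one_eq_zero _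
    rw [Derivation.leibniz, smul_eq_mul, smul_eq_mul] at h1
    have h2 := K.lam_mu
    linear_combination (K.mu) * h1 - (J.D K.mu) * h2
  rw [K.atX_apply, K.atX_apply, K.CD_apply, K.CD_apply, map_sub, Derivation.leibniz,
    K.CD_apply (K.mu * J.D f)]
  simp only [Derivation.leibniz, smul_eq_mul, hmu, hmuD, ← h]
  ring

theorem atX_comm {d d' : Derivation ℝ A A} (h : ∀ f, J.D (d f) = d (J.D f))
    (h' : ∀ f, J.D (d' f) = d' (J.D f)) (hdd : ∀ f, d (d' f) = d' (d f)) (f : A) :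
    K.atX d (K.atX d' f) = K.atX d' (K.atX d f) := by
  have hmu : ∀ {a : Derivation ℝ A A}, (∀ f, J.D (a f) = a (J.D f)) →
      a K.mu = - K.mu ^ 2 * J.D (a K.x) := by
    intro a ha
    have h1 : a (K.lam * K.mu) = 0 := by rw [K.lam_mu]; exact Derivation.map_one_eq_zero a
    rw [Derivation.leibniz, smul_eq_mul, smul_eq_mul, ← K.D_x, ← ha, K.D_x] at h1
    have h2 := K.lam_mu
    linear_combination (K.mu) * h1 - (a K.mu) * h2
  rw [K.atX_apply d', K.atX_apply d f, K.atX_apply d, K.atX_apply d']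
  simp only [K.CD_apply, map_sub, Derivation.leibniz, smul_eq_mul, hmu h, hmu h', ← h, ← h',
    hdd K.x, hdd f]
  ring

/-- the time derivative at fixed `x` -/
noncomputable def Tm : Derivation ℝ A A := K.atX K.Dt

theorem D_Dt (f : A) : J.D (K.Dt f) = K.Dt (J.D f) := J.D_ev_comm K.F f

theorem CD_Tm (f : A) : K.CD (K.Tm f) = K.Tm (K.CD f) := K.atX_CD K.D_Dt f

/-- `v_2` -/
noncomputable def v2 : A := K.CD K.v1

/-- `v_3` -/
noncomputable def v3 : A := K.CD K.v2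

theorem CD_v : K.CD K.v = K.v1 := rfl

theorem CD_v1 : K.CD K.v1 = K.v2 := rfl

theorem CD_v2 : K.CD K.v2 = K.v3 := rfl

/-- auxiliary expression `B` -/
noncomputable def B : A := K.v2 + 2 * K.v ^ 2 - K.xi * (K.v1 + 6 * J.z 1)

theorem CD_F : K.CD K.F = K.w * K.xi * K.B := by
  rw [K.F_eq]
  simp only [map_add, map_sub, Derivation.leibniz, Derivation.leibniz_pow, smul_eq_mul,
    nsmul_eq_mul, K.CD_v, K.CD_v1, K.CD_xi, K.CD_z1, K.D_h]
  rw [show K.CD (6 : A) = 0 by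
    rw [← map_ofNat (algebraMap ℝ A) 6, Derivation.map_algebraMap]]
  have h1 := K.hx
  have h2 := K.hh
  have h3 := K.ht
  unfold B w
  push_cast
  simp only [pow_one]
  linear_combination (2 * K.v ^ 2 * K.xi * (K.v - K.x * K.v1)) * h3 -
    K.v1 * K.v2 * h2 +
    (- 6 * J.z 1 * K.v1 * K.xi - K.xi * K.v1 ^ 2 + K.v1 * K.v2) * h1

theorem D_F : J.D K.F = 3 * K.xi ^ 2 * K.B := by
  rw [K.D_eq, K.CD_F, K.lam_eq]
  have h1 := K.w_wi
  linear_combination (3 * K.xi ^ 2 * K.B) * h1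

theorem CD_B : K.CD K.B = K.v3 + 4 * K.v * K.v1 + K.xi ^ 2 * (K.v1 + 6 * J.z 1) -
    K.xi * (K.v2 + 2 * K.v * K.w) := by
  unfold B
  simp only [map_add, map_sub, Derivation.leibniz, Derivation.leibniz_pow, smul_eq_mul,
    nsmul_eq_mul, K.CD_v, K.CD_v1, K.CD_v2, K.CD_xi, K.CD_z1]
  rw [show K.CD (6 : A) = 0 by
    rw [← map_ofNat (algebraMap ℝ A) 6, Derivation.map_algebraMap],
    show K.CD (2 : A) = 0 by
    rw [← map_ofNat (algebraMap ℝ A) 2, Derivation.map_algebraMap]]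
  have h3 := K.ht
  push_cast
  simp only [pow_one]
  linear_combination (-2 * K.xi * K.v * K.w) * h3

theorem Dt_x : K.Dt K.x = K.wi * (K.x * K.CD K.B - 2 * K.B) := by
  rw [K.d_x]
  have h1 : K.Dt (J.z 3) = J.D (J.D K.F) := J.ev_z_succ K.F 2
  rw [h1, K.D_F, K.D_eq]
  simp only [Derivation.leibniz, Derivation.leibniz_pow, smul_eq_mul, nsmul_eq_mul, K.CD_xi]
  rw [show K.CD (3 : A) = 0 by
    rw [← map_ofNat (algebraMap ℝ A) 3, Derivation.map_algebraMap], K.lam_eq]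
  have h2 : 9 * (K.t * K.t) = 1 := by
    have := K.ht
    linear_combination (3 * K.t + 1) * this
  have h3 : K.x ^ 3 * K.xi ^ 3 = 1 := by rw [← mul_pow, K.hx, one_pow]
  have h4 := K.hx
  push_cast
  simp only [pow_one]
  calc _ = (9 * (K.t * K.t)) * (K.x ^ 3 * K.xi ^ 3) * K.wi *
        (K.x * K.CD K.B - 2 * (K.x * K.xi) * K.B) := by ring
    _ = _ := by rw [h2, h3, h4]; ring

/-- The KdV equation for `v`. -/
theorem Tm_v : K.Tm K.v = K.v3 + 6 * K.v * K.v1 := by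
  have h1 : K.Dt (J.z 2) = J.D K.F := J.ev_z_succ K.F 1
  have h2 : K.Tm K.v = K.Dt K.x * (J.z 2 - K.v1) + K.x * J.D K.F := by
    unfold Tm
    rw [K.atX_apply, K.CD_v]
    conv_lhs => rw [show K.Dt K.v = K.Dt (K.x * J.z 2) from rfl]
    rw [Derivation.leibniz, smul_eq_mul, smul_eq_mul, h1]
    ring
  rw [h2, K.Dt_x, K.D_F, K.z2, K.CD_B]
  have h3 := K.hx
  have h4 := K.w_wi
  have h5 : K.v * K.xi - K.v1 = K.w * K.xi := by
    unfold w
    linear_combination (K.v1) * h3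
  rw [h5]
  have hw : K.w = K.v - K.x * K.v1 := rfl
  have hB : K.B = K.v2 + 2 * K.v ^ 2 - K.xi * (K.v1 + 6 * J.z 1) := rfl
  linear_combination (K.xi * (K.x * (K.v3 + 4 * K.v * K.v1 + K.xi ^ 2 * (K.v1 + 6 * J.z 1) -
      K.xi * (K.v2 + 2 * K.v * K.w)) - 2 * K.B)) * h4 +
    ((K.v3 + 4 * K.v * K.v1 + K.xi ^ 2 * (K.v1 + 6 * J.z 1) -
      K.xi * (K.v2 + 2 * K.v * K.w)) + 3 * K.xi * K.B + 2 * K.v * K.v1) * h3 +
    K.xi * hB - 2 * K.xi * K.v * hw

/-- the potential of `v ^ 2 / 2` -/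
noncomputable def P : A := J.z 1 + K.h * K.t * K.v ^ 2 * K.x

/-- the potential of `x v` -/
noncomputable def Q : A := J.z 0 + K.t * K.v * K.x ^ 2

theorem CD_P : K.CD K.P = K.h * K.v ^ 2 := by
  unfold P
  simp only [map_add, Derivation.leibniz, Derivation.leibniz_pow, smul_eq_mul, nsmul_eq_mul,
    K.CD_v, K.CD_x, K.CD_z1, K.D_h, K.D_t]
  have h2 := K.hh
  have h3 := K.ht
  unfold w
  push_cast
  simp only [pow_one]
  linear_combination (K.h * K.v ^ 2) * h3 + (K.t * K.v * K.x * K.v1 - K.t * K.v ^ 2) * h2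

theorem CD_Q : K.CD K.Q = K.x * K.v := by
  unfold Q
  simp only [map_add, Derivation.leibniz, Derivation.leibniz_pow, smul_eq_mul, nsmul_eq_mul,
    K.CD_v, K.CD_x, K.CD_z0, K.D_t]
  have h3 := K.ht
  unfold w
  push_cast
  simp only [pow_one]
  linear_combination (K.v * K.x) * h3

theorem Tm_z0 : K.Tm (J.z 0) = - K.t * K.x * (K.x * K.CD K.B - 2 * K.B) := by
  unfold Tm
  have h1 : K.Dt (J.z 0) = 0 := J.ev_z_zero K.F
  rw [K.atX_apply, h1, K.CD_z0, K.Dt_x]
  have h4 := K.w_wi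
  linear_combination (-K.t * K.x * (K.x * K.CD K.B - 2 * K.B)) * h4

theorem Tm_z1 : K.Tm (J.z 1) = K.F - K.t * K.v * (K.x * K.CD K.B - 2 * K.B) := by
  unfold Tm
  have h1 : K.Dt (J.z 1) = K.F := J.ev_z_succ K.F 0
  rw [K.atX_apply, h1, K.CD_z1, K.Dt_x]
  have h4 := K.w_wi
  linear_combination (-K.t * K.v * (K.x * K.CD K.B - 2 * K.B)) * h4

end Coord

end Pool.Agent.Lib.MP_3c6722_mp
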