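import Pool.Agent.Lib.MP_3c6722_mp.Vec2

/-!
# MP_3c6722_mp: the `KdVRing` of a ring with jet coordinates
-/

namespace Pool.Agent.Lib.MP_3c6722_mp

variable {A : Type*} [CommRing A] [Algebra ℝ A]

namespace Coord

variable {J : JetRing A} (K : Coord J)

theorem isVF_Tm : J.IsVF K.Tm := K.isVF_atX (J.isVF_ev _)

theorem Tm_x : K.Tm K.x = 0 := K.atX_x _

theorem Tm_iter (j : ℕ) : K.Tm (K.CD^[j] K.v) = K.CD^[j] (K.Tm K.v) := by
  induction j with
  | zero => rfl
  | succ j ih => rw [Function.iterate_succ_apply', ← K.CD_Tm, ih, Function.iterate_succ_apply']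

theorem Tm_v' : K.Tm K.v = K.CD (K.CD (K.CD K.v)) + 6 * K.v * K.CD K.v := K.Tm_v

theorem E_B (k : ℕ) : K.E (k + 2) K.B = (if k + 1 = 2 then 1 else 0) -
    K.xi * (if k + 1 = 1 then 1 else 0) := by
  unfold B
  simp only [map_add, map_sub, Derivation.leibniz, Derivation.leibniz_pow, smul_eq_mul,
    nsmul_eq_mul, K.E_xi, K.E_z, K.E_v_two, K.E_v_one, K.E_v_zero]
  rw [show K.E (k + 2) (6 : A) = 0 by
    rw [← map_ofNat (algebraMap ℝ A) 6, Derivation.map_algebraMap],
    show K.E (k + 2) (2 : A) = 0 by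
    rw [← map_ofNat (algebraMap ℝ A) 2, Derivation.map_algebraMap]]
  rw [show K.comp (k + 2) 1 = 0 by rw [comp, if_neg (by omega)], if_neg (show ¬ (k + 1 = 0) by omega)]
  push_cast
  ring

theorem E_CD_B (k : ℕ) : K.E (k + 4) (K.CD K.B) = if k = 0 then 1 else 0 := by
  rw [K.E_CD, K.E_B, K.E_B]
  rw [if_neg (show ¬ (k + 2 + 1 = 2) by omega), if_neg (show ¬ (k + 2 + 1 = 1) by omega),
    if_neg (show ¬ (k + 1 + 1 = 1) by omega)]
  simp only [mul_zero, sub_zero, map_zero, zero_add]
  by_cases hk : k = 0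
  · rw [if_pos hk, if_pos (by omega)]
  · rw [if_neg hk, if_neg (by omega)]

theorem E_F (k : ℕ) : K.E (k + 4) K.F = 0 := by
  rw [K.F_eq]
  simp only [map_add, map_sub, Derivation.leibniz, Derivation.leibniz_pow, smul_eq_mul,
    nsmul_eq_mul, K.E_xi, K.E_z, K.E_v_one, K.E_v_zero, K.D_h]
  rw [show K.E (k + 4) (6 : A) = 0 by
    rw [← map_ofNat (algebraMap ℝ A) 6, Derivation.map_algebraMap]]
  rw [show K.comp (k + 4) 1 = 0 by rw [comp, if_neg (by omega)], if_neg (show ¬ (k + 3 = 0) by omega),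
    if_neg (show ¬ (k + 3 = 1) by omega)]
  ring

theorem E_Tm_v (k : ℕ) : K.E (k + 4) (K.Tm K.v) = if k = 0 then 1 else 0 := by
  rw [K.Tm_v]
  simp only [map_add, Derivation.leibniz, smul_eq_mul, K.E_v_one, K.E_v_zero, K.E_v_three]
  rw [show K.E (k + 4) (6 : A) = 0 by
    rw [← map_ofNat (algebraMap ℝ A) 6, Derivation.map_algebraMap],
    if_neg (show ¬ (k + 3 = 1) by omega), if_neg (show ¬ (k + 3 = 0) by omega)]
  by_cases hk : k = 0
  · rw [if_pos hk, if_pos (by omega)]; ring
  · rw [if_neg hk, if_neg (by omega)]; ring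

/-- `φ_j = e_k (T v_j)` -/
noncomputable def phi (k j : ℕ) : A := K.E (k + 4) (K.Tm (K.CD^[j] K.v))

/-- the vector field `∑ φ_j e_j` -/
noncomputable def phiVF (k : ℕ) : Derivation ℝ A A :=
  J.vf (fun i => ∑ j ∈ Finset.range (i + 1), K.phi k j * K.comp (j + 1) i)

theorem comp_zero_of_le {i j : ℕ} (h : i < j) (hi : 0 < j) : K.comp (j + 1) i = 0 := by
  obtain ⟨l, rfl⟩ := Nat.exists_eq_succ_of_ne_zero hi.ne'
  exact K.comp_eq_zero l i (by omega)

theorem isVF_phiVF (k : ℕ) : J.IsVF (K.phiVF k) := J.isVF_vf _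

theorem phiVF_apply (k : ℕ) (f : A) (N : ℕ) (hN : ∀ i, N ≤ i → K.E (i + 1) f = 0) :
    K.phiVF k f = ∑ j ∈ Finset.range N, K.phi k j * K.E (j + 1) f := by
  obtain ⟨M, hM⟩ := J.pd_fin f
  have h1 : K.phiVF k f = ∑ i ∈ Finset.range M,
      (∑ j ∈ Finset.range (max M N), K.phi k j * K.comp (j + 1) i) * J.pd i f := by
    unfold phiVF
    rw [J.vf_apply hM]
    refine Finset.sum_congr rfl fun i hi => ?_
    congr 1
    have hi' := Finset.mem_range.mp hi
    apply Finset.sum_subset
    · intro j hj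
      have hj' := Finset.mem_range.mp hj
      exact Finset.mem_range.mpr (lt_of_lt_of_le (by omega) (le_max_left M N))
    · intro j _ hj
      have hj' : i < j := by
        by_contra hc
        exact hj (Finset.mem_range.mpr (by omega))
      rw [K.comp_zero_of_le hj' (by omega), mul_zero]
  have h2 : K.phiVF k f = ∑ j ∈ Finset.range (max M N), K.phi k j * K.E (j + 1) f := by
    rw [h1]
    simp_rw [Finset.sum_mul]
    rw [Finset.sum_comm]
    refine Finset.sum_congr rfl fun j _ => ?_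
    rw [(K.isVF_E (j + 1)).apply J hM, Finset.mul_sum]
    refine Finset.sum_congr rfl fun i _ => ?_
    rw [K.E_z]
    ring
  rw [h2]
  symm
  apply Finset.sum_subset
  · intro j hj
    exact Finset.mem_range.mpr (lt_of_lt_of_le (Finset.mem_range.mp hj) (le_max_right M N))
  · intro j _ hj
    rw [hN j (by by_contra hc; exact hj (Finset.mem_range.mpr (by omega))), mul_zero]

theorem E_Tm (k : ℕ) (f : A) (N : ℕ) (hN : ∀ i, N ≤ i → K.E (i + 1) f = 0) :
    K.E (k + 4) (K.Tm f) = K.Tm (K.E (k + 4) f) +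
      ∑ j ∈ Finset.range N, K.phi k j * K.E (j + 1) f := by
  have h : ⁅K.E (k + 4), K.Tm⁆ - K.phiVF k = 0 := by
    apply K.vf_eq_zero (((K.isVF_E _).bracket J K.isVF_Tm).sub J (K.isVF_phiVF k))
    · rw [Derivation.sub_apply, Derivation.commutator_apply, K.Tm_x, K.E_x, map_zero, map_zero,
        K.phiVF_apply k _ 0 (fun i _ => K.E_x i)]
      simp
    · rw [Derivation.sub_apply, Derivation.commutator_apply, K.E_z, K.Tm_z0]
      rw [show K.comp (k + 4) 0 = 0 by rw [comp, if_neg (by omega)], map_zero]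
      rw [K.phiVF_apply k _ 1 (fun i hi => by rw [K.E_z, comp, if_neg (by omega)])]
      rw [Finset.sum_range_one, K.E_z, show K.phi k 0 = K.E (k + 4) (K.Tm K.v) from rfl,
        K.E_Tm_v]
      simp only [comp, if_true]
      simp only [map_sub, map_neg, neg_mul, Derivation.leibniz, smul_eq_mul, K.E_x, K.D_t,
        K.E_CD_B, K.E_B]
      rw [show K.E (k + 4) (2 : A) = 0 by
        rw [← map_ofNat (algebraMap ℝ A) 2, Derivation.map_algebraMap],
        if_neg (show ¬ (k + 2 + 1 = 2) by omega), if_neg (show ¬ (k + 2 + 1 = 1) by omega)]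
      ring
    · rw [Derivation.sub_apply, Derivation.commutator_apply, K.E_z, K.Tm_z1]
      rw [show K.comp (k + 4) 1 = 0 by rw [comp, if_neg (by omega)], map_zero]
      rw [K.phiVF_apply k _ 1 (fun i hi => by rw [K.E_z, comp, if_neg (by omega)])]
      rw [Finset.sum_range_one, K.E_z, show K.phi k 0 = K.E (k + 4) (K.Tm K.v) from rfl,
        K.E_Tm_v]
      simp only [comp, if_true]
      simp only [map_sub, Derivation.leibniz, smul_eq_mul, K.E_x, K.D_t,
        K.E_CD_B, K.E_B, K.E_F, K.E_v_zero]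
      rw [show K.E (k + 4) (2 : A) = 0 by
        rw [← map_ofNat (algebraMap ℝ A) 2, Derivation.map_algebraMap],
        if_neg (show ¬ (k + 2 + 1 = 2) by omega), if_neg (show ¬ (k + 2 + 1 = 1) by omega),
        if_neg (show ¬ (k + 3 = 0) by omega)]
      ring
    · intro j
      rw [Derivation.sub_apply, Derivation.commutator_apply, K.E_v,
        K.phiVF_apply k _ (j + 1) (fun i hi => by rw [K.E_v, if_neg (by omega)])]
      rw [Finset.sum_range_succ, Finset.sum_eq_zero, zero_add, K.E_v, if_pos rfl, mul_one]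
      · have h3 : K.Tm (if k + 3 = j then (1 : A) else 0) = 0 := by
          split_ifs
          · exact Derivation.map_one_eq_zero _
          · exact map_zero _
        rw [h3, sub_zero]
        exact sub_self _
      · intro i hi
        rw [K.E_v, if_neg (by have := Finset.mem_range.mp hi; omega), mul_zero]
  have h2 := congrArg (fun d : Derivation ℝ A A => d f) h
  simp only [Derivation.sub_apply, Derivation.commutator_apply, Derivation.zero_apply] at h2
  rw [K.phiVF_apply k f N hN] at h2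
  linear_combination h2

/-- The KdV ring. -/
noncomputable def kdv (hconst : ∀ f : A, (∀ i, J.pd i f = 0) → ∃ c : ℝ, f = algebraMap ℝ A c) :
    KdVRing A where
  D := K.CD
  T := K.Tm
  e k := K.E (k + 1)
  x := K.x
  v := K.v
  D_x := K.CD_x
  e_x := K.E_x
  e_v := K.E_v
  e_comm i j f := K.E_comm i j f
  e_D k f := K.E_CD (k + 1) f
  T_v := K.Tm_v
  D_T := K.CD_Tm
  e_T k hk f N hN := by
    obtain ⟨l, rfl⟩ := Nat.exists_eq_add_of_le hk
    have h1 := K.E_Tm l f N hN
    rw [show 3 + l + 1 = l + 4 by ring, h1]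
    congr 1
    refine Finset.sum_congr rfl fun j _ => ?_
    show K.phi l j * _ = _
    unfold phi
    rw [K.Tm_iter, K.Tm_v']
  e_fin f := by
    obtain ⟨M, hM⟩ := J.pd_fin f
    refine ⟨M + 1, fun i hi => ?_⟩
    obtain ⟨l, rfl⟩ := Nat.exists_eq_add_of_le hi
    have h1 := K.E_eq_zero (M + l) hM (by omega)
    rw [show M + 1 + l + 1 = M + l + 2 by ring]
    exact h1
  const f hf := by
    apply hconst
    intro i
    apply J.pd_eq_zero_of_D
    rw [K.D_eq, hf, mul_zero]

end Coord

end Pool.Agent.Lib.MP_3c6722_mp
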