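import Mathlib

/-!
# MP_3c6722_mp: the differential algebra used for symmetries

In the application `D` is the `x`-derivative and `T` the `t`-derivative along KdV
(`v_t = v_xxx + 6 v v_x`), `e k` is the partial derivative with respect to `v_k = D^k v`.
-/

namespace Pool.Agent.Lib.MP_3c6722_mp

/-- A differential algebra with the KdV derivations and partial derivatives `e k = ∂/∂v_k`. -/
structure KdVRing (A : Type*) [CommRing A] [Algebra ℝ A] where
  D : Derivation ℝ A A
  T : Derivation ℝ A A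
  e : ℕ → Derivation ℝ A A
  x : A
  v : A
  D_x : D x = 1
  e_x : ∀ k, e k x = 0
  e_v : ∀ k j, e k (D^[j] v) = if k = j then 1 else 0
  e_comm : ∀ i j f, e i (e j f) = e j (e i f)
  e_D : ∀ k f, e (k + 1) (D f) = D (e (k + 1) f) + e k f
  T_v : T v = D (D (D v)) + 6 * v * D v
  D_T : ∀ f, D (T f) = T (D f)
  e_T : ∀ k, 3 ≤ k → ∀ f N, (∀ i, N ≤ i → e i f = 0) →
    e k (T f) = T (e k f) +
      ∑ j ∈ Finset.range N, e k (D^[j] (D (D (D v)) + 6 * v * D v)) * e j f
  e_fin : ∀ f, ∃ N, ∀ i, N ≤ i → e i f = 0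
  const : ∀ f, D f = 0 → ∃ c : ℝ, f = algebraMap ℝ A c

end Pool.Agent.Lib.MP_3c6722_mp
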