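import Pool.Agent.Lib.MP_3c6722_mp.Data

/-!
# MP_3c6722_mp: proof of the main statement
-/

open scoped ContDiff

namespace Pool.Agent.Lib.MP_3c6722_mp

theorem isOpen_dom : IsOpen dom := by
  have h3 : Continuous (fun z : Jet => z 3) := continuous_apply 3
  have h4 : Continuous (fun z : Jet => z 4) := continuous_apply 4
  have e : dom = {z : Jet | z 3 < 0} ∩ {z : Jet | z 4 ≠ 0} := rfl
  rw [e]
  exact (isOpen_lt h3 continuous_const).inter (isOpen_ne_fun h4 continuous_const)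

theorem dom_nonempty : dom.Nonempty := ⟨fun _ => -1, by constructor <;> norm_num⟩

theorem exists_convex {U : Set Jet} (hU : IsOpen U) {z : Jet} (hz : z ∈ U) :
    ∃ V : Set Jet, IsOpen V ∧ Convex ℝ V ∧ z ∈ V ∧ V ⊆ U := by
  obtain ⟨C, ⟨hC, hc⟩, hCU⟩ :=
    (LocallyConvexSpace.convex_basis (𝕜 := ℝ) z).mem_iff.mp (hU.mem_nhds hz)
  exact ⟨interior C, isOpen_interior, hc.interior, mem_interior_iff_mem_nhds.mpr hC,
    interior_subset.trans hCU⟩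

theorem infty_le : (∞ : WithTop ℕ∞) + 1 ≤ ∞ := le_of_eq rfl

theorem omega_le : (ω : WithTop ℕ∞) + 1 ≤ ω := le_top

theorem IsLocal.mono {r : WithTop ℕ∞} {U V : Set Jet} {f : Jet → ℝ} (h : IsLocal r U f)
    (hV : V ⊆ U) : IsLocal r V f := by
  obtain ⟨N, f₀, h0⟩ := h
  exact ⟨N, f₀, fun z hz => h0 z (hV hz)⟩

theorem IsLocal.exists_elt {r : WithTop ℕ∞} {U : Set Jet} {f : Jet → ℝ} (h : IsLocal r U f) :
    ∃ g : LocAlg r U, ∀ z : U, f z.1 = g.1 z :=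
  ⟨⟨fun z => f z.1, (isLocal_iff r U f).mp h⟩, fun _ => rfl⟩

theorem nontrivial_locAlg {r : WithTop ℕ∞} {U : Set Jet} (h : U.Nonempty) :
    Nontrivial (LocAlg r U) := by
  obtain ⟨z, hz⟩ := h
  refine ⟨⟨0, 1, fun h => ?_⟩⟩
  have e : (0 : LocAlg r U).1 ⟨z, hz⟩ = (1 : LocAlg r U).1 ⟨z, hz⟩ := by rw [h]
  exact zero_ne_one e

namespace Coord

variable {A : Type*} [CommRing A] [Algebra ℝ A] {J : JetRing A} (K : Coord J)

theorem d_m (d : Derivation ℝ A A) : d K.m = - K.m ^ 2 * d (J.z 4) := by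
  have h1 : d (J.z 4 * K.m) = 0 := by rw [K.h4]; exact Derivation.map_one_eq_zero _
  rw [Derivation.leibniz, smul_eq_mul, smul_eq_mul] at h1
  have h2 := K.h4
  linear_combination K.m * h1 - (d K.m) * h2

theorem d_F (d : Derivation ℝ A A) : d K.F = 6 * (J.z 1 * d (J.z 2) + J.z 2 * d (J.z 1)) +
    J.z 2 * d (J.z 2) - 18 * J.z 3 ^ 3 * K.m ^ 2 * d (J.z 3) + 9 * J.z 3 ^ 4 * K.m ^ 3 * d (J.z 4) := by
  unfold F
  simp only [map_add, map_sub, Derivation.leibniz, Derivation.leibniz_pow, smul_eq_mul,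
    nsmul_eq_mul, K.D_h, K.d_m]
  rw [show d (6 : A) = 0 by rw [← map_ofNat (algebraMap ℝ A) 6, Derivation.map_algebraMap],
    show d (9 : A) = 0 by rw [← map_ofNat (algebraMap ℝ A) 9, Derivation.map_algebraMap]]
  have h := K.hh
  push_cast
  simp only [pow_one]
  linear_combination (J.z 2 * d (J.z 2) - 18 * J.z 3 ^ 3 * K.m ^ 2 * d (J.z 3) +
    9 * J.z 3 ^ 4 * K.m ^ 3 * d (J.z 4)) * h

theorem pd_four_F : J.pd 4 K.F = 9 * J.z 3 ^ 4 * K.m ^ 3 := by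
  rw [K.d_F, J.pd_z, J.pd_z, J.pd_z, J.pd_z, if_neg (by omega), if_neg (by omega),
    if_neg (by omega), if_pos rfl]
  ring

theorem pd_F (k : ℕ) : J.pd (k + 5) K.F = 0 := by
  rw [K.d_F, J.pd_z, J.pd_z, J.pd_z, J.pd_z, if_neg (by omega), if_neg (by omega),
    if_neg (by omega), if_neg (by omega)]
  ring

end Coord

theorem part_one : IsOpen dom ∧ dom.Nonempty ∧ IsLocal ω dom rhs ∧
    (∀ z ∈ dom, partialU 3 rhs z ≠ 0) ∧ ∀ z ∈ dom, ∀ m, 3 < m → partialU m rhs z = 0 := by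
  obtain ⟨d⟩ := exists_data ω omega_le dom isOpen_dom subset_rfl
  refine ⟨isOpen_dom, dom_nonempty, Data.isLocal_of d.K.F rhs d.rhs_eq, ?_, ?_⟩
  · intro z hz
    have h := d.pd_eq 4 d.K.F rhs d.rhs_eq ⟨z, hz⟩
    rw [d.K.pd_four_F] at h
    have e : (9 * d.J.z 3 ^ 4 * d.K.m ^ 3 : LocAlg ω dom).1 ⟨z, hz⟩ =
      9 * (d.J.z 3).1 ⟨z, hz⟩ ^ 4 * d.K.m.1 ⟨z, hz⟩ ^ 3 := rfl
    rw [e, d.z_eq, d.m_eq] at h
    unfold partialU
    rw [h]
    have h3 : z 3 ≠ 0 := hz.1.ne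
    have h4 : z 4 ≠ 0 := hz.2
    positivity
  · intro z hz m hm
    obtain ⟨k, rfl⟩ := Nat.exists_eq_add_of_lt hm
    have h := d.pd_eq (k + 5) d.K.F rhs d.rhs_eq ⟨z, hz⟩
    rw [d.K.pd_F] at h
    unfold partialU
    rw [show 3 + k + 1 + 1 = k + 5 by ring, h]
    rfl

theorem part_two (n : ℕ) : IsConserved ω rhs dom (rhoJ n) := by
  classical
  obtain ⟨d⟩ := exists_data ω omega_le dom isOpen_dom subset_rfl
  obtain ⟨flux, hflux⟩ := d.K.flux_rho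
  refine ⟨Data.isLocal_of (d.K.rho n) (rhoJ n) (d.rho_eq n),
    fun z => if h : z ∈ dom then (flux n).1 ⟨z, h⟩ else 0, ?_, ?_⟩
  · refine Data.isLocal_of (flux n) _ ?_
    intro z
    rw [dif_pos z.2]
  · intro z hz
    have h1 := d.ev_eq d.K.F rhs d.rhs_eq (d.K.rho n) (rhoJ n) (d.rho_eq n) ⟨z, hz⟩
    have h2 := d.totalD_eq (flux n) (fun z => if h : z ∈ dom then (flux n).1 ⟨z, h⟩ else 0)
      (fun z => by rw [dif_pos z.2]) ⟨z, hz⟩
    unfold totalDt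
    rw [h2, ← hflux n]
    exact h1

theorem part_three (U : Set Jet) (hU : IsOpen U) (hne : U.Nonempty) (hd : U ⊆ dom)
    (c : ℕ →₀ ℝ) (σ : Jet → ℝ) (hσ : IsLocal ∞ U σ)
    (h : ∀ z ∈ U, (c.sum fun n a => a * rhoJ n z) = totalD σ z) : c = 0 := by
  obtain ⟨z₀, hz₀⟩ := hne
  obtain ⟨V, hV, hVc, hz₀V, hVU⟩ := exists_convex hU hz₀
  obtain ⟨d⟩ := exists_data ∞ infty_le V hV (hVU.trans hd)
  have := nontrivial_locAlg (r := ∞) ⟨z₀, hz₀V⟩
  obtain ⟨s, hs⟩ := (hσ.mono hVU).exists_elt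
  refine d.K.rho_indep (d.const hVc) c s ?_
  apply Subtype.ext
  funext z
  rw [← d.totalD_eq s σ hs z, ← h z.1 (hVU z.2)]
  have e : (c.sum fun n a => algebraMap ℝ (LocAlg ∞ V) a * d.K.rho n : LocAlg ∞ V).1 z =
      ∑ n ∈ c.support, c n * (d.K.rho n).1 z := by
    unfold Finsupp.sum
    show ((∑ n ∈ c.support, algebraMap ℝ (LocAlg ∞ V) (c n) * d.K.rho n : LocAlg ∞ V) :
      V → ℝ) z = _
    rw [AddSubmonoidClass.coe_finsetSum, Finset.sum_apply]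
    rfl
  rw [e]
  unfold Finsupp.sum
  exact Finset.sum_congr rfl fun n _ => by
    show c n * rhoJ n z.1 = _
    rw [d.rho_eq]

theorem part_four (U : Set Jet) (hU : IsOpen U) (hd : U ⊆ dom) (G : Jet → ℝ)
    (hG : IsSymmetry rhs U G) (z : Jet) (hz : z ∈ U) (m : ℕ) (hm : 3 < m) :
    partialU m G z = 0 := by
  obtain ⟨V, hV, hVc, hzV, hVU⟩ := exists_convex hU hz
  obtain ⟨d⟩ := exists_data ∞ infty_le V hV (hVU.trans hd)
  have := nontrivial_locAlg (r := ∞) ⟨z, hzV⟩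
  obtain ⟨g, hg⟩ := (hG.1.mono hVU).exists_elt
  have hsym : d.J.ev d.K.F g = d.J.ev g d.K.F := by
    apply Subtype.ext
    funext y
    have h1 := d.ev_eq d.K.F rhs d.rhs_eq g G hg y
    have h2 := d.ev_eq g G hg d.K.F rhs d.rhs_eq y
    rw [← h1, ← h2]
    exact hG.2 y.1 (hVU y.2)
  have h3 := d.K.symmetry_order (d.const hVc) g hsym m hm
  have h4 := d.pd_eq (m + 1) g G hg ⟨z, hzV⟩
  unfold partialU
  rw [h4, h3]
  rfl

theorem mainStatement : MainStatement := by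
  refine ⟨part_one, ⟨rhoJ, part_two, ?_⟩, ?_⟩
  · rintro U hU hne hd c ⟨σ, hσ, h⟩
    exact part_three U hU hne hd c σ hσ h
  · intro U hU hd G hG z hz m hm
    exact part_four U hU hd G hG z hz m hm

end Pool.Agent.Lib.MP_3c6722_mp
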