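import Pool.Agent.Lib.MP_3c6722_mp.KdVRing

/-!
# MP_3c6722_mp, module NoSymA: the top coefficients of a symmetry of KdV

Write `g_j = e j g`, `v_j = D^[j] v`, `C(n,k)` binomial coefficients, `r = s + 4` (an upper bound of the
order of `g`).

Proof.
(0) For all `n k`: `e k (D^[n] (v * v)) = 2 C(n,k) v_{n-k}` if `k ≤ n` and `0` if `k > n`: Leibniz
`D^[n] (v * v) = ∑ C(n,i) v_i v_{n-i}` and `e_v`. As `6 v D v = 3 D (v * v)`,
`e k (D^[j] (v_3 + 6 v v_1)) = [k = j + 3] + 6 C(j+1,k) v_{j+1-k}`.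
(1) For `k ≥ 3` apply `e k` to the equation `hg` (use `e_T`, `e_D` three times). With `f_k := g_k`:
`3 D g_{k-2} = T g_k - D³ g_k - 3 D² g_{k-1} - 6 v D g_k + 6 k v_1 g_k + 6 ∑_{l > k} C(l+1,k) v_{l+1-k} g_l`.   (R_k)
(the terms `g_{k-3}` cancel, and `l = k - 1` cancels with `- 6 v g_{k-1}`).
(2) `k = r + 2`: `3 D g_r = 0`, so `g_r = c`. `k = r + 1`: `D g_{r-1} = 0`, `g_{r-1} = c'`.
`k = r`: `3 D g_{r-2} = 6 r c v_1`, so `g_{r-2} = 2 r c v + d`.
(3) If `j ≥ 1` and `i + j > r - 2` then `e i g_j = 0`. For `j ≥ r - 2` this is (2) (and `hord`). For `j ≤ r - 3`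
downward induction on `j`, and for fixed `j` downward induction on `i` (`e_fin`); note `i ≥ 2`.
Apply `e (i+1)` to `R_{j+2}`: the left side is `3 D e_{i+1} g_j + 3 e_i g_j = 3 e_i g_j`, every term on the right vanishes
(`e (i+1) (T g_{j+2})` with `e_T`, `i + 1 ≥ 3`: `T 0`, `e_{i-2} g_{j+2}` and `v_* e_l g_{j+2}` with `l ≥ i`, all zero).
(4) If `j ≥ 1`, `i + j = r - 2`: `M(i,j) = e i g_j = 2 c C(r,j+1)`. `i = 0`: (2). `i ≥ 1`: apply `e (i+1)` to `R_{j+2}`:
`3 M(i,j) = - 3 M(i-1,j+1) + 6 C(r+1,j+2) c` (for `i ≥ 2` the two terms `e_{i-2} g_{j+2}` from `T` and `D³` cancel, for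
`i = 1` the element `g_{j+2} = g_{r-1}` is a constant).
(5) If `c' = 0`, `j ≥ 1`, `i + j = r - 3`: `e i g_j = 0`. `i = 0`: `R_{r-1}` gives
`3 g_{r-3} = 6 (C(r+1,2) - r) c v_1 + 6 (r-1) c' v + const`. `i ≥ 1`: apply `e (i+1)` to `R_{j+2}`:
`3 N(i,j) = - 3 N(i-1,j+1) + 6 C(r,j+2) c'` (for `i = 1`: `g_{j+2} = g_{r-2} = 2 r c v + d`, `T v = v_3 + 6 v v_1`).
-/

namespace Pool.Agent.Lib.MP_3c6722_mp

variable {A : Type*} [CommRing A] [Algebra ℝ A]

private theorem nsa_three {x : A} (h : 3 * x = 0) : x = 0 := by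
  have h1 : algebraMap ℝ A (1/3) * (3 * x) = 0 := by rw [h, mul_zero]
  have h2 : algebraMap ℝ A (1/3) * (3 * x) = x := by
    have h3 : (3 : A) = algebraMap ℝ A 3 := (map_ofNat (algebraMap ℝ A) 3).symm
    rw [h3, ← mul_assoc, ← map_mul]
    norm_num
  rw [← h2, h1]

private theorem nsa_d3 (δ : Derivation ℝ A A) (x : A) : δ (3 * x) = 3 * δ x := by
  have h : ∀ y : A, 3 * y = (3 : ℝ) • y := fun y => by
    rw [Algebra.smul_def, map_ofNat]
  rw [h, h, Derivation.map_smul]

private theorem nsa_d6 (δ : Derivation ℝ A A) (x : A) : δ (6 * x) = 6 * δ x := by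
  have h : ∀ y : A, 6 * y = (6 : ℝ) • y := fun y => by
    rw [Algebra.smul_def, map_ofNat]
  rw [h, h, Derivation.map_smul]

private theorem nsa_dn (δ : Derivation ℝ A A) (n : ℕ) (x : A) :
    δ ((n : A) * x) = (n : A) * δ x := by
  have h : ∀ y : A, (n : A) * y = n • y := fun y => by simp
  rw [h, h, map_nsmul]

private theorem nsa_mul (δ : Derivation ℝ A A) (x y : A) :
    δ (x * y) = x * δ y + y * δ x := by
  rw [Derivation.leibniz]; simp

private theorem nsa_alg (δ : Derivation ℝ A A) (c : ℝ) : δ (algebraMap ℝ A c) = 0 := by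
  exact Derivation.map_algebraMap δ c

private theorem nsa_dc (δ : Derivation ℝ A A) (c : ℝ) (x : A) :
    δ (algebraMap ℝ A c * x) = algebraMap ℝ A c * δ x := by
  rw [nsa_mul, nsa_alg, mul_zero, add_zero]

private theorem nsa_leib (K : KdVRing A) (n : ℕ) :
    K.D^[n] (K.v * K.v) = ∑ ij ∈ Finset.HasAntidiagonal.antidiagonal n,
      ((n.choose ij.1 : ℕ) : A) * (K.D^[ij.1] K.v * K.D^[ij.2] K.v) := by
  induction n with
  | zero => simp
  | succ n ih =>
    rw [Function.iterate_succ_apply', ih, map_sum]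
    have h := Finset.sum_antidiagonal_choose_succ_mul (R := A)
      (fun i j => K.D^[i] K.v * K.D^[j] K.v) n
    rw [h, ← Finset.sum_add_distrib]
    apply Finset.sum_congr rfl
    intro ij hij
    rw [Finset.HasAntidiagonal.mem_antidiagonal] at hij
    have hc : n.choose ij.2 = n.choose ij.1 := by
      rw [← hij, Nat.choose_symm_add]
    rw [hc, nsa_dn, nsa_mul]
    simp only [Function.iterate_succ_apply']
    ring

private theorem nsa_e0 (K : KdVRing A) (k n : ℕ) :
    K.e k (K.D^[n] (K.v * K.v)) = 2 * ((n.choose k : ℕ) : A) * K.D^[n - k] K.v := by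
  rw [nsa_leib, map_sum]
  have h1 : ∀ ij ∈ Finset.HasAntidiagonal.antidiagonal n,
      K.e k (((n.choose ij.1 : ℕ) : A) * (K.D^[ij.1] K.v * K.D^[ij.2] K.v)) =
      (if k = ij.2 then ((n.choose k : ℕ) : A) * K.D^[n - k] K.v else 0) +
      (if k = ij.1 then ((n.choose k : ℕ) : A) * K.D^[n - k] K.v else 0) := by
    intro ij hij
    rw [Finset.HasAntidiagonal.mem_antidiagonal] at hij
    rw [nsa_dn, nsa_mul, K.e_v, K.e_v, mul_add]
    congr 1
    · split_ifs with h
      · have h2 : ij.1 = n - k := by omega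
        have h3 : n.choose ij.1 = n.choose k := by
          rw [h2]; exact Nat.choose_symm (by omega)
        rw [h3, h2, mul_one]
      · simp
    · split_ifs with h
      · have h2 : ij.2 = n - k := by omega
        rw [h2, ← h, mul_one]
      · simp
  rw [Finset.sum_congr rfl h1, Finset.sum_add_distrib]
  by_cases hk : k ≤ n
  · rw [Finset.sum_eq_single (n - k, k), Finset.sum_eq_single (k, n - k)]
    · simp only [if_true]
      ring
    · intro b hb hne
      rw [Finset.HasAntidiagonal.mem_antidiagonal] at hb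
      rw [if_neg]
      intro h
      apply hne
      ext <;> simp <;> omega
    · intro h
      exact absurd (Finset.HasAntidiagonal.mem_antidiagonal.2 (by simp; omega)) h
    · intro b hb hne
      rw [Finset.HasAntidiagonal.mem_antidiagonal] at hb
      rw [if_neg]
      intro h
      apply hne
      ext <;> simp <;> omega
    · intro h
      exact absurd (Finset.HasAntidiagonal.mem_antidiagonal.2 (by simp; omega)) h
  · rw [Nat.choose_eq_zero_of_lt (by omega)]
    simp

private theorem nsa_it (K : KdVRing A) (j : ℕ) :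
    K.D^[j] (K.D (K.D (K.D K.v)) + 6 * K.v * K.D K.v) =
      K.D^[j + 3] K.v + 3 * K.D^[j + 1] (K.v * K.v) := by
  induction j with
  | zero =>
    simp only [Function.iterate_succ_apply', Function.iterate_zero, id_eq]
    rw [nsa_mul]
    ring
  | succ j ih =>
    rw [Function.iterate_succ_apply', ih, map_add, nsa_d3]
    rw [← Function.iterate_succ_apply' K.D, ← Function.iterate_succ_apply' K.D]

private theorem nsa_eit (K : KdVRing A) (k j : ℕ) :
    K.e k (K.D^[j] (K.D (K.D (K.D K.v)) + 6 * K.v * K.D K.v)) =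
      (if k = j + 3 then 1 else 0) +
        6 * (((j + 1).choose k : ℕ) : A) * K.D^[j + 1 - k] K.v := by
  rw [nsa_it, map_add, nsa_d3, K.e_v, nsa_e0]
  ring

private theorem nsa_eD2 (K : KdVRing A) (k : ℕ) (f : A) :
    K.e (k + 2) (K.D (K.D f)) =
      K.D (K.D (K.e (k + 2) f)) + 2 * K.D (K.e (k + 1) f) + K.e k f := by
  rw [K.e_D, K.e_D, K.e_D, map_add]
  ring

private theorem nsa_eD3 (K : KdVRing A) (k : ℕ) (f : A) :
    K.e (k + 3) (K.D (K.D (K.D f))) =
      K.D (K.D (K.D (K.e (k + 3) f))) + 3 * K.D (K.D (K.e (k + 2) f)) +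
        3 * K.D (K.e (k + 1) f) + K.e k f := by
  rw [K.e_D, nsa_eD2, K.e_D, map_add, map_add]
  rw [K.e_D, K.e_D]
  simp only [map_add]
  have h2 : ∀ y : A, K.D (2 * y) = 2 * K.D y := fun y => by
    rw [two_mul, two_mul, map_add]
  rw [h2]
  ring

private theorem nsa_R (K : KdVRing A) (g : A)
    (hg : K.T g = K.D (K.D (K.D g)) + 6 * K.v * K.D g + 6 * K.D K.v * g)
    (N : ℕ) (hN : ∀ k, N ≤ k → K.e k g = 0) (m : ℕ) (hm : m + 5 ≤ N) :
    3 * K.D (K.e (m + 1) g) = K.T (K.e (m + 3) g) - K.D (K.D (K.D (K.e (m + 3) g)))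
      - 3 * K.D (K.D (K.e (m + 2) g)) - 6 * (K.v * K.D (K.e (m + 3) g))
      + 6 * (((m + 3 : ℕ) : A) * (K.D K.v * K.e (m + 3) g))
      + 6 * ∑ l ∈ Finset.Ico (m + 4) N,
          (((l + 1).choose (m + 3) : ℕ) : A) * (K.D^[l + 1 - (m + 3)] K.v * K.e l g) := by
  have h := congrArg (K.e (m + 3)) hg
  rw [K.e_T (m + 3) (by omega) g N hN] at h
  have hs : ∑ j ∈ Finset.range N,
      K.e (m + 3) (K.D^[j] (K.D (K.D (K.D K.v)) + 6 * K.v * K.D K.v)) * K.e j g =
      K.e m g + 6 * (K.v * K.e (m + 2) g + ((m + 4 : ℕ) : A) * (K.D K.v * K.e (m + 3) g) +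
        ∑ l ∈ Finset.Ico (m + 4) N,
          (((l + 1).choose (m + 3) : ℕ) : A) * (K.D^[l + 1 - (m + 3)] K.v * K.e l g)) := by
    have h1 : ∀ j ∈ Finset.range N,
        K.e (m + 3) (K.D^[j] (K.D (K.D (K.D K.v)) + 6 * K.v * K.D K.v)) * K.e j g =
        (if m = j then K.e j g else 0) + 6 * ((((j + 1).choose (m + 3) : ℕ) : A) *
          (K.D^[j + 1 - (m + 3)] K.v * K.e j g)) := by
      intro j _
      rw [nsa_eit]
      by_cases hmj : m = j
      · rw [if_pos (by omega), if_pos hmj]; ring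
      · rw [if_neg (by omega), if_neg hmj]; ring
    rw [Finset.sum_congr rfl h1, Finset.sum_add_distrib, Finset.sum_ite_eq,
      if_pos (Finset.mem_range.2 (by omega)), ← Finset.mul_sum]
    congr 2
    rw [Finset.range_eq_Ico, ← Finset.sum_Ico_consecutive _ (Nat.zero_le (m + 2)) (by omega),
      Finset.sum_eq_sum_Ico_succ_bot (show m + 2 < N by omega),
      Finset.sum_eq_sum_Ico_succ_bot (show m + 2 + 1 < N by omega)]
    have h0 : ∑ i ∈ Finset.Ico 0 (m + 2), (((i + 1).choose (m + 3) : ℕ) : A) *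
        (K.D^[i + 1 - (m + 3)] K.v * K.e i g) = 0 := by
      apply Finset.sum_eq_zero
      intro i hi
      rw [Finset.mem_Ico] at hi
      rw [Nat.choose_eq_zero_of_lt (by omega)]
      simp
    rw [h0]
    have e1 : m + 2 + 1 = m + 3 := rfl
    have e2 : m + 2 + 1 + 1 = m + 4 := rfl
    have e3 : (m + 3 + 1).choose (m + 3) = m + 4 := by
      rw [Nat.choose_succ_self_right]
    have e4 : m + 3 + 1 - (m + 3) = 1 := by omega
    rw [e1, Nat.choose_self, Nat.sub_self, e3, e4]
    simp only [Function.iterate_zero, id_eq, Function.iterate_one]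
    push_cast
    ring
  rw [hs] at h
  have hv0 : K.e (m + 3) K.v = 0 := by
    have := K.e_v (m + 3) 0
    simpa using this
  have hv1 : K.e (m + 3) (K.D K.v) = 0 := by
    have := K.e_v (m + 3) 1
    simpa using this
  rw [map_add, map_add, nsa_eD3, mul_assoc 6 K.v, nsa_d6, nsa_mul, mul_assoc 6 (K.D K.v),
    nsa_d6, nsa_mul, hv0, hv1, K.e_D] at h
  have h4 : ((m + 4 : ℕ) : A) = ((m + 3 : ℕ) : A) + 1 := by push_cast; ring
  rw [h4] at h
  linear_combination -h

private theorem nsa_step (K : KdVRing A) (g : A)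
    (hg : K.T g = K.D (K.D (K.D g)) + 6 * K.v * K.D g + 6 * K.D K.v * g)
    (N0 : ℕ) (hN0 : ∀ k, N0 ≤ k → K.e k g = 0) (a m : ℕ)
    (h1 : K.e (a + 2) (K.T (K.e (m + 3) g)) =
      K.e (a + 2) (K.D (K.D (K.D (K.e (m + 3) g)))))
    (h2 : K.e (a + 2) (K.e (m + 2) g) = 0)
    (h2' : K.D (K.e (a + 1) (K.e (m + 2) g)) = 0)
    (h3 : K.e (a + 2) (K.e (m + 3) g) = 0)
    (h3' : K.e (a + 1) (K.e (m + 3) g) = 0)
    (h4 : ∀ l, m + 4 ≤ l → K.e (a + 2) (K.e l g) = 0)
    (h5 : K.D (K.e (a + 2) (K.e (m + 1) g)) = 0) :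
    3 * K.e (a + 1) (K.e (m + 1) g) = - 3 * K.e a (K.e (m + 2) g) +
      6 * (((a + m + 5).choose (m + 3) : ℕ) : A) * K.e (a + m + 4) g := by
  have hR := nsa_R K g hg (N0 + a + m + 5) (fun k hk => hN0 k (by omega)) m (by omega)
  have h := congrArg (K.e (a + 2)) hR
  have hv0 : K.e (a + 2) K.v = 0 := by
    have := K.e_v (a + 2) 0
    simpa using this
  have hv1 : K.e (a + 2) (K.D K.v) = 0 := by
    have := K.e_v (a + 2) 1
    simpa using this
  have hs : K.e (a + 2) (∑ l ∈ Finset.Ico (m + 4) (N0 + a + m + 5),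
          (((l + 1).choose (m + 3) : ℕ) : A) * (K.D^[l + 1 - (m + 3)] K.v * K.e l g)) =
      (((a + m + 5).choose (m + 3) : ℕ) : A) * K.e (a + m + 4) g := by
    rw [map_sum]
    have h6 : ∀ l ∈ Finset.Ico (m + 4) (N0 + a + m + 5),
        K.e (a + 2) ((((l + 1).choose (m + 3) : ℕ) : A) *
          (K.D^[l + 1 - (m + 3)] K.v * K.e l g)) =
        if a + m + 4 = l then (((a + m + 5).choose (m + 3) : ℕ) : A) * K.e (a + m + 4) g
          else 0 := by
      intro l hl
      rw [Finset.mem_Ico] at hl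
      rw [nsa_dn, nsa_mul, h4 l hl.1, K.e_v]
      by_cases hc : a + m + 4 = l
      · rw [if_pos (by omega), if_pos hc, ← hc]; ring
      · rw [if_neg (by omega), if_neg hc]; ring
    rw [Finset.sum_congr rfl h6, Finset.sum_ite_eq]
    by_cases hc : a + m + 4 ∈ Finset.Ico (m + 4) (N0 + a + m + 5)
    · rw [if_pos hc]
    · exact absurd (Finset.mem_Ico.2 ⟨by omega, by omega⟩) hc
  have eD : ∀ f, K.e (a + 2) (K.D f) = K.D (K.e (a + 2) f) + K.e (a + 1) f :=
    fun f => K.e_D (a + 1) f
  rw [map_add, map_add, map_sub, map_sub, map_sub, nsa_d3, nsa_d3, nsa_d6, nsa_d6, nsa_d6,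
    eD (K.e (m + 1) g), hs, h1, nsa_eD2 K a (K.e (m + 2) g), nsa_mul, nsa_dn, nsa_mul,
    eD (K.e (m + 3) g), h2, h2', h3, h3', h5, hv0, hv1] at h
  simp only [map_zero] at h
  linear_combination h

private theorem nsa_TD (K : KdVRing A) (f : A) (b : ℕ) (h : ∀ l, b + 2 ≤ l → K.e l f = 0)
    (h' : K.D (K.e (b + 1) f) = 0) :
    K.e (b + 3) (K.T f) = K.e (b + 3) (K.D (K.D (K.D f))) := by
  rw [nsa_eD3, h (b + 3) (by omega), h (b + 2) (by omega), h']
  rw [K.e_T (b + 3) (by omega) f (b + 2) h, h (b + 3) (by omega)]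
  have h1 : ∀ j ∈ Finset.range (b + 2),
      K.e (b + 3) (K.D^[j] (K.D (K.D (K.D K.v)) + 6 * K.v * K.D K.v)) * K.e j f =
      (if b = j then K.e j f else 0) := by
    intro j hj
    rw [Finset.mem_range] at hj
    rw [nsa_eit, Nat.choose_eq_zero_of_lt (show j + 1 < b + 3 by omega)]
    by_cases hbj : b = j
    · rw [if_pos (by omega), if_pos hbj]; simp
    · rw [if_neg (by omega), if_neg hbj]; simp
  rw [Finset.sum_congr rfl h1, Finset.sum_ite_eq, if_pos (Finset.mem_range.2 (by omega))]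
  simp

theorem KdVRing.topCoefficients (K : KdVRing A) (g : A)
    (hg : K.T g = K.D (K.D (K.D g)) + 6 * K.v * K.D g + 6 * K.D K.v * g)
    (s : ℕ) (hord : ∀ k, s + 4 < k → K.e k g = 0) :
    ∃ c c' d : ℝ,
      K.e (s + 4) g = algebraMap ℝ A c ∧
      K.e (s + 3) g = algebraMap ℝ A c' ∧
      K.e (s + 2) g = algebraMap ℝ A (2 * (s + 4 : ℕ) * c) * K.v + algebraMap ℝ A d ∧
      (∀ i j, 1 ≤ j → s + 2 < i + j → K.e i (K.e j g) = 0) ∧
      (∀ i j, 1 ≤ j → i + j = s + 2 →
        K.e i (K.e j g) = algebraMap ℝ A (2 * c * ((s + 4).choose (j + 1) : ℕ))) ∧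
      (c' = 0 → ∀ i j, 1 ≤ j → i + j = s + 1 → K.e i (K.e j g) = 0) := by
  classical
  have hN0 : ∀ k, s + 5 ≤ k → K.e k g = 0 := fun k hk => hord k (by omega)
  have hN : ∀ m k, s + 5 + m + 5 ≤ k → K.e k g = 0 := fun m k hk => hord k (by omega)
  -- (2)
  have hsum0 : ∀ m M, s + 1 ≤ m → ∑ l ∈ Finset.Ico (m + 4) M,
          (((l + 1).choose (m + 3) : ℕ) : A) * (K.D^[l + 1 - (m + 3)] K.v * K.e l g) = 0 := by
    intro m M hm
    apply Finset.sum_eq_zero
    intro l hl
    rw [Finset.mem_Ico] at hl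
    rw [hord l (by omega)]
    simp
  obtain ⟨c, hc⟩ : ∃ c : ℝ, K.e (s + 4) g = algebraMap ℝ A c := by
    apply K.const
    apply nsa_three
    have h := nsa_R K g hg _ (hN (s + 3)) (s + 3) (by omega)
    rw [hsum0 (s + 3) _ (by omega), hord (s + 3 + 3) (by omega), hord (s + 3 + 2) (by omega)] at h
    rw [h]
    simp
  obtain ⟨c', hc'⟩ : ∃ c : ℝ, K.e (s + 3) g = algebraMap ℝ A c := by
    apply K.const
    apply nsa_three
    have h := nsa_R K g hg _ (hN (s + 2)) (s + 2) (by omega)
    have e1 : s + 2 + 2 = s + 4 := rfl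
    rw [hsum0 (s + 2) _ (by omega), hord (s + 2 + 3) (by omega), e1, hc, nsa_alg] at h
    rw [h]
    simp
  obtain ⟨d, hd⟩ : ∃ d : ℝ, K.e (s + 2) g =
      algebraMap ℝ A (2 * (s + 4 : ℕ) * c) * K.v + algebraMap ℝ A d := by
    obtain ⟨d, hd⟩ := K.const (K.e (s + 2) g - algebraMap ℝ A (2 * (s + 4 : ℕ) * c) * K.v) (by
      apply nsa_three
      have h := nsa_R K g hg _ (hN (s + 1)) (s + 1) (by omega)
      have e1 : s + 1 + 3 = s + 4 := rfl
      have e2 : s + 1 + 2 = s + 3 := rfl
      have e3 : s + 1 + 1 = s + 2 := rfl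
      rw [hsum0 (s + 1) _ (by omega), e1, e2, e3, hc, hc', nsa_alg, nsa_alg, nsa_alg] at h
      rw [map_sub, nsa_dc, mul_sub, h]
      simp only [map_zero, map_mul, map_ofNat, map_natCast]
      ring)
    exact ⟨d, by rw [← hd]; ring⟩
  have hv : ∀ i, 1 ≤ i → K.e i K.v = 0 := by
    intro i hi
    have := K.e_v i 0
    rw [if_neg (by omega)] at this
    simpa using this
  have hv00 : K.e 0 K.v = 1 := by
    have := K.e_v 0 0
    simpa using this
  -- (3)
  have key3 : ∀ t j, 1 ≤ j → s + 2 ≤ j + t → ∀ i, s + 2 < i + j → K.e i (K.e j g) = 0 := by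
    intro t
    induction t with
    | zero =>
      intro j hj1 hj2 i hij
      rcases Nat.lt_or_ge (s + 4) j with h | h
      · rw [hord j h, map_zero]
      · have hj : j = s + 2 ∨ j = s + 3 ∨ j = s + 4 := by omega
        rcases hj with rfl | rfl | rfl
        · rw [hd, map_add, nsa_dc, nsa_alg, hv i (by omega)]; simp
        · rw [hc', nsa_alg]
        · rw [hc, nsa_alg]
    | succ t ih =>
      intro j hj1 hj2
      by_cases hjt : s + 2 ≤ j + t
      · exact ih j hj1 hjt
      · obtain ⟨N, hN⟩ := K.e_fin (K.e j g)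
        have key : ∀ u i, N ≤ i + u → s + 2 < i + j → K.e i (K.e j g) = 0 := by
          intro u
          induction u with
          | zero => intro i hi _; exact hN i (by omega)
          | succ u ihu =>
            intro i hi hij
            obtain ⟨b, rfl⟩ : ∃ b, i = b + 2 := ⟨i - 2, by omega⟩
            obtain ⟨m, rfl⟩ : ∃ m, j = m + 1 := ⟨j - 1, by omega⟩
            have h0 := ihu (b + 3) (by omega) (by omega)
            have hst := nsa_step K g hg (s + 5) hN0 (b + 1) m
              (nsa_TD K _ b (fun l hl => ih (m + 3) (by omega) (by omega) l (by omega))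
                (by rw [ih (m + 3) (by omega) (by omega) (b + 1) (by omega), map_zero]))
              (ih (m + 2) (by omega) (by omega) (b + 3) (by omega))
              (by rw [ih (m + 2) (by omega) (by omega) (b + 1 + 1) (by omega), map_zero])
              (ih (m + 3) (by omega) (by omega) (b + 3) (by omega))
              (ih (m + 3) (by omega) (by omega) (b + 1 + 1) (by omega))
              (fun l hl => ih l (by omega) (by omega) (b + 3) (by omega))
              (by rw [h0, map_zero])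
            rw [ih (m + 2) (by omega) (by omega) (b + 1) (by omega),
              hord (b + 1 + m + 4) (by omega)] at hst
            apply nsa_three
            rw [hst]
            simp
        intro i hij
        exact key N i (by omega) hij
  have h3 : ∀ i j, 1 ≤ j → s + 2 < i + j → K.e i (K.e j g) = 0 := by
    intro i j hj hij
    exact key3 (s + 2) j hj (by omega) i hij
  -- (4)
  have h4 : ∀ i j, 1 ≤ j → i + j = s + 2 →
        K.e i (K.e j g) = algebraMap ℝ A (2 * c * ((s + 4).choose (j + 1) : ℕ)) := by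
    intro i
    induction i with
    | zero =>
      intro j hj hij
      have hj' : j = s + 2 := by omega
      subst hj'
      have e1 : (s + 4).choose (s + 2 + 1) = s + 4 := Nat.choose_succ_self_right (s + 3)
      rw [hd, map_add, nsa_dc, nsa_alg, hv00, e1]
      simp only [map_mul, map_ofNat, map_natCast]
      ring
    | succ a ih =>
      intro j hj hij
      obtain ⟨m, rfl⟩ : ∃ m, j = m + 1 := ⟨j - 1, by omega⟩
      have hTD : K.e (a + 2) (K.T (K.e (m + 3) g)) =
          K.e (a + 2) (K.D (K.D (K.D (K.e (m + 3) g)))) := by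
        rcases Nat.eq_zero_or_pos a with h0 | h0
        · have e1 : m + 3 = s + 3 := by omega
          rw [e1, hc', nsa_alg, nsa_alg]
          simp
        · obtain ⟨b, rfl⟩ : ∃ b, a = b + 1 := ⟨a - 1, by omega⟩
          exact nsa_TD K _ b (fun l hl => h3 l (m + 3) (by omega) (by omega))
            (by rw [h3 (b + 1) (m + 3) (by omega) (by omega), map_zero])
      have hst := nsa_step K g hg (s + 5) hN0 a m hTD
        (h3 (a + 2) (m + 2) (by omega) (by omega))
        (by rw [h3 (a + 1) (m + 2) (by omega) (by omega), map_zero])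
        (h3 (a + 2) (m + 3) (by omega) (by omega))
        (h3 (a + 1) (m + 3) (by omega) (by omega))
        (fun l hl => h3 (a + 2) l (by omega) (by omega))
        (by rw [h3 (a + 2) (m + 1) (by omega) (by omega), map_zero])
      have e1 : a + m + 4 = s + 4 := by omega
      have e2 : a + m + 5 = s + 5 := by omega
      rw [ih (m + 2) (by omega) (by omega), e1, e2, hc] at hst
      have e3 : (s + 5).choose (m + 3) = (s + 4).choose (m + 2) + (s + 4).choose (m + 3) :=
        Nat.choose_succ_succ (s + 4) (m + 2)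
      have e4 : m + 2 + 1 = m + 3 := rfl
      have e5 : m + 1 + 1 = m + 2 := rfl
      rw [e3, e4] at hst
      rw [e5]
      rw [← sub_eq_zero]
      apply nsa_three
      rw [mul_sub, hst]
      simp only [map_mul, map_ofNat, map_natCast]
      push_cast
      ring
  refine ⟨c, c', d, hc, hc', hd, h3, h4, ?_⟩
  intro hc0 i
  rw [hc0, map_zero] at hc'
  induction i with
  | zero =>
    intro j hj hij
    have hj' : j = s + 1 := by omega
    subst hj'
    have h := nsa_R K g hg _ (hN s) s (by omega)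
    have hs : ∑ l ∈ Finset.Ico (s + 4) (s + 5 + s + 5),
          (((l + 1).choose (s + 3) : ℕ) : A) * (K.D^[l + 1 - (s + 3)] K.v * K.e l g) =
        (((s + 5).choose (s + 3) : ℕ) : A) * (K.D (K.D K.v) * algebraMap ℝ A c) := by
      rw [Finset.sum_eq_sum_Ico_succ_bot (by omega)]
      rw [Finset.sum_eq_zero (s := Finset.Ico (s + 4 + 1) (s + 5 + s + 5))]
      · have e1 : s + 4 + 1 - (s + 3) = 2 := by omega
        rw [e1, hc]
        simp [Function.iterate_succ_apply']
      · intro l hl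
        rw [Finset.mem_Ico] at hl
        rw [hord l (by omega)]
        simp
    rw [hs, hc', hd] at h
    obtain ⟨w, hw⟩ := K.const (K.e (s + 1) g - algebraMap ℝ A
      (2 * (((s + 5).choose (s + 3) : ℕ) : ℝ) * c - 2 * (s + 4 : ℕ) * c) * K.D K.v) (by
      apply nsa_three
      rw [map_sub, nsa_dc, mul_sub, h]
      simp only [map_zero, map_add, map_sub, nsa_dc, nsa_alg]
      simp only [map_mul, map_ofNat, map_natCast]
      ring)
    have h6 : K.e (s + 1) g = algebraMap ℝ A w + algebraMap ℝ A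
      (2 * (((s + 5).choose (s + 3) : ℕ) : ℝ) * c - 2 * (s + 4 : ℕ) * c) * K.D K.v := by
      rw [← hw]; ring
    have h7 : K.e 0 (K.D K.v) = 0 := by
      have := K.e_v 0 1
      simpa using this
    rw [h6, map_add, nsa_alg, nsa_dc, h7]
    simp
  | succ a ih =>
    intro j hj hij
    obtain ⟨m, rfl⟩ : ∃ m, j = m + 1 := ⟨j - 1, by omega⟩
    have hconst : ∀ i j, 1 ≤ j → i + j = s + 2 → K.D (K.e i (K.e j g)) = 0 := by
      intro i j hj hij
      rw [h4 i j hj hij, nsa_alg]
    have hTD : K.e (a + 2) (K.T (K.e (m + 3) g)) =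
        K.e (a + 2) (K.D (K.D (K.D (K.e (m + 3) g)))) := by
      rcases Nat.eq_zero_or_pos a with h0 | h0
      · have e1 : m + 3 = s + 2 := by omega
        subst h0
        have hv1 : K.e 2 (K.D K.v) = 0 := by
          have := K.e_v 2 1
          simpa using this
        have hv3 : K.e 2 (K.D (K.D (K.D K.v))) = 0 := by
          have := K.e_v 2 3
          simpa [Function.iterate_succ_apply'] using this
        have h6 : K.e 2 (6 * K.v * K.D K.v) = 0 := by
          rw [mul_assoc, nsa_d6, nsa_mul, hv1, hv 2 (by omega)]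
          ring
        rw [e1, hd, map_add, nsa_dc, nsa_alg, add_zero, nsa_dc, K.T_v, Nat.zero_add, map_add,
          hv3, h6]
        simp only [map_add, nsa_alg, nsa_dc, add_zero, hv3]
      · obtain ⟨b, rfl⟩ : ∃ b, a = b + 1 := ⟨a - 1, by omega⟩
        exact nsa_TD K _ b (fun l hl => h3 l (m + 3) (by omega) (by omega))
          (hconst (b + 1) (m + 3) (by omega) (by omega))
    have hst := nsa_step K g hg (s + 5) hN0 a m hTD
      (h3 (a + 2) (m + 2) (by omega) (by omega))
      (hconst (a + 1) (m + 2) (by omega) (by omega))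
      (h3 (a + 2) (m + 3) (by omega) (by omega))
      (h3 (a + 1) (m + 3) (by omega) (by omega))
      (fun l hl => h3 (a + 2) l (by omega) (by omega))
      (hconst (a + 2) (m + 1) (by omega) (by omega))
    have e1 : a + m + 4 = s + 3 := by omega
    rw [ih (m + 2) (by omega) (by omega), e1, hc'] at hst
    apply nsa_three
    rw [hst]
    simp

end Pool.Agent.Lib.MP_3c6722_mp
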