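import Pool.Agent.Lib.MP_3c6722_mp.NoSymA

/-!
# MP_3c6722_mp, module NoSymB: no symmetry of order at least 4 with both potentials

Proof. Suppose `e k g ≠ 0` for some `k ≥ 4`; by `e_fin` let `r = s + 4` be the largest such `k` and apply
`topCoefficients` (constants `c, c', d`; `M(i,j) = 2 c C(r,j+1)`). We show `c = 0`, a contradiction.
p-level: `p_j := e j p`. Applying `e (j+1)` to `hp`: `p_j = v g_{j+1} - D p_{j+1}` (`j ≥ 0`), and `p_j = 0` for `j ≥ r`
(downward, `e_fin`). So `p_{r-1} = c v`, `p_{r-2} = c' v - c v_1`. Downward induction: `e i p_j = 0` if `i + j > r - 1`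
(`i ≥ 1`: `e i p_j = v e_i g_{j+1} - D e_i p_{j+1} - e_{i-1} p_{j+1}`). For `i + j = r - 1`, `i ≥ 1`:
`e i p_j = - e_{i-1} p_{j+1}` and `e 0 p_{r-1} = c`, so `e i p_{r-1-i} = (-1)^i c`. By `e_comm`:
`c = e 0 p_{r-1} = e_{r-1} p_0 = (-1)^(r-1) c`; so `c = 0` if `r` is even.
`i + j = r - 2`: `e 0 p_{r-2} = c'`, `e i p_j = - e_{i-1} p_{j+1}` for `i ≥ 1` (`D` of the constant `e_i p_{j+1}` is 0), so
`c' = (-1)^(r-2) c'`: `c' = 0` if `r` is odd.
q-level, `r` odd (`r ≥ 5`), `c' = 0`: `q_j := e j q = x g_{j+1} - D q_{j+1}`, `q_j = 0` for `j ≥ r`, `q_{r-1} = c x`,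
`q_{r-2} = c' x - c = -c`, `q_{r-3} = x g_{r-2} - c'= x g_{r-2}`. `e i q_j = 0` if `i + j > r - 3`.
`i + j = r - 3`: `e i q_j = x T_i` with `T_0 = 2 r c`, `T_i = M(i, r-2-i) - T_{i-1} = 2 c C(r,i+1) - T_{i-1}` for `i ≥ 1`, so
`T_i = 2 c (C(r-1,i+1) + (-1)^i)`.
`i + j = r - 4`: `s_i := e i q_{r-4-i}`: `q_{r-4} = x g_{r-3} - D (x g_{r-2})`, `s_0 = 0 - 2 r c` ; for `i ≥ 1`
`s_i = x e_i g_{r-3-i} - D (x T_i) - s_{i-1} = - T_i - s_{i-1}` (by (5) of NoSymA); so
`s_i = 2 c (- C(r-2,i+1) - (-1)^i (i+2))`. By `e_comm` `s_0 = s_{r-4}`: `- 2 r c = 2 c (-(r-2) + (r-2)) = 0`, so `c = 0`.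
-/

namespace Pool.Agent.Lib.MP_3c6722_mp

variable {A : Type*} [CommRing A] [Algebra ℝ A]

private theorem nb_step (K : KdVRing A) {w F g : A} (hF : K.D F = w * g)
    (hw : ∀ k, K.e (k + 1) w = 0) (j : ℕ) :
    K.e j F = w * K.e (j + 1) g - K.D (K.e (j + 1) F) := by
  have h1 := K.e_D j F
  rw [hF, Derivation.leibniz, hw, smul_zero, add_zero, smul_eq_mul] at h1
  linear_combination -h1

private theorem nb_step2 (K : KdVRing A) {w F g : A} (hF : K.D F = w * g)
    (hw : ∀ k, K.e (k + 1) w = 0) (i j : ℕ) :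
    K.e (i + 1) (K.e j F) = w * K.e (i + 1) (K.e (j + 1) g) -
      K.D (K.e (i + 1) (K.e (j + 1) F)) - K.e i (K.e (j + 1) F) := by
  have h1 := K.e_D i (K.e (j + 1) F)
  rw [nb_step K hF hw j, map_sub, Derivation.leibniz, hw, smul_zero, add_zero, smul_eq_mul, h1]
  ring

private theorem nb_large (K : KdVRing A) {w F g : A} (hF : K.D F = w * g)
    (hw : ∀ k, K.e (k + 1) w = 0) {R : ℕ} (hord : ∀ k, R < k → K.e k g = 0) :
    ∀ j, R ≤ j → K.e j F = 0 := by
  obtain ⟨N, hN⟩ := K.e_fin F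
  have key : ∀ m j, R ≤ j → N ≤ j + m → K.e j F = 0 := by
    intro m
    induction m with
    | zero => exact fun j _ h => hN j h
    | succ m ih =>
      intro j hj h
      rw [nb_step K hF hw j, hord (j + 1) (by omega), ih (j + 1) (by omega) (by omega), map_zero,
        mul_zero, sub_zero]
  exact fun j hj => key N j hj (by omega)

private theorem nb_alg (K : KdVRing A) (k : ℕ) (c : ℝ) : K.e k (algebraMap ℝ A c) = 0 :=
  (K.e k).map_algebraMap c

private theorem nb_algD (K : KdVRing A) (c : ℝ) : K.D (algebraMap ℝ A c) = 0 :=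
  K.D.map_algebraMap c

private theorem nb_ev (K : KdVRing A) (k : ℕ) : K.e (k + 1) K.v = 0 := by
  have h := K.e_v (k + 1) 0
  rwa [if_neg (by omega)] at h

private theorem nb_ev0 (K : KdVRing A) : K.e 0 K.v = 1 := by
  have h := K.e_v 0 0
  rwa [if_pos rfl] at h

private theorem nb_ev1 (K : KdVRing A) : K.e 0 (K.D K.v) = 0 := by
  have h := K.e_v 0 1
  rwa [if_neg (by omega)] at h

/-- the p-level -/
private theorem nb_p (K : KdVRing A) {g p : A} (hp : K.D p = K.v * g) {s : ℕ} {c c' : ℝ}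
    (hord : ∀ k, s + 4 < k → K.e k g = 0)
    (h1 : K.e (s + 4) g = algebraMap ℝ A c) (h2 : K.e (s + 3) g = algebraMap ℝ A c')
    (h4 : ∀ i j, 1 ≤ j → s + 2 < i + j → K.e i (K.e j g) = 0) :
    algebraMap ℝ A c = (-1) ^ (s + 3) * algebraMap ℝ A c ∧
      algebraMap ℝ A c' = (-1) ^ (s + 2) * algebraMap ℝ A c' := by
  have hw := nb_ev K
  have hlarge := nb_large K hp hw hord
  have p1 : K.e (s + 3) p = algebraMap ℝ A c * K.v := by
    rw [nb_step K hp hw, h1, hlarge (s + 4) le_rfl, map_zero, sub_zero, mul_comm]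
  have p2 : K.e (s + 2) p = algebraMap ℝ A c' * K.v - algebraMap ℝ A c * K.D K.v := by
    rw [nb_step K hp hw, h2, p1, Derivation.leibniz, nb_algD, smul_zero, add_zero, smul_eq_mul]
    ring
  -- zeros
  have hz : ∀ m j, s + 4 ≤ j + m → ∀ i, s + 3 < i + j → K.e i (K.e j p) = 0 := by
    intro m
    induction m with
    | zero =>
      intro j hj i _
      rw [hlarge j hj, map_zero]
    | succ m ih =>
      intro j hj i hi
      rcases Nat.lt_or_ge j (s + 4) with hjs | hjs
      · obtain ⟨i, rfl⟩ : ∃ i', i = i' + 1 := ⟨i - 1, by omega⟩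
        rw [nb_step2 K hp hw, h4 (i + 1) (j + 1) (by omega) (by omega),
          ih (j + 1) (by omega) (i + 1) (by omega), ih (j + 1) (by omega) i (by omega), map_zero]
        ring
      · rw [hlarge j hjs, map_zero]
  have hz' : ∀ i j, s + 3 < i + j → K.e i (K.e j p) = 0 := fun i j h =>
    hz (s + 4) j (by omega) i h
  -- level r - 1
  have hA : ∀ i, i ≤ s + 3 → K.e i (K.e (s + 3 - i) p) = (-1) ^ i * algebraMap ℝ A c := by
    intro i
    induction i with
    | zero =>
      intro _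
      rw [Nat.sub_zero, p1, Derivation.leibniz, nb_alg, nb_ev0, smul_zero, add_zero, smul_eq_mul]
      ring
    | succ i ih =>
      intro hi
      have e1 : s + 3 - (i + 1) + 1 = s + 3 - i := by omega
      rw [nb_step2 K hp hw, h4 (i + 1) _ (by omega) (by omega), hz' (i + 1) _ (by omega), e1,
        ih (by omega), map_zero]
      ring
  -- level r - 2
  have hB : ∀ i, i ≤ s + 2 → K.e i (K.e (s + 2 - i) p) = (-1) ^ i * algebraMap ℝ A c' := by
    intro i
    induction i with
    | zero =>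
      intro _
      rw [Nat.sub_zero, p2, map_sub, Derivation.leibniz, Derivation.leibniz, nb_alg, nb_alg, nb_ev0,
        nb_ev1, smul_zero, smul_zero, smul_zero, add_zero, add_zero, sub_zero, smul_eq_mul]
      ring
    | succ i ih =>
      intro hi
      have e1 : s + 2 - (i + 1) + 1 = s + 2 - i := by omega
      have e2 : s + 2 - i = s + 3 - (i + 1) := by omega
      rw [nb_step2 K hp hw, h4 (i + 1) _ (by omega) (by omega), e1, ih (by omega), e2,
        hA (i + 1) (by omega), Derivation.leibniz, nb_algD]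
      have e3 : K.D ((-1 : A) ^ (i + 1)) = 0 := by
        have : ((-1 : A) ^ (i + 1)) = algebraMap ℝ A ((-1) ^ (i + 1)) := by
          rw [map_pow, map_neg, map_one]
        rw [this, nb_algD]
      rw [e3]
      simp only [smul_zero, add_zero, mul_zero, sub_zero]
      ring
  constructor
  · have k1 := hA 0 (by omega)
    have k2 := hA (s + 3) le_rfl
    rw [Nat.sub_self, ← K.e_comm] at k2
    rw [Nat.sub_zero, k2, pow_zero, one_mul] at k1
    exact k1.symm
  · have k1 := hB 0 (by omega)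
    have k2 := hB (s + 2) le_rfl
    rw [Nat.sub_self, ← K.e_comm] at k2
    rw [Nat.sub_zero, k2, pow_zero, one_mul] at k1
    exact k1.symm

/-- the q-level -/
private theorem nb_q (K : KdVRing A) {g q : A} (hq : K.D q = K.x * g) {s : ℕ} {c d : ℝ}
    (hs : Odd s) (hord : ∀ k, s + 4 < k → K.e k g = 0)
    (h1 : K.e (s + 4) g = algebraMap ℝ A c) (h2 : K.e (s + 3) g = 0)
    (h3 : K.e (s + 2) g = algebraMap ℝ A (2 * (s + 4 : ℕ) * c) * K.v + algebraMap ℝ A d)
    (h4 : ∀ i j, 1 ≤ j → s + 2 < i + j → K.e i (K.e j g) = 0)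
    (h5 : ∀ i j, 1 ≤ j → i + j = s + 2 →
        K.e i (K.e j g) = algebraMap ℝ A (2 * c * ((s + 4).choose (j + 1) : ℕ)))
    (h6 : ∀ i j, 1 ≤ j → i + j = s + 1 → K.e i (K.e j g) = 0) :
    algebraMap ℝ A (2 * (s + 4 : ℕ) * c) = 0 := by
  have hw : ∀ k, K.e (k + 1) K.x = 0 := fun k => K.e_x _
  have hlarge := nb_large K hq hw hord
  have q1 : K.e (s + 3) q = algebraMap ℝ A c * K.x := by
    rw [nb_step K hq hw, h1, hlarge (s + 4) le_rfl, map_zero, sub_zero, mul_comm]
  have q2 : K.e (s + 2) q = -algebraMap ℝ A c := by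
    rw [nb_step K hq hw, h2, q1, Derivation.leibniz, nb_algD, K.D_x, smul_zero, add_zero,
      smul_eq_mul]
    ring
  have q3 : K.e (s + 1) q = K.x * K.e (s + 2) g := by
    rw [nb_step K hq hw, q2, map_neg, nb_algD, neg_zero, sub_zero]
  have hz : ∀ m j, s + 4 ≤ j + m → ∀ i, s + 1 < i + j → K.e i (K.e j q) = 0 := by
    intro m
    induction m with
    | zero =>
      intro j hj i _
      rw [hlarge j hj, map_zero]
    | succ m ih =>
      intro j hj i hi
      rcases Nat.lt_or_ge j (s + 2) with hjs | hjs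
      · obtain ⟨i, rfl⟩ : ∃ i', i = i' + 1 := ⟨i - 1, by omega⟩
        rw [nb_step2 K hq hw, h4 (i + 1) (j + 1) (by omega) (by omega),
          ih (j + 1) (by omega) (i + 1) (by omega), ih (j + 1) (by omega) i (by omega), map_zero]
        ring
      · rcases Nat.lt_or_ge j (s + 4) with hj4 | hj4
        · obtain rfl | rfl : j = s + 2 ∨ j = s + 3 := by omega
          · rw [q2, map_neg, nb_alg, neg_zero]
          · rw [q1, Derivation.leibniz, nb_alg, K.e_x, smul_zero, smul_zero, add_zero]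
        · rw [hlarge j hj4, map_zero]
  have hz' : ∀ i j, s + 1 < i + j → K.e i (K.e j q) = 0 := fun i j h =>
    hz (s + 4) j (by omega) i h
  -- level r - 3
  have hT : ∀ i, i ≤ s + 1 → K.e i (K.e (s + 1 - i) q) =
      algebraMap ℝ A (2 * c * ((s + 3).choose (i + 1) + (-1) ^ i)) * K.x := by
    intro i
    induction i with
    | zero =>
      intro _
      rw [Nat.sub_zero, q3, h3, Derivation.leibniz, map_add, Derivation.leibniz, nb_alg, nb_alg,
        nb_ev0, K.e_x, smul_zero, smul_zero, add_zero, add_zero, add_zero, smul_eq_mul,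
        smul_eq_mul, mul_one, zero_add, Nat.choose_one_right, pow_zero, mul_comm]
      congr 2
      push_cast
      ring
    | succ i ih =>
      intro hi
      have e1 : s + 1 - (i + 1) + 1 = s + 1 - i := by omega
      have e2 : (s + 4).choose (s + 1 - (i + 1) + 1 + 1) = (s + 4).choose (i + 2) := by
        rw [← Nat.choose_symm (show i + 2 ≤ s + 4 by omega)]
        congr 1
        omega
      have e3 : (s + 4).choose (i + 2) = (s + 3).choose (i + 1) + (s + 3).choose (i + 2) :=
        Nat.choose_succ_succ _ _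
      rw [nb_step2 K hq hw, h5 (i + 1) _ (by omega) (by omega), hz' (i + 1) _ (by omega), e2, e1,
        ih (by omega), map_zero, sub_zero, mul_comm K.x, ← sub_mul, ← map_sub]
      congr 2
      rw [e3]
      push_cast
      ring
  -- level r - 4
  have hS : ∀ i, i ≤ s → K.e i (K.e (s - i) q) =
      algebraMap ℝ A (2 * c * (-((s + 2).choose (i + 1)) - (-1) ^ i * (i + 2))) := by
    intro i
    induction i with
    | zero =>
      intro _
      have e4 : K.D (K.x * (algebraMap ℝ A (2 * (s + 4 : ℕ) * c) * K.v + algebraMap ℝ A d)) =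
          K.x * (algebraMap ℝ A (2 * (s + 4 : ℕ) * c) * K.D K.v) +
            (algebraMap ℝ A (2 * (s + 4 : ℕ) * c) * K.v + algebraMap ℝ A d) := by
        rw [Derivation.leibniz, K.D_x, map_add, Derivation.leibniz, nb_algD, nb_algD]
        simp only [smul_eq_mul, mul_zero, mul_one, add_zero]
      have e5 : K.e 0 (K.x * (algebraMap ℝ A (2 * (s + 4 : ℕ) * c) * K.D K.v) +
            (algebraMap ℝ A (2 * (s + 4 : ℕ) * c) * K.v + algebraMap ℝ A d)) =
          algebraMap ℝ A (2 * (s + 4 : ℕ) * c) := by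
        rw [map_add, Derivation.leibniz, K.e_x, Derivation.leibniz, nb_alg, nb_ev1, map_add,
          Derivation.leibniz, nb_alg, nb_alg, nb_ev0]
        simp only [smul_eq_mul, mul_zero, mul_one, add_zero, zero_add]
      rw [Nat.sub_zero, nb_step K hq hw, map_sub, Derivation.leibniz, h6 0 (s + 1) (by omega)
        (by omega), K.e_x, q3, h3, e4, e5, smul_zero, smul_zero, add_zero, zero_sub, ← map_neg,
        zero_add, Nat.choose_one_right, pow_zero]
      congr 1
      push_cast
      ring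
    | succ i ih =>
      intro hi
      have e1 : s - (i + 1) + 1 = s - i := by omega
      have e2 : s - i = s + 1 - (i + 1) := by omega
      have e3 : (s + 3).choose (i + 2) = (s + 2).choose (i + 1) + (s + 2).choose (i + 2) :=
        Nat.choose_succ_succ _ _
      rw [nb_step2 K hq hw, h6 (i + 1) _ (by omega) (by omega), e1, ih (by omega), e2,
        hT (i + 1) (by omega), Derivation.leibniz, nb_algD, K.D_x, smul_zero, add_zero, smul_eq_mul,
        mul_one, mul_zero, zero_sub, ← map_neg, ← map_sub]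
      congr 1
      rw [e3]
      push_cast
      ring
  have k1 := hS 0 (by omega)
  have k2 := hS s le_rfl
  rw [Nat.sub_self, ← K.e_comm] at k2
  rw [Nat.sub_zero, k2] at k1
  have e1 : (s + 2).choose (s + 1) = s + 2 := by
    rw [Nat.choose_succ_self_right]
  rw [e1, hs.neg_one_pow] at k1
  have e2 : (2 * c * (-((s + 2 : ℕ) : ℝ) - -1 * ((s : ℝ) + 2))) = 0 := by
    push_cast
    ring
  rw [e2, map_zero] at k1
  have e3 : (2 * ((s + 4 : ℕ) : ℝ) * c) =
      -(2 * c * (-((s + 2).choose (0 + 1) : ℝ) - (-1) ^ 0 * (((0 : ℕ) : ℝ) + 2))) := by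
    rw [zero_add, Nat.choose_one_right]
    push_cast
    ring
  rw [e3, map_neg, ← k1, neg_zero]

theorem KdVRing.noSymmetry [Nontrivial A] (K : KdVRing A) (g p q : A)
    (hg : K.T g = K.D (K.D (K.D g)) + 6 * K.v * K.D g + 6 * K.D K.v * g)
    (hp : K.D p = K.v * g) (hq : K.D q = K.x * g) :
    ∀ k, 4 ≤ k → K.e k g = 0 := by
  by_contra hcon
  push Not at hcon
  obtain ⟨k0, hk0, hk0'⟩ := hcon
  obtain ⟨N, hN⟩ := K.e_fin g
  -- the largest index
  obtain ⟨r, hr4, hr, hmax⟩ : ∃ r, 4 ≤ r ∧ K.e r g ≠ 0 ∧ ∀ k, r < k → K.e k g = 0 := by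
    classical
    have hex : ∃ n, ∀ k, n < k → K.e k g = 0 := ⟨N, fun k hk => hN k hk.le⟩
    have hspec := Nat.find_spec hex
    have hk0le : k0 ≤ Nat.find hex := by
      by_contra hlt
      exact hk0' (hspec k0 (by omega))
    refine ⟨Nat.find hex, by omega, ?_, hspec⟩
    intro h0
    have hlt : Nat.find hex - 1 < Nat.find hex := by omega
    apply Nat.find_min hex hlt
    intro k hk
    rcases Nat.lt_or_ge (Nat.find hex) k with h | h
    · exact hspec k h
    · have : k = Nat.find hex := by omega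
      rw [this]
      exact h0
  obtain ⟨s, rfl⟩ : ∃ s, r = s + 4 := ⟨r - 4, by omega⟩
  obtain ⟨c, c', d, h1, h2, h3, h4, h5, h6⟩ := K.topCoefficients g hg s hmax
  have hinj : Function.Injective (algebraMap ℝ A) := (algebraMap ℝ A).injective
  obtain ⟨k1, k2⟩ := nb_p K hp hmax h1 h2 h4
  apply hr
  rw [h1]
  rcases Nat.even_or_odd s with hs | hs
  · have e1 : ((-1 : A)) ^ (s + 3) = -1 := (hs.add_odd (by decide)).neg_one_pow
    rw [e1, neg_one_mul, ← map_neg] at k1
    have := hinj k1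
    have hc : c = 0 := by linarith
    rw [hc, map_zero]
  · have e1 : ((-1 : A)) ^ (s + 2) = -1 := (hs.add_even (by decide)).neg_one_pow
    rw [e1, neg_one_mul, ← map_neg] at k2
    have := hinj k2
    have hc' : c' = 0 := by linarith
    have h7 := nb_q K hq hs hmax h1 (by rw [h2, hc', map_zero]) h3 h4 h5 (h6 hc')
    rw [← map_zero (algebraMap ℝ A)] at h7
    have h8 := hinj h7
    have h9 : (2 * ((s + 4 : ℕ) : ℝ)) ≠ 0 := by positivity
    have hc : c = 0 := (mul_eq_zero.1 h8).resolve_left h9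
    rw [hc, map_zero]

end Pool.Agent.Lib.MP_3c6722_mp
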