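import Pool.Agent.Lib.MP_3c6722_mp.Basic

/-!
# MP_3c6722_mp: rings with jet coordinates and vector fields

`JetRing A`: an `ℝ`-algebra with commuting, locally finite partial derivatives `pd i` and coordinates `z i`.
`J.vf a` is the derivation `∑ a_i ∂_i`.
-/

namespace Pool.Agent.Lib.MP_3c6722_mp

/-- An `ℝ`-algebra with coordinates and commuting, locally finite partial derivatives. -/
structure JetRing (A : Type*) [CommRing A] [Algebra ℝ A] where
  z : ℕ → A
  pd : ℕ → Derivation ℝ A A
  pd_comm : ∀ i j f, pd i (pd j f) = pd j (pd i f)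
  pd_z : ∀ i j, pd i (z j) = if i = j then 1 else 0
  pd_fin : ∀ f, ∃ N, ∀ i, N ≤ i → pd i f = 0

namespace JetRing

variable {A : Type*} [CommRing A] [Algebra ℝ A] (J : JetRing A)

/-- The value at `f` of the vector field with components `a`. -/
noncomputable def vfFun (a : ℕ → A) (f : A) : A := ∑ᶠ i, a i * J.pd i f

theorem vfFun_eq {a : ℕ → A} {f : A} {N : ℕ} (h : ∀ i, N ≤ i → J.pd i f = 0) :
    J.vfFun a f = ∑ i ∈ Finset.range N, a i * J.pd i f := by
  unfold vfFun
  apply finsum_eq_finsetSum_of_support_subset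
  intro i hi
  simp only [Function.mem_support, ne_eq] at hi
  simp only [Finset.coe_range, Set.mem_Iio]
  by_contra hc
  exact hi (by rw [h i (by omega), mul_zero])

theorem pd_fin₂ (f g : A) : ∃ N, ∀ i, N ≤ i → J.pd i f = 0 ∧ J.pd i g = 0 := by
  obtain ⟨N, hN⟩ := J.pd_fin f
  obtain ⟨M, hM⟩ := J.pd_fin g
  exact ⟨max N M, fun i hi => ⟨hN i (le_trans (le_max_left _ _) hi),
    hM i (le_trans (le_max_right _ _) hi)⟩⟩

/-- The derivation `∑ a_i ∂_i`. -/
noncomputable def vf (a : ℕ → A) : Derivation ℝ A A where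
  toFun := J.vfFun a
  map_add' f g := by
    obtain ⟨N, hN⟩ := J.pd_fin₂ f g
    rw [J.vfFun_eq (N := N) (fun i hi => (hN i hi).1), J.vfFun_eq (N := N) (fun i hi => (hN i hi).2),
      J.vfFun_eq (N := N) (fun i hi => by rw [map_add, (hN i hi).1, (hN i hi).2, add_zero]),
      ← Finset.sum_add_distrib]
    exact Finset.sum_congr rfl fun i _ => by rw [map_add]; ring
  map_smul' c f := by
    obtain ⟨N, hN⟩ := J.pd_fin f
    rw [RingHom.id_apply, J.vfFun_eq hN, J.vfFun_eq (N := N) (fun i hi => by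
      rw [Derivation.map_smul, hN i hi, smul_zero]), Finset.smul_sum]
    exact Finset.sum_congr rfl fun i _ => by
      rw [Derivation.map_smul, Algebra.smul_def, Algebra.smul_def]; ring
  map_one_eq_zero' := by
    show J.vfFun a 1 = 0
    rw [J.vfFun_eq (N := 0) (fun i _ => Derivation.map_one_eq_zero _)]
    simp
  leibniz' f g := by
    show J.vfFun a (f * g) = f • J.vfFun a g + g • J.vfFun a f
    obtain ⟨N, hN⟩ := J.pd_fin₂ f g
    rw [J.vfFun_eq (N := N) (fun i hi => (hN i hi).1), J.vfFun_eq (N := N) (fun i hi => (hN i hi).2),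
      J.vfFun_eq (N := N) (fun i hi => by
        rw [Derivation.leibniz, (hN i hi).1, (hN i hi).2, smul_zero, smul_zero, add_zero]),
      smul_eq_mul, smul_eq_mul, Finset.mul_sum, Finset.mul_sum, ← Finset.sum_add_distrib]
    exact Finset.sum_congr rfl fun i _ => by
      rw [Derivation.leibniz, smul_eq_mul, smul_eq_mul]; ring

theorem vf_apply {a : ℕ → A} {f : A} {N : ℕ} (h : ∀ i, N ≤ i → J.pd i f = 0) :
    J.vf a f = ∑ i ∈ Finset.range N, a i * J.pd i f := J.vfFun_eq h

@[simp] theorem vf_z (a : ℕ → A) (i : ℕ) : J.vf a (J.z i) = a i := by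
  rw [J.vf_apply (N := i + 1) (fun j hj => by rw [J.pd_z, if_neg (by omega)])]
  rw [Finset.sum_eq_single i]
  · rw [J.pd_z, if_pos rfl, mul_one]
  · intro j _ hj
    rw [J.pd_z, if_neg hj, mul_zero]
  · intro h
    exact absurd (Finset.mem_range.mpr (Nat.lt_succ_self i)) h

/-- `d` is a vector field: it is determined by its values on the coordinates. -/
def IsVF (d : Derivation ℝ A A) : Prop := d = J.vf (fun i => d (J.z i))

theorem isVF_vf (a : ℕ → A) : J.IsVF (J.vf a) := by
  unfold IsVF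
  congr 1
  funext i
  rw [J.vf_z]

theorem IsVF.ext {d d' : Derivation ℝ A A} (h : J.IsVF d) (h' : J.IsVF d')
    (hz : ∀ i, d (J.z i) = d' (J.z i)) : d = d' := by
  rw [h, h']
  congr 1
  funext i
  exact hz i

theorem IsVF.apply {d : Derivation ℝ A A} (h : J.IsVF d) {f : A} {N : ℕ}
    (hN : ∀ i, N ≤ i → J.pd i f = 0) :
    d f = ∑ i ∈ Finset.range N, d (J.z i) * J.pd i f := by
  conv_lhs => rw [h]
  exact J.vf_apply hN

theorem isVF_of {d : Derivation ℝ A A}
    (h : ∀ f N, (∀ i, N ≤ i → J.pd i f = 0) →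
      d f = ∑ i ∈ Finset.range N, d (J.z i) * J.pd i f) : J.IsVF d := by
  unfold IsVF
  ext f
  obtain ⟨N, hN⟩ := J.pd_fin f
  rw [h f N hN, J.vf_apply hN]

theorem isVF_pd (i : ℕ) : J.IsVF (J.pd i) := by
  apply J.isVF_of
  intro f N hN
  by_cases hi : i < N
  · rw [Finset.sum_eq_single i]
    · rw [J.pd_z, if_pos rfl, one_mul]
    · intro j _ hj
      rw [J.pd_z, if_neg (Ne.symm hj), zero_mul]
    · intro h
      exact absurd (Finset.mem_range.mpr hi) h
  · rw [hN i (by omega), Finset.sum_eq_zero]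
    intro j hj
    rw [J.pd_z, if_neg (by have := Finset.mem_range.mp hj; omega), zero_mul]

theorem isVF_zero : J.IsVF 0 := by
  apply J.isVF_of
  intro f N _
  simp

theorem IsVF.add {d d' : Derivation ℝ A A} (h : J.IsVF d) (h' : J.IsVF d') : J.IsVF (d + d') := by
  apply J.isVF_of
  intro f N hN
  rw [Derivation.add_apply, h.apply J hN, h'.apply J hN, ← Finset.sum_add_distrib]
  exact Finset.sum_congr rfl fun i _ => by rw [Derivation.add_apply]; ring

theorem IsVF.neg {d : Derivation ℝ A A} (h : J.IsVF d) : J.IsVF (-d) := by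
  apply J.isVF_of
  intro f N hN
  rw [Derivation.neg_apply, h.apply J hN, ← Finset.sum_neg_distrib]
  exact Finset.sum_congr rfl fun i _ => by rw [Derivation.neg_apply]; ring

theorem IsVF.sub {d d' : Derivation ℝ A A} (h : J.IsVF d) (h' : J.IsVF d') : J.IsVF (d - d') := by
  rw [sub_eq_add_neg]
  exact h.add J (h'.neg J)

theorem IsVF.smul {d : Derivation ℝ A A} (h : J.IsVF d) (a : A) : J.IsVF (a • d) := by
  apply J.isVF_of
  intro f N hN
  rw [Derivation.smul_apply, h.apply J hN, smul_eq_mul, Finset.mul_sum]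
  exact Finset.sum_congr rfl fun i _ => by rw [Derivation.smul_apply, smul_eq_mul]; ring

theorem pd_iterate_fin (f : A) (N : ℕ) (hN : ∀ i, N ≤ i → J.pd i f = 0) (j : ℕ) :
    ∀ i, N ≤ i → J.pd i (J.pd j f) = 0 := by
  intro i hi
  rw [J.pd_comm, hN i hi, map_zero]

theorem IsVF.bracket {d d' : Derivation ℝ A A} (h : J.IsVF d) (h' : J.IsVF d') :
    J.IsVF ⁅d, d'⁆ := by
  apply J.isVF_of
  intro f N hN
  rw [Derivation.commutator_apply]
  have key : ∀ {a b : Derivation ℝ A A}, J.IsVF a → J.IsVF b →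
      a (b f) = ∑ i ∈ Finset.range N, (a (b (J.z i)) * J.pd i f +
        b (J.z i) * ∑ j ∈ Finset.range N, a (J.z j) * J.pd j (J.pd i f)) := by
    intro a b ha hb
    rw [hb.apply J hN, map_sum]
    refine Finset.sum_congr rfl fun i _ => ?_
    rw [Derivation.leibniz, smul_eq_mul, smul_eq_mul,
      ha.apply J (J.pd_iterate_fin f N hN i)]
    ring
  rw [key h h', key h' h, Finset.sum_add_distrib, Finset.sum_add_distrib]
  have hsym : ∑ i ∈ Finset.range N, d' (J.z i) *
        ∑ j ∈ Finset.range N, d (J.z j) * J.pd j (J.pd i f) =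
      ∑ i ∈ Finset.range N, d (J.z i) *
        ∑ j ∈ Finset.range N, d' (J.z j) * J.pd j (J.pd i f) := by
    simp_rw [Finset.mul_sum]
    rw [Finset.sum_comm]
    refine Finset.sum_congr rfl fun i _ => Finset.sum_congr rfl fun j _ => ?_
    rw [J.pd_comm i j]
    ring
  rw [hsym, add_sub_add_right_eq_sub, ← Finset.sum_sub_distrib]
  refine Finset.sum_congr rfl fun i _ => ?_
  rw [Derivation.commutator_apply]
  ring

/-- The total derivative `D`. -/
noncomputable def D : Derivation ℝ A A := J.vf (fun i => if i = 0 then 1 else J.z (i + 1))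

/-- The components of the evolutionary vector field of `G`. -/
noncomputable def evComp (G : A) : ℕ → A
  | 0 => 0
  | k + 1 => J.D^[k] G

/-- The evolutionary vector field of `G`. -/
noncomputable def ev (G : A) : Derivation ℝ A A := J.vf (J.evComp G)

theorem D_z_zero : J.D (J.z 0) = 1 := by
  unfold D
  rw [J.vf_z, if_pos rfl]

theorem D_z_succ (k : ℕ) : J.D (J.z (k + 1)) = J.z (k + 2) := by
  unfold D
  rw [J.vf_z, if_neg (by omega)]

theorem ev_z_zero (G : A) : J.ev G (J.z 0) = 0 := by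
  unfold ev
  rw [J.vf_z]
  rfl

theorem ev_z_succ (G : A) (k : ℕ) : J.ev G (J.z (k + 1)) = J.D^[k] G := by
  unfold ev
  rw [J.vf_z]
  rfl

theorem isVF_D : J.IsVF J.D := J.isVF_vf _

theorem isVF_ev (G : A) : J.IsVF (J.ev G) := J.isVF_vf _

/-- `D` commutes with evolutionary vector fields. -/
theorem D_ev_comm (G f : A) : J.D (J.ev G f) = J.ev G (J.D f) := by
  have h : ⁅J.D, J.ev G⁆ = 0 := by
    refine IsVF.ext J ((J.isVF_D).bracket J (J.isVF_ev G)) J.isVF_zero ?_
    intro i
    rw [Derivation.commutator_apply, Derivation.zero_apply]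
    rcases i with _ | k
    · rw [J.ev_z_zero, map_zero, J.D_z_zero, Derivation.map_one_eq_zero, sub_zero]
    · rw [J.ev_z_succ, J.D_z_succ, J.ev_z_succ, ← Function.iterate_succ_apply' (⇑J.D) k G, sub_self]
  have h2 := congrArg (fun d : Derivation ℝ A A => d f) h
  simp only [Derivation.commutator_apply, Derivation.zero_apply] at h2
  exact sub_eq_zero.mp h2

end JetRing

end Pool.Agent.Lib.MP_3c6722_mp
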