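import Pool.Agent.Lib.MP_3c6722_mp.Inst
import Pool.Agent.Lib.MP_3c6722_mp.NoSymB

/-!
# MP_3c6722_mp: every local symmetry has order at most 3 (in a ring with jet coordinates)
-/

namespace Pool.Agent.Lib.MP_3c6722_mp

variable {A : Type*} [CommRing A] [Algebra ℝ A]

namespace JetRing

variable (J : JetRing A)

theorem iterate_comm {d d' : Derivation ℝ A A} (h : ∀ f, d (d' f) = d' (d f)) (k : ℕ) (f : A) :
    d' (d^[k] f) = d^[k] (d' f) := by
  induction k with
  | zero => rfl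
  | succ k ih => rw [Function.iterate_succ_apply', Function.iterate_succ_apply', ← h, ih]

/-- A symmetry commutes with the flow. -/
theorem ev_comm {F G : A} (h : J.ev F G = J.ev G F) (f : A) :
    J.ev F (J.ev G f) = J.ev G (J.ev F f) := by
  have h1 : ⁅J.ev F, J.ev G⁆ = 0 := by
    refine IsVF.ext J ((J.isVF_ev F).bracket J (J.isVF_ev G)) J.isVF_zero ?_
    intro i
    rw [Derivation.commutator_apply, Derivation.zero_apply]
    rcases i with _ | k
    · rw [J.ev_z_zero, J.ev_z_zero, map_zero, map_zero, sub_zero]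
    · rw [J.ev_z_succ, J.ev_z_succ, iterate_comm (J.D_ev_comm F), iterate_comm (J.D_ev_comm G), h,
        sub_self]
  have h2 := congrArg (fun d : Derivation ℝ A A => d f) h1
  simp only [Derivation.commutator_apply, Derivation.zero_apply] at h2
  exact sub_eq_zero.mp h2

end JetRing

namespace Coord

variable {J : JetRing A} (K : Coord J)

/-- the variation of the symmetry at fixed `x` -/
noncomputable def Gm (G : A) : Derivation ℝ A A := K.atX (J.ev G)

theorem CD_Gm (G f : A) : K.CD (K.Gm G f) = K.Gm G (K.CD f) := K.atX_CD (J.D_ev_comm G) f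

theorem Gm_x (G : A) : K.Gm G K.x = 0 := K.atX_x _

theorem Gm_Q (G : A) : K.Gm G K.Q = K.t * K.x ^ 3 * J.D G := by
  have h0 : J.ev G (J.z 0) = 0 := J.ev_z_zero G
  have h1 : J.ev G (J.z 2) = J.D G := J.ev_z_succ G 1
  unfold Gm
  rw [K.atX_apply, K.CD_Q]
  unfold Q v
  simp only [map_add, Derivation.leibniz, Derivation.leibniz_pow, smul_eq_mul, nsmul_eq_mul, h0, h1,
    K.D_t]
  have h3 := K.ht
  push_cast
  simp only [pow_one]
  linear_combination (J.ev G K.x * K.x ^ 2 * J.z 2) * h3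

theorem Gm_v_KdV {G : A} (hG : J.ev K.F G = J.ev G K.F) :
    K.Tm (K.Gm G K.v) = K.CD (K.CD (K.CD (K.Gm G K.v))) + 6 * K.v * K.CD (K.Gm G K.v) +
      6 * K.CD K.v * K.Gm G K.v := by
  have h1 : K.Tm (K.Gm G K.v) = K.Gm G (K.Tm K.v) :=
    K.atX_comm K.D_Dt (J.D_ev_comm G) (fun f => J.ev_comm hG f) K.v
  rw [h1, K.Tm_v']
  simp only [map_add, Derivation.leibniz, smul_eq_mul, ← K.CD_Gm]
  rw [show K.Gm G (6 : A) = 0 by
    rw [← map_ofNat (algebraMap ℝ A) 6, Derivation.map_algebraMap]]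
  ring

theorem CD_Gm_P (G : A) : K.CD (K.Gm G K.P) = K.v * K.Gm G K.v := by
  rw [K.CD_Gm, K.CD_P]
  simp only [Derivation.leibniz, Derivation.leibniz_pow, smul_eq_mul, nsmul_eq_mul, K.D_h]
  have h2 := K.hh
  push_cast
  simp only [pow_one]
  linear_combination (K.v * K.Gm G K.v) * h2

theorem CD_Gm_Q (G : A) : K.CD (K.Gm G K.Q) = K.x * K.Gm G K.v := by
  rw [K.CD_Gm, K.CD_Q]
  simp only [Derivation.leibniz, smul_eq_mul, K.Gm_x]
  ring

theorem Gm_v (G : A) : K.Gm G K.v = K.xi * K.CD (K.t * K.x ^ 3 * J.D G) := by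
  rw [← K.Gm_Q, K.CD_Gm_Q]
  have h := K.hx
  linear_combination (- K.Gm G K.v) * h

theorem E_t_x (s : ℕ) (f : A) : K.E (s + 1) (K.t * K.x ^ 3 * f) = K.t * K.x ^ 3 * K.E (s + 1) f := by
  simp only [Derivation.leibniz, Derivation.leibniz_pow, smul_eq_mul, nsmul_eq_mul, K.E_x, K.D_t]
  ring

theorem E_q (s : ℕ) (G : A) : K.E (s + 3) (K.t * K.x ^ 3 * J.D G) =
    K.t * K.x ^ 3 * (J.D (K.E (s + 3) G) + K.lam * K.E (s + 2) G) := by
  rw [K.E_t_x (s + 2), K.E_D (s + 2)]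
  have h0 : K.r (s + 2) = 0 := rfl
  rw [h0]
  ring

theorem E_Gm_v (k : ℕ) {G : A} (hN : ∀ i, k + 6 ≤ i → J.pd i G = 0) :
    K.E (k + 5) (K.Gm G K.v) =
      K.xi * (K.t * K.x ^ 3 * (K.lam * (K.lead (k + 1) * J.pd (k + 5) G))) := by
  rw [K.Gm_v, Derivation.leibniz, smul_eq_mul, smul_eq_mul, K.E_xi, K.E_CD, K.E_q (k + 2),
    K.E_q (k + 1)]
  rw [K.E_eq_zero (k + 3) hN (by omega), K.E_eq_zero (k + 2) hN (by omega),
    K.E_lead (k + 1) hN]
  simp only [map_zero, mul_zero, add_zero, zero_add]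

/-- Every local symmetry has order at most 3. -/
theorem symmetry_order [Nontrivial A]
    (hconst : ∀ f : A, (∀ i, J.pd i f = 0) → ∃ c : ℝ, f = algebraMap ℝ A c)
    (G : A) (hG : J.ev K.F G = J.ev G K.F) : ∀ m, 4 ≤ m → J.pd (m + 1) G = 0 := by
  have hno := (K.kdv hconst).noSymmetry (K.Gm G K.v) (K.Gm G K.P) (K.Gm G K.Q)
    (K.Gm_v_KdV hG) (K.CD_Gm_P G) (K.CD_Gm_Q G)
  have hno' : ∀ k, 4 ≤ k → K.E (k + 1) (K.Gm G K.v) = 0 := hno
  obtain ⟨N, hN⟩ := J.pd_fin G
  have key : ∀ n, ∀ k, N ≤ k + n → J.pd (k + 5) G = 0 := by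
    intro n
    induction n with
    | zero => intro k hk; exact hN _ (by omega)
    | succ n ih =>
      intro k hk
      have h1 : ∀ i, k + 6 ≤ i → J.pd i G = 0 := by
        intro i hi
        obtain ⟨l, rfl⟩ := Nat.exists_eq_add_of_le hi
        have h2 := ih (k + 1 + l) (by omega)
        rw [show k + 6 + l = k + 1 + l + 5 by ring]
        exact h2
      have h2 := K.E_Gm_v k h1
      rw [hno' (k + 4) (by omega)] at h2
      obtain ⟨b, hb⟩ := K.lead_unit (k + 1)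
      have e1 := K.hx
      have e2 := K.ht
      have e3 := K.lam_mu
      have e4 : K.x ^ 3 * K.xi ^ 3 = 1 := by rw [← mul_pow, K.hx, one_pow]
      calc J.pd (k + 5) G
          = (K.x * K.xi) * (3 * K.t) * (K.x ^ 3 * K.xi ^ 3) * (K.lam * K.mu) *
            (K.lead (k + 1) * b) * J.pd (k + 5) G := by rw [e1, e2, e3, e4, hb]; ring
        _ = K.x * 3 * K.xi ^ 3 * K.mu * b *
            (K.xi * (K.t * K.x ^ 3 * (K.lam * (K.lead (k + 1) * J.pd (k + 5) G)))) := by ring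
        _ = 0 := by rw [← h2, mul_zero]
  intro m hm
  obtain ⟨k, rfl⟩ := Nat.exists_eq_add_of_le hm
  rw [show 4 + k + 1 = k + 5 by ring]
  exact key N k (by omega)

end Coord

end Pool.Agent.Lib.MP_3c6722_mp
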