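import Pool.Agent.Lib.MP_3c6722_mp.Flow
import Pool.Agent.Lib.MP_3c6722_mp.KdVRing

/-!
# MP_3c6722_mp: the partial derivatives in the coordinates `(x, P, Q, v_0, v_1, ...)`

`E (k+1)` is the derivation `∂/∂v_k`, `E 0 = v ∂_u + x ∂_c`.
-/

namespace Pool.Agent.Lib.MP_3c6722_mp

namespace Coord

variable {A : Type*} [CommRing A] [Algebra ℝ A] {J : JetRing A} (K : Coord J)

/-- logarithmic derivatives of `lam` -/
noncomputable def r : ℕ → A
  | 0 => - K.wi
  | 1 => K.x * K.wi
  | _ + 2 => 0

/-- the components of the vector fields -/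
noncomputable def comp : ℕ → ℕ → A
  | 0, 0 => K.x
  | 0, 1 => K.v
  | 0, _ + 2 => 0
  | k + 1, 0 => if k = 0 then - (K.t * K.x ^ 2) else 0
  | k + 1, 1 => if k = 0 then - (K.t * K.v * K.x) else 0
  | k + 1, j + 2 => K.r k * J.z (j + 2) + J.D (comp (k + 1) (j + 1)) + K.lam * comp k (j + 1)

/-- the vector fields -/
noncomputable def E (s : ℕ) : Derivation ℝ A A := J.vf (K.comp s)

theorem isVF_E (s : ℕ) : J.IsVF (K.E s) := J.isVF_vf _

theorem E_z (s i : ℕ) : K.E s (J.z i) = K.comp s i := J.vf_z _ _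

theorem wi_eq : K.wi = K.t * K.x * K.lam := rfl

theorem E_D (k : ℕ) (f : A) :
    K.E (k + 1) (J.D f) = K.r k * J.D f + J.D (K.E (k + 1) f) + K.lam * K.E k f := by
  have h : ⁅K.E (k + 1), J.D⁆ = K.r k • J.D + K.lam • K.E k := by
    refine JetRing.IsVF.ext J ((K.isVF_E _).bracket J J.isVF_D)
      ((J.isVF_D.smul J _).add J ((K.isVF_E k).smul J _)) ?_
    intro i
    rw [Derivation.commutator_apply, Derivation.add_apply, Derivation.smul_apply,
      Derivation.smul_apply, smul_eq_mul, smul_eq_mul, K.E_z, K.E_z]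
    rcases i with _ | j
    · rw [J.D_z_zero, Derivation.map_one_eq_zero]
      have ht := K.ht
      rcases k with _ | _ | k
      · simp only [comp, r, if_true, map_neg, Derivation.leibniz, Derivation.leibniz_pow,
          smul_eq_mul, nsmul_eq_mul, K.D_x, K.D_t, K.wi_eq]
        push_cast
        simp only [pow_one]
        linear_combination (K.x * K.lam) * ht
      · simp only [comp, r, if_true, K.wi_eq]
        rw [if_neg (by omega), map_zero]
        ring
      · simp only [comp, r]
        rw [if_neg (by omega), if_neg (by omega), map_zero]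
        ring
    · rw [J.D_z_succ, K.E_z]
      simp only [comp]
      ring
  have h2 := congrArg (fun d : Derivation ℝ A A => d f) h
  simp only [Derivation.commutator_apply, Derivation.add_apply, Derivation.smul_apply,
    smul_eq_mul] at h2
  linear_combination h2

theorem comp_two (k : ℕ) : K.comp (k + 1) 2 = if k = 0 then K.xi else 0 := by
  have ht := K.ht
  have h1 := K.hx
  rcases k with _ | _ | k
  · simp only [comp, r, if_true, map_neg, Derivation.leibniz, smul_eq_mul, K.D_x, K.D_t]
    rw [K.D_eq K.v, K.CD_v, K.z2]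
    have h2 := K.w_wi
    have h3 := K.lam_eq
    have hw : K.w = K.v - K.x * K.v1 := rfl
    linear_combination (- K.t * K.v - K.t * K.x * K.v1 + K.v) * h3 +
      (- K.xi * K.wi * K.v - K.x * K.xi * K.wi * K.v1) * ht + K.xi * h2 - K.xi * K.wi * hw
  · have h3 := K.wi_eq
    simp only [comp, r, if_true]
    rw [if_neg (by omega), if_neg (by omega), map_zero, K.z2]
    linear_combination (K.v * K.wi) * h1 + K.v * h3
  · simp only [comp, r]
    rw [if_neg (by omega), if_neg (by omega), if_neg (by omega), map_zero]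
    ring

theorem comp_three (k : ℕ) : K.comp (k + 1) 3 = 0 := by
  have h1 := K.hx
  have h4 := K.lam_eq
  rw [show K.comp (k + 1) 3 = K.r k * J.z 3 + J.D (K.comp (k + 1) 2) + K.lam * K.comp k 2 by
    rw [comp], K.comp_two, K.h3]
  rcases k with _ | _ | k
  · simp only [comp, r, if_true, K.D_xi]
    linear_combination (- K.xi ^ 2) * h4
  · rw [K.comp_two]
    simp only [r, if_true]
    rw [if_neg (by omega), map_zero]
    linear_combination (-3 * K.wi * K.xi ^ 2) * h1 + K.xi * h4
  · rw [K.comp_two]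
    simp only [r]
    rw [if_neg (by omega), if_neg (by omega), map_zero]
    ring

theorem comp_four (k : ℕ) : K.comp (k + 1) 4 = K.r k * J.z 4 := by
  rw [show K.comp (k + 1) 4 = K.r k * J.z 4 + J.D (K.comp (k + 1) 3) + K.lam * K.comp k 3 by
    rw [comp], K.comp_three, map_zero]
  rcases k with _ | k
  · simp only [comp]
    ring
  · rw [K.comp_three]
    ring

theorem comp_zero_ge (j : ℕ) (hj : 2 ≤ j) : K.comp 0 j = 0 := by
  obtain ⟨i, rfl⟩ := Nat.exists_eq_add_of_le hj
  rw [add_comm, comp]

/-- `e_k` does not see the jet variables of order less than `k + 2`. -/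
theorem comp_eq_zero (k : ℕ) : ∀ j, j ≤ k + 3 → K.comp (k + 2) j = 0 := by
  induction k with
  | zero =>
    intro j hj
    rcases j with _ | _ | _ | _ | j
    · simp [comp]
    · simp [comp]
    · rw [K.comp_two, if_neg (by omega)]
    · rw [K.comp_three]
    · omega
  | succ k ih =>
    intro j hj
    rcases j with _ | _ | j
    · rw [comp, if_neg (by omega)]
    · rw [comp, if_neg (by omega)]
    · rw [comp, ih (j + 1) (by omega), mul_zero, add_zero]
      have h0 : K.r (k + 2) = 0 := rfl
      rw [h0, zero_mul, zero_add]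
      induction j with
      | zero => rw [zero_add, comp, if_neg (by omega), map_zero]
      | succ j ihj =>
        rw [comp, ih (j + 1) (by omega), mul_zero, add_zero, h0, zero_mul, zero_add]
        rw [ihj (by omega), map_zero]

/-- the leading component of `e_k` -/
noncomputable def lead (k : ℕ) : A := K.lam ^ k * (K.x * K.wi * J.z 4)

theorem comp_lead (k : ℕ) : K.comp (k + 2) (k + 4) = K.lead k := by
  induction k with
  | zero =>
    rw [K.comp_four]
    simp only [lead, r, pow_zero, one_mul]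
  | succ k ih =>
    have h0 : K.r (k + 2) = 0 := rfl
    rw [show K.comp (k + 1 + 2) (k + 1 + 4) = K.r (k + 2) * J.z (k + 5) +
      J.D (K.comp (k + 3) (k + 4)) + K.lam * K.comp (k + 2) (k + 4) by rw [comp], ih,
      K.comp_eq_zero (k + 1) (k + 4) (by omega), map_zero, h0]
    simp only [lead, pow_succ]
    ring

theorem lead_unit (k : ℕ) : ∃ b, K.lead k * b = 1 := by
  refine ⟨K.mu ^ k * (K.xi * K.w * K.m), ?_⟩
  have h1 : K.lam ^ k * K.mu ^ k = 1 := by rw [← mul_pow, K.lam_mu, one_pow]
  unfold lead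
  calc K.lam ^ k * (K.x * K.wi * J.z 4) * (K.mu ^ k * (K.xi * K.w * K.m))
      = (K.lam ^ k * K.mu ^ k) * (K.x * K.xi) * (K.w * K.wi) * (J.z 4 * K.m) := by ring
    _ = 1 := by rw [h1, K.hx, K.w_wi, K.h4]; ring

theorem E_x (k : ℕ) : K.E (k + 1) K.x = 0 := by
  rw [K.d_x, K.E_z, K.comp_three, mul_zero]

theorem E_xi (k : ℕ) : K.E (k + 1) K.xi = 0 := by
  rw [K.d_xi, K.E_z, K.comp_three, mul_zero, neg_zero]

theorem E_lam (k : ℕ) : K.E (k + 1) K.lam = K.r k * K.lam := by
  unfold lam
  simp only [Derivation.leibniz, Derivation.leibniz_pow, smul_eq_mul, nsmul_eq_mul, K.E_x, K.D_t,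
    K.E_z, K.comp_four]
  ring

theorem E_mu (k : ℕ) : K.E (k + 1) K.mu = - K.r k * K.mu := by
  have h1 : K.E (k + 1) (K.lam * K.mu) = 0 := by
    rw [K.lam_mu]; exact Derivation.map_one_eq_zero _
  rw [Derivation.leibniz, smul_eq_mul, smul_eq_mul, K.E_lam] at h1
  have h2 := K.lam_mu
  linear_combination K.mu * h1 - (K.E (k + 1) K.mu + K.r k * K.mu) * h2

theorem E_CD (k : ℕ) (f : A) : K.E (k + 1) (K.CD f) = K.CD (K.E (k + 1) f) + K.E k f := by
  rw [K.CD_apply, Derivation.leibniz, smul_eq_mul, smul_eq_mul, K.E_mu, K.E_D, K.CD_apply]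
  have h2 := K.lam_mu
  linear_combination (K.E k f) * h2

end Coord

end Pool.Agent.Lib.MP_3c6722_mp
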