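import Pool.Agent.Lib.MP_3c6722_mp.Vec

/-!
# MP_3c6722_mp: commutation relations of the partial derivatives in KdV coordinates
-/

namespace Pool.Agent.Lib.MP_3c6722_mp

variable {A : Type*} [CommRing A] [Algebra ℝ A]

namespace JetRing

variable (J : JetRing A)

theorem pd_zero_D (f : A) : J.pd 0 (J.D f) = J.D (J.pd 0 f) := by
  have h : ⁅J.pd 0, J.D⁆ = 0 := by
    refine IsVF.ext J ((J.isVF_pd 0).bracket J J.isVF_D) J.isVF_zero ?_
    intro i
    rw [Derivation.commutator_apply, Derivation.zero_apply]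
    rcases i with _ | k
    · rw [J.D_z_zero, J.pd_z, if_pos rfl, Derivation.map_one_eq_zero, Derivation.map_one_eq_zero,
        sub_zero]
    · rw [J.D_z_succ, J.pd_z, J.pd_z, if_neg (by omega), if_neg (by omega), map_zero, sub_zero]
  have h2 := congrArg (fun d : Derivation ℝ A A => d f) h
  simp only [Derivation.commutator_apply, Derivation.zero_apply] at h2
  exact sub_eq_zero.mp h2

theorem pd_one_D (f : A) : J.pd 1 (J.D f) = J.D (J.pd 1 f) := by
  have h : ⁅J.pd 1, J.D⁆ = 0 := by
    refine IsVF.ext J ((J.isVF_pd 1).bracket J J.isVF_D) J.isVF_zero ?_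
    intro i
    rw [Derivation.commutator_apply, Derivation.zero_apply]
    rcases i with _ | k
    · rw [J.D_z_zero, J.pd_z, if_neg (by omega), Derivation.map_one_eq_zero, map_zero, sub_zero]
    · rw [J.D_z_succ, J.pd_z, J.pd_z, if_neg (by omega)]
      split_ifs
      · rw [Derivation.map_one_eq_zero, sub_zero]
      · rw [map_zero, sub_zero]
  have h2 := congrArg (fun d : Derivation ℝ A A => d f) h
  simp only [Derivation.commutator_apply, Derivation.zero_apply] at h2
  exact sub_eq_zero.mp h2

theorem pd_D (i : ℕ) (f : A) : J.pd (i + 2) (J.D f) = J.D (J.pd (i + 2) f) + J.pd (i + 1) f := by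
  have h : ⁅J.pd (i + 2), J.D⁆ = J.pd (i + 1) := by
    refine IsVF.ext J ((J.isVF_pd _).bracket J J.isVF_D) (J.isVF_pd _) ?_
    intro l
    rw [Derivation.commutator_apply]
    rcases l with _ | k
    · rw [J.D_z_zero, J.pd_z, J.pd_z, if_neg (by omega), if_neg (by omega),
        Derivation.map_one_eq_zero, map_zero, sub_zero]
    · rw [J.D_z_succ, J.pd_z, J.pd_z, J.pd_z]
      have h3 : J.D (if i + 2 = k + 1 then (1 : A) else 0) = 0 := by
        split_ifs
        · exact Derivation.map_one_eq_zero _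
        · exact map_zero _
      rw [h3, sub_zero]
      by_cases hk : i + 1 = k + 1
      · rw [if_pos (by omega), if_pos hk]
      · rw [if_neg (by omega), if_neg hk]
  have h2 := congrArg (fun d : Derivation ℝ A A => d f) h
  simp only [Derivation.commutator_apply] at h2
  linear_combination h2

/-- `D f = 0` implies that all partial derivatives vanish. -/
theorem pd_eq_zero_of_D {f : A} (hf : J.D f = 0) (i : ℕ) : J.pd i f = 0 := by
  obtain ⟨N, hN⟩ := J.pd_fin f
  have key : ∀ n, ∀ i, N ≤ i + n → J.pd (i + 1) f = 0 := by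
    intro n
    induction n with
    | zero => intro i hi; exact hN _ (by omega)
    | succ n ih =>
      intro i hi
      have h1 := J.pd_D i f
      rw [hf, map_zero, ih (i + 1) (by omega), map_zero, zero_add] at h1
      exact h1.symm
  rcases i with _ | i
  · have h1 := (J.isVF_D).apply J hN
    rw [hf] at h1
    by_cases h0 : N = 0
    · exact hN 0 (by omega)
    · obtain ⟨M, rfl⟩ := Nat.exists_eq_succ_of_ne_zero h0
      rw [Finset.sum_range_succ', Finset.sum_eq_zero, zero_add, J.D_z_zero, one_mul] at h1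
      · exact h1.symm
      · intro i _
        rw [key (M + 1) i (by omega), mul_zero]
  · exact key N i (by omega)

end JetRing

namespace Coord

variable {J : JetRing A} (K : Coord J)

theorem pd_m_zero : J.pd 0 K.m = 0 ∧ J.pd 1 K.m = 0 := by
  have h1 := K.h4
  constructor
  · have h2 : J.pd 0 (J.z 4 * K.m) = 0 := by rw [h1]; exact Derivation.map_one_eq_zero _
    rw [Derivation.leibniz, smul_eq_mul, smul_eq_mul, J.pd_z, if_neg (by omega)] at h2
    linear_combination K.m * h2 - (J.pd 0 K.m) * h1
  · have h2 : J.pd 1 (J.z 4 * K.m) = 0 := by rw [h1]; exact Derivation.map_one_eq_zero _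
    rw [Derivation.leibniz, smul_eq_mul, smul_eq_mul, J.pd_z, if_neg (by omega)] at h2
    linear_combination K.m * h2 - (J.pd 1 K.m) * h1

theorem pd_low_x (i : ℕ) (hi : i < 2) : J.pd i K.x = 0 := by
  rw [K.d_x, J.pd_z, if_neg (by omega), mul_zero]

theorem pd_low_xi (i : ℕ) (hi : i < 2) : J.pd i K.xi = 0 := by
  rw [K.d_xi, J.pd_z, if_neg (by omega), mul_zero, neg_zero]

theorem pd_low_mu (i : ℕ) (hi : i < 2) : J.pd i K.mu = 0 := by
  have h1 : J.pd i K.m = 0 := by
    rcases i with _ | _ | i
    · exact K.pd_m_zero.1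
    · exact K.pd_m_zero.2
    · omega
  unfold mu
  simp only [Derivation.leibniz, Derivation.leibniz_pow, smul_eq_mul, nsmul_eq_mul, h1,
    K.pd_low_xi i hi]
  rw [← map_ofNat (algebraMap ℝ A) 9, Derivation.map_algebraMap]
  ring

theorem pd_low_D (i : ℕ) (hi : i < 2) (f : A) : J.pd i (J.D f) = J.D (J.pd i f) := by
  rcases i with _ | _ | i
  · exact J.pd_zero_D f
  · exact J.pd_one_D f
  · omega

theorem pd_low_CD (i : ℕ) (hi : i < 2) (f : A) : J.pd i (K.CD f) = K.CD (J.pd i f) := by
  rw [K.CD_apply, K.CD_apply, Derivation.leibniz, smul_eq_mul, smul_eq_mul, K.pd_low_mu i hi,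
    pd_low_D i hi]
  ring

theorem pd_low_v (i : ℕ) (hi : i < 2) (j : ℕ) : J.pd i (K.CD^[j] K.v) = 0 := by
  induction j with
  | zero =>
    show J.pd i (K.x * J.z 2) = 0
    rw [Derivation.leibniz, K.pd_low_x i hi, J.pd_z, if_neg (by omega)]
    simp
  | succ j ih =>
    rw [Function.iterate_succ_apply', K.pd_low_CD i hi, ih, map_zero]

theorem E_zero (f : A) : K.E 0 f = K.x * J.pd 0 f + K.v * J.pd 1 f := by
  have h : K.E 0 = K.x • J.pd 0 + K.v • J.pd 1 := by
    refine JetRing.IsVF.ext J (K.isVF_E 0)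
      (((J.isVF_pd 0).smul J _).add J ((J.isVF_pd 1).smul J _)) ?_
    intro i
    rw [Derivation.add_apply, Derivation.smul_apply, Derivation.smul_apply, smul_eq_mul,
      smul_eq_mul, K.E_z, J.pd_z, J.pd_z]
    rcases i with _ | _ | i
    · simp [comp]
    · simp [comp]
    · rw [comp, if_neg (by omega), if_neg (by omega)]
      ring
  rw [h, Derivation.add_apply, Derivation.smul_apply, Derivation.smul_apply, smul_eq_mul,
    smul_eq_mul]

theorem E_zero_v (j : ℕ) : K.E 0 (K.CD^[j] K.v) = 0 := by
  rw [K.E_zero, K.pd_low_v 0 (by omega), K.pd_low_v 1 (by omega)]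
  ring

theorem E_v (k j : ℕ) : K.E (k + 1) (K.CD^[j] K.v) = if k = j then 1 else 0 := by
  induction j generalizing k with
  | zero =>
    show K.E (k + 1) (K.x * J.z 2) = _
    rw [Derivation.leibniz, smul_eq_mul, smul_eq_mul, K.E_x, K.E_z, K.comp_two]
    have h1 := K.hx
    by_cases hk : k = 0
    · rw [if_pos hk, if_pos hk]; linear_combination h1
    · rw [if_neg hk, if_neg hk]; ring
  | succ j ih =>
    rw [Function.iterate_succ_apply', K.E_CD, ih]
    have h3 : K.CD (if k = j then (1 : A) else 0) = 0 := by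
      split_ifs
      · exact Derivation.map_one_eq_zero _
      · exact map_zero _
    rw [h3, zero_add]
    rcases k with _ | k
    · rw [K.E_zero_v, if_neg (by omega)]
    · rw [ih]
      by_cases hk : k = j
      · rw [if_pos hk, if_pos (by omega)]
      · rw [if_neg hk, if_neg (by omega)]

theorem E_v_zero (k : ℕ) : K.E (k + 1) K.v = if k = 0 then 1 else 0 := K.E_v k 0

theorem E_v_one (k : ℕ) : K.E (k + 1) K.v1 = if k = 1 then 1 else 0 := K.E_v k 1

theorem E_v_two (k : ℕ) : K.E (k + 1) K.v2 = if k = 2 then 1 else 0 := K.E_v k 2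

theorem E_v_three (k : ℕ) : K.E (k + 1) K.v3 = if k = 3 then 1 else 0 := K.E_v k 3

/-- A vector field which kills `x`, `c`, `u` and all `v_j` is zero. -/
theorem vf_eq_zero {d : Derivation ℝ A A} (hd : J.IsVF d) (hx : d K.x = 0) (h0 : d (J.z 0) = 0)
    (h1 : d (J.z 1) = 0) (hv : ∀ j, d (K.CD^[j] K.v) = 0) : d = 0 := by
  let S : Subalgebra ℝ A := Algebra.adjoin ℝ
    ({K.x, K.xi, K.wi, J.z 1} ∪ Set.range fun j => K.CD^[j] K.v)
  have hSx : K.x ∈ S := Algebra.subset_adjoin (by simp)
  have hSxi : K.xi ∈ S := Algebra.subset_adjoin (by simp)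
  have hSwi : K.wi ∈ S := Algebra.subset_adjoin (by simp)
  have hSz : J.z 1 ∈ S := Algebra.subset_adjoin (by simp)
  have hSv : ∀ j, K.CD^[j] K.v ∈ S := fun j => Algebra.subset_adjoin (Or.inr ⟨j, rfl⟩)
  have hSt : K.t ∈ S := S.algebraMap_mem _
  have hSw : K.w ∈ S := S.sub_mem (hSv 0) (S.mul_mem hSx (hSv 1))
  have hwi : ∀ a : Derivation ℝ A A, a K.wi = - K.wi ^ 2 * a K.w := by
    intro a
    have e1 : a (K.w * K.wi) = 0 := by rw [K.w_wi]; exact Derivation.map_one_eq_zero _
    rw [Derivation.leibniz, smul_eq_mul, smul_eq_mul] at e1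
    have e2 := K.w_wi
    linear_combination K.wi * e1 - (a K.wi) * e2
  have hCD : ∀ f ∈ S, K.CD f ∈ S := by
    intro f hf
    induction hf using Algebra.adjoin_induction with
    | mem y hy =>
      rcases hy with hy | ⟨j, rfl⟩
      · simp only [Set.mem_insert_iff, Set.mem_singleton_iff] at hy
        rcases hy with rfl | rfl | rfl | rfl
        · rw [K.CD_x]; exact S.one_mem
        · rw [K.CD_xi]; exact S.neg_mem (S.pow_mem hSxi 2)
        · rw [hwi, K.CD_w]
          exact S.mul_mem (S.neg_mem (S.pow_mem hSwi 2))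
            (S.mul_mem (S.neg_mem hSx) (hSv 2))
        · rw [K.CD_z1]
          exact S.mul_mem (S.mul_mem hSt (hSv 0)) hSw
      · show K.CD (K.CD^[j] K.v) ∈ S
        rw [← Function.iterate_succ_apply' (⇑K.CD)]
        exact hSv (j + 1)
    | algebraMap c => rw [Derivation.map_algebraMap]; exact S.zero_mem
    | add a b _ _ ha hb => rw [map_add]; exact S.add_mem ha hb
    | mul a b ha' hb' ha hb =>
      rw [Derivation.leibniz, smul_eq_mul, smul_eq_mul]
      exact S.add_mem (S.mul_mem ha' hb) (S.mul_mem hb' ha)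
  have hSlam : K.lam ∈ S := by
    rw [K.lam_eq]
    exact S.mul_mem (S.mul_mem (by exact_mod_cast S.natCast_mem 3) hSxi) hSwi
  have hSz' : ∀ i, J.z (i + 1) ∈ S := by
    intro i
    induction i with
    | zero => exact hSz
    | succ i ih =>
      rw [← J.D_z_succ, K.D_eq]
      exact S.mul_mem hSlam (hCD _ ih)
  have hxi : d K.xi = 0 := by
    have e1 : d (K.x * K.xi) = 0 := by rw [K.hx]; exact Derivation.map_one_eq_zero _
    rw [Derivation.leibniz, smul_eq_mul, smul_eq_mul, hx] at e1
    have e2 := K.hx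
    linear_combination K.xi * e1 - (d K.xi) * e2
  have hw : d K.w = 0 := by
    show d (K.v - K.x * K.v1) = 0
    have e0 : d K.v = 0 := hv 0
    have e1 : d K.v1 = 0 := hv 1
    rw [map_sub, Derivation.leibniz, e0, e1, hx]
    simp
  have hdS : ∀ f ∈ S, d f = 0 := by
    intro f hf
    induction hf using Algebra.adjoin_induction with
    | mem y hy =>
      rcases hy with hy | ⟨j, rfl⟩
      · simp only [Set.mem_insert_iff, Set.mem_singleton_iff] at hy
        rcases hy with rfl | rfl | rfl | rfl
        · exact hx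
        · exact hxi
        · rw [hwi, hw, mul_zero]
        · exact h1
      · exact hv j
    | algebraMap c => exact Derivation.map_algebraMap _ _
    | add a b _ _ ha hb => rw [map_add, ha, hb, add_zero]
    | mul a b _ _ ha hb =>
      rw [Derivation.leibniz, ha, hb, smul_zero, smul_zero, add_zero]
  refine JetRing.IsVF.ext J hd J.isVF_zero ?_
  intro i
  rw [Derivation.zero_apply]
  rcases i with _ | i
  · exact h0
  · exact hdS _ (hSz' i)

theorem E_const (k : ℕ) (p : Prop) [Decidable p] : K.E k (if p then (1 : A) else 0) = 0 := by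
  split_ifs
  · exact Derivation.map_one_eq_zero _
  · exact map_zero _

theorem E_comm (k l : ℕ) (f : A) :
    K.E (k + 1) (K.E (l + 1) f) = K.E (l + 1) (K.E (k + 1) f) := by
  have h : ⁅K.E (k + 1), K.E (l + 1)⁆ = 0 := by
    apply K.vf_eq_zero ((K.isVF_E _).bracket J (K.isVF_E _))
    · rw [Derivation.commutator_apply, K.E_x, K.E_x, map_zero, map_zero, sub_zero]
    · rw [Derivation.commutator_apply, K.E_z, K.E_z]
      have h1 : ∀ a b : ℕ, K.E (a + 1) (K.comp (b + 1) 0) = 0 := by
        intro a b
        rw [comp]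
        split_ifs
        · rw [map_neg, Derivation.leibniz, Derivation.leibniz_pow, K.E_x, K.D_t]
          simp
        · exact map_zero _
      rw [h1, h1, sub_zero]
    · rw [Derivation.commutator_apply, K.E_z, K.E_z]
      have h1 : ∀ a b : ℕ, K.E (a + 1) (K.comp (b + 1) 1) =
          if b = 0 then (if a = 0 then - (K.t * K.x) else 0) else 0 := by
        intro a b
        rw [comp]
        by_cases hb : b = 0
        · rw [if_pos hb, if_pos hb, map_neg, Derivation.leibniz, Derivation.leibniz, K.E_x, K.D_t,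
            K.E_v_zero]
          simp only [smul_eq_mul]
          by_cases ha : a = 0
          · rw [if_pos ha, if_pos ha]; ring
          · rw [if_neg ha, if_neg ha]; ring
        · rw [if_neg hb, if_neg hb]; exact map_zero _
      rw [h1, h1]
      by_cases ha : k = 0 <;> by_cases hb : l = 0 <;> simp [ha, hb]
    · intro j
      rw [Derivation.commutator_apply, K.E_v, K.E_v, K.E_const, K.E_const, sub_zero]
  have h2 := congrArg (fun d : Derivation ℝ A A => d f) h
  simp only [Derivation.commutator_apply, Derivation.zero_apply] at h2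
  exact sub_eq_zero.mp h2

/-- `e_k f = 0` if `f` depends only on the first `k + 3` coordinates, `k ≥ 1`. -/
theorem E_eq_zero (k : ℕ) {f : A} {N : ℕ} (hN : ∀ i, N ≤ i → J.pd i f = 0) (hk : N ≤ k + 4) :
    K.E (k + 2) f = 0 := by
  rw [(K.isVF_E (k + 2)).apply J hN]
  apply Finset.sum_eq_zero
  intro i hi
  rw [K.E_z, K.comp_eq_zero k i (by have := Finset.mem_range.mp hi; omega), zero_mul]

theorem E_lead (k : ℕ) {f : A} (hN : ∀ i, k + 5 ≤ i → J.pd i f = 0) :
    K.E (k + 2) f = K.lead k * J.pd (k + 4) f := by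
  rw [(K.isVF_E (k + 2)).apply J hN, Finset.sum_range_succ, Finset.sum_eq_zero, zero_add, K.E_z,
    K.comp_lead]
  intro i hi
  rw [K.E_z, K.comp_eq_zero k i (by have := Finset.mem_range.mp hi; omega), zero_mul]

end Coord

end Pool.Agent.Lib.MP_3c6722_mp
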